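import Mathlib

/-!
Definitions for MP_0e580c_ag (heat flow of bivariate non-negative polynomials).
-/

namespace HF

open MvPolynomial

/-- The Laplacian on `ℝ[x₀, x₁]`. -/
noncomputable def lap (f : MvPolynomial (Fin 2) ℝ) : MvPolynomial (Fin 2) ℝ :=
  pderiv 0 (pderiv 0 f) + pderiv 1 (pderiv 1 f)

/-- The heat polynomial `∑ tᵏ/k! Δᵏ f` (the terms with `2 k > deg f` vanish). -/
noncomputable def heat (t : ℝ) (f : MvPolynomial (Fin 2) ℝ) : MvPolynomial (Fin 2) ℝ :=
  ∑ k ∈ Finset.range (f.totalDegree + 1), (t ^ k / (k.factorial : ℝ)) • (lap^[k] f)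

end HF
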