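import Mathlib
import Pool.Agent.Hhelper20.HF.Defs

/-!
The algebraic core: lattices over `ℝ⟦1/y⟧` and the descent step.
-/

namespace HF

open Polynomial

/-- Bivariate polynomials; `X 0` is `x`, `X 1` is `y`. -/
abbrev P := MvPolynomial (Fin 2) ℝ

/-- The local data at `y = ∞`: a ring `K ⊇ ℝ[y]` with a subring `O` and `s = 1/y`. -/
structure LocData (K : Type*) [CommRing K] where
  ι : ℝ[X] →+* K
  O : Subring K
  s : K
  hs : s * ι X = 1
  hsO : s ∈ O
  hC : ∀ r : ℝ, ι (C r) ∈ O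
  k1 : ∀ c : K, ∃ p : ℝ[X], ∃ o ∈ O, c = ι p + s * o
  k2 : ∀ p : ℝ[X], ∀ o ∈ O, ι p = s * o → p = 0
  k3 : ∀ o ∈ O, ∃ r : ℝ, ∃ o' ∈ O, o = ι (C r) + s * o'

variable {K : Type*} [CommRing K] (D : LocData K)

namespace LocData

/-- The embedding `ℝ[x, y] → K[x]`. -/
noncomputable def φ : P →+* K[X] :=
  MvPolynomial.eval₂Hom ((C : K →+* K[X]).comp (D.ι.comp (C : ℝ →+* ℝ[X])))
    ![(X : K[X]), C (D.ι X)]

@[simp] lemma φ_C (r : ℝ) : D.φ (MvPolynomial.C r) = C (D.ι (C r)) := by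
  simp [φ]

@[simp] lemma φ_X0 : D.φ (MvPolynomial.X 0) = X := by
  simp [φ]

@[simp] lemma φ_X1 : D.φ (MvPolynomial.X 1) = C (D.ι X) := by
  simp [φ]

lemma φ_smul (r : ℝ) (p : P) : D.φ (r • p) = C (D.ι (C r)) * D.φ p := by
  rw [MvPolynomial.smul_eq_C_mul, map_mul, φ_C]

/-- polynomial in `y` as an element of `P` -/
noncomputable def yp : ℝ[X] →+* P := eval₂RingHom (MvPolynomial.C) (MvPolynomial.X 1)

lemma φ_yp (p : ℝ[X]) : D.φ (yp p) = C (D.ι p) := by
  have : (D.φ.comp yp) = (C : K →+* K[X]).comp D.ι := by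
    apply Polynomial.ringHom_ext
    · intro a
      simp [yp]
    · simp [yp]
  exact congrFun (congrArg DFunLike.coe this) p

lemma φ_pderiv (p : P) : D.φ (MvPolynomial.pderiv 0 p) = derivative (D.φ p) := by
  induction p using MvPolynomial.induction_on with
  | C a => simp
  | add p q hp hq => simp [hp, hq]
  | mul_X p n hp =>
    rw [Derivation.leibniz]
    simp only [smul_eq_mul, map_add, map_mul, hp, derivative_mul]
    fin_cases n
    · simp
      ring
    · simp [MvPolynomial.pderiv_X]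
      ring

/-- coefficients of elements of `P` are in `ℝ[y]` -/
lemma φ_coeff (p : P) (n : ℕ) : ∃ q : ℝ[X], (D.φ p).coeff n = D.ι q := by
  induction p using MvPolynomial.induction_on generalizing n with
  | C a =>
    by_cases h : n = 0
    · exact ⟨C a, by simp [h]⟩
    · exact ⟨0, by simp [coeff_C, h]⟩
  | add p q hp hq =>
    obtain ⟨a, ha⟩ := hp n
    obtain ⟨b, hb⟩ := hq n
    exact ⟨a + b, by simp [ha, hb]⟩
  | mul_X p i hp =>
    fin_cases i
    · rcases n with _ | n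
      · exact ⟨0, by simp⟩
      · obtain ⟨a, ha⟩ := hp n
        exact ⟨a, by simp [ha]⟩
    · obtain ⟨a, ha⟩ := hp n
      exact ⟨a * X, by simp [ha]⟩

lemma ι_injective : Function.Injective D.ι := by
  rw [injective_iff_map_eq_zero]
  intro p hp
  exact D.k2 p 0 D.O.zero_mem (by simp [hp])

/-- `ℝ[x,y] → ℝ[y][x]` -/
noncomputable def toPP : P →+* ℝ[X][X] :=
  MvPolynomial.eval₂Hom ((C : ℝ[X] →+* ℝ[X][X]).comp (C : ℝ →+* ℝ[X])) ![X, C X]

/-- `ℝ[y][x] → ℝ[x,y]` -/
noncomputable def ofPP : ℝ[X][X] →+* P := eval₂RingHom yp (MvPolynomial.X 0)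

lemma ofPP_toPP (p : P) : ofPP (toPP p) = p := by
  have : ofPP.comp toPP = RingHom.id P := by
    apply MvPolynomial.ringHom_ext
    · intro r
      simp [ofPP, toPP, yp]
    · intro i
      fin_cases i
      · simp [ofPP, toPP]
      · simp [ofPP, toPP, yp]
  exact congrFun (congrArg DFunLike.coe this) p

lemma toPP_ofPP (p : ℝ[X][X]) : toPP (ofPP p) = p := by
  have : toPP.comp ofPP = RingHom.id ℝ[X][X] := by
    apply Polynomial.ringHom_ext'
    · apply Polynomial.ringHom_ext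
      · intro a
        simp [ofPP, toPP, yp]
      · simp [ofPP, toPP, yp]
    · simp [ofPP, toPP]
  exact congrFun (congrArg DFunLike.coe this) p

lemma φ_eq (p : P) : D.φ p = (toPP p).map D.ι := by
  have : D.φ = (mapRingHom D.ι).comp toPP := by
    apply MvPolynomial.ringHom_ext
    · intro r
      simp [toPP]
    · intro i
      fin_cases i
      · simp [toPP]
      · simp [toPP]
  exact congrFun (congrArg DFunLike.coe this) p

lemma φ_injective : Function.Injective D.φ := by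
  intro p q h
  rw [φ_eq, φ_eq] at h
  have := map_injective _ D.ι_injective h
  rw [← ofPP_toPP p, this, ofPP_toPP]

lemma φ_ofPP (G : ℝ[X][X]) : D.φ (ofPP G) = G.map D.ι := by
  rw [φ_eq, toPP_ofPP]

include D in
lemma nontrivial : Nontrivial K := by
  by_contra h
  rw [not_nontrivial_iff_subsingleton] at h
  have := D.k2 1 0 D.O.zero_mem (Subsingleton.elim _ _)
  exact one_ne_zero this

/-- `M k` is monic of degree `k` in `x`, for `k ≤ n`. -/
def Fam (M : ℕ → P) (n : ℕ) : Prop :=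
  ∀ k ≤ n, (D.φ (M k)).Monic ∧ (D.φ (M k)).natDegree = k

/-- The span of `M 0, …, M n` with coefficients in `s O`. -/
def N (M : ℕ → P) (n : ℕ) : AddSubgroup K[X] where
  carrier := {q | ∃ c : ℕ → K, (∀ k, c k ∈ D.O) ∧
    q = ∑ k ∈ Finset.range (n + 1), C (D.s * c k) * D.φ (M k)}
  zero_mem' := ⟨fun _ => 0, fun _ => D.O.zero_mem, by simp⟩
  add_mem' := by
    rintro a b ⟨c, hc, rfl⟩ ⟨c', hc', rfl⟩
    refine ⟨fun k => c k + c' k, fun k => D.O.add_mem (hc k) (hc' k), ?_⟩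
    rw [← Finset.sum_add_distrib]
    refine Finset.sum_congr rfl fun k _ => ?_
    rw [mul_add, C_add, add_mul]
  neg_mem' := by
    rintro a ⟨c, hc, rfl⟩
    refine ⟨fun k => - c k, fun k => D.O.neg_mem (hc k), ?_⟩
    rw [← Finset.sum_neg_distrib]
    refine Finset.sum_congr rfl fun k _ => ?_
    rw [mul_neg, C_neg, neg_mul]

lemma single_mem_N (M : ℕ → P) {n k : ℕ} (hk : k ≤ n) {c : K} (hc : c ∈ D.O) :
    C (D.s * c) * D.φ (M k) ∈ D.N M n := by
  refine ⟨fun j => if j = k then c else 0, fun j => ?_, ?_⟩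
  · by_cases h : j = k
    · simpa [h] using hc
    · simp [h, D.O.zero_mem]
  · rw [Finset.sum_eq_single k]
    · simp
    · intro j _ hj
      simp [hj]
    · intro h
      exact absurd (Finset.mem_range.2 (by omega)) h

lemma smul_mem_N {M : ℕ → P} {n : ℕ} {c : K} (hc : c ∈ D.O) {q : K[X]} (hq : q ∈ D.N M n) :
    C c * q ∈ D.N M n := by
  obtain ⟨e, he, rfl⟩ := hq
  refine ⟨fun k => c * e k, fun k => D.O.mul_mem hc (he k), ?_⟩
  rw [Finset.mul_sum]
  refine Finset.sum_congr rfl fun k _ => ?_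
  rw [← mul_assoc, ← C_mul]
  congr 2
  ring

lemma N_mono {M : ℕ → P} {n m : ℕ} (h : n ≤ m) : D.N M n ≤ D.N M m := by
  rintro q ⟨c, hc, rfl⟩
  refine sum_mem fun k hk => ?_
  exact D.single_mem_N M (by have := Finset.mem_range.1 hk; omega) (hc k)

/-- uniqueness: no polynomial part in `N`. -/
lemma eq_zero_of_mem_N {M : ℕ → P} {n : ℕ} (hM : D.Fam M n) {p : P} (hp : D.φ p ∈ D.N M n) :
    p = 0 := by
  suffices h : ∀ n, D.Fam M n → ∀ p, D.φ p ∈ D.N M n → D.φ p = 0 by
    apply D.φ_injective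
    rw [h n hM p hp, map_zero]
  clear hM hp p n
  have := D.nontrivial
  have key : ∀ n, D.Fam M n → ∀ (p : P) (c : ℕ → K), (∀ k, c k ∈ D.O) →
      D.φ p = ∑ k ∈ Finset.range (n + 1), C (D.s * c k) * D.φ (M k) → D.s * c n = 0 := by
    intro n hM p c hc he
    have h1 : (D.φ p).coeff n = D.s * c n := by
      rw [he, finsetSum_coeff, Finset.sum_eq_single n]
      · rw [coeff_C_mul]
        have := hM n le_rfl
        have h2 : (D.φ (M n)).coeff n = 1 := by
          have := this.1.coeff_natDegree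
          rwa [(hM n le_rfl).2] at this
        rw [h2, mul_one]
      · intro k hk hkn
        have hk' : k < n := by
          have := Finset.mem_range.1 hk
          omega
        rw [coeff_C_mul, coeff_eq_zero_of_natDegree_lt (by rw [(hM k hk'.le).2]; exact hk'),
          mul_zero]
      · intro h
        exact absurd (Finset.mem_range.2 (by omega)) h
    obtain ⟨q, hq⟩ := D.φ_coeff p n
    have h3 := D.k2 q (c n) (hc n) (by rw [← hq, h1])
    rw [← h1, hq, h3, map_zero]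
  intro n
  induction n with
  | zero =>
    rintro hM p ⟨c, hc, he⟩
    have := key 0 hM p c hc he
    rw [he, Finset.sum_range_one, this, C_0, zero_mul]
  | succ n ih =>
    rintro hM p ⟨c, hc, he⟩
    have := key (n + 1) hM p c hc he
    refine ih (fun k hk => hM k (by omega)) p ⟨c, hc, ?_⟩
    rw [he, Finset.sum_range_succ, this]
    simp

/-- existence of the polynomial part. -/
lemma exists_plus {M : ℕ → P} {n : ℕ} (hM : D.Fam M n) {g : K[X]} (hg : g.natDegree ≤ n) :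
    ∃ p : P, g - D.φ p ∈ D.N M n := by
  have := D.nontrivial
  induction n generalizing g with
  | zero =>
    obtain ⟨p, o, ho, hc⟩ := D.k1 (g.coeff 0)
    refine ⟨yp p, ?_⟩
    have h1 : g = C (g.coeff 0) := eq_C_of_natDegree_le_zero hg
    have h2 : D.φ (M 0) = 1 := (hM 0 le_rfl).1.natDegree_eq_zero.1 (hM 0 le_rfl).2
    rw [φ_yp, h1]
    have : C (g.coeff 0) - C (D.ι p) = C (D.s * o) * D.φ (M 0) := by
      rw [h2, hc]
      simp
    rw [this]
    exact D.single_mem_N M le_rfl ho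
  | succ n ih =>
    obtain ⟨p, o, ho, hc⟩ := D.k1 (g.coeff (n + 1))
    set g' := g - C (g.coeff (n + 1)) * D.φ (M (n + 1)) with hg'
    have h1 : (D.φ (M (n + 1))).coeff (n + 1) = 1 := by
      have := (hM (n + 1) le_rfl).1.coeff_natDegree
      rwa [(hM (n + 1) le_rfl).2] at this
    have h2 : g'.natDegree ≤ n := by
      rw [natDegree_le_iff_coeff_eq_zero]
      intro m hm
      rw [hg', coeff_sub, coeff_C_mul]
      rcases (Nat.succ_le_of_lt hm).eq_or_lt with h | h
      · rw [← h, Nat.succ_eq_add_one, h1, mul_one, sub_self]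
      · have e1 : g.coeff m = 0 := coeff_eq_zero_of_natDegree_lt (lt_of_le_of_lt hg h)
        have e2 : (D.φ (M (n + 1))).coeff m = 0 :=
          coeff_eq_zero_of_natDegree_lt (by rw [(hM (n + 1) le_rfl).2]; exact h)
        rw [e1, e2, mul_zero, sub_zero]
    obtain ⟨p', hp'⟩ := ih (fun k hk => hM k (by omega)) h2
    refine ⟨p' + yp p * M (n + 1), ?_⟩
    have : g - D.φ (p' + yp p * M (n + 1)) = (g' - D.φ p') + C (D.s * o) * D.φ (M (n + 1)) := by
      rw [hg', map_add, map_mul, φ_yp, hc, C_add]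
      ring
    rw [this]
    exact add_mem (D.N_mono (Nat.le_succ n) hp') (D.single_mem_N M le_rfl ho)

/-- multiplication by `y` brings `N` into the `O`-span. -/
lemma y_mul_mem {M : ℕ → P} {n : ℕ} (Λ : AddSubgroup K[X])
    (hΛ : ∀ c ∈ D.O, ∀ k ≤ n, C c * D.φ (M k) ∈ Λ) {q : K[X]} (hq : q ∈ D.N M n) :
    C (D.ι X) * q ∈ Λ := by
  obtain ⟨c, hc, rfl⟩ := hq
  rw [Finset.mul_sum]
  refine sum_mem fun k hk => ?_
  rw [← mul_assoc, ← C_mul]
  have : D.ι X * (D.s * c k) = c k := by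
    rw [← mul_assoc, mul_comm (D.ι X), D.hs, one_mul]
  rw [this]
  exact hΛ _ (hc k) k (by have := Finset.mem_range.1 hk; omega)


/-- The data of a stage of the descent. -/
structure Stage (d : ℕ) (A B : K[X]) (Λ : AddSubgroup K[X]) : Prop where
  smul : ∀ c ∈ D.O, ∀ g ∈ Λ, C c * g ∈ Λ
  deg : ∀ g ∈ Λ, g.natDegree ≤ d
  top : ∀ g ∈ Λ, g.coeff d ∈ D.O
  hA : A ∈ Λ
  hB : B ∈ Λ
  der : ∀ i, ∀ p : P, D.φ p ∈ Λ → D.φ (MvPolynomial.pderiv i p) ∈ Λ
  xi : ∀ g ∈ Λ, g.coeff d = 0 → C D.s * X * g ∈ Λ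
  mon : ∃ p : P, D.φ p ∈ Λ ∧ (D.φ p).Monic ∧ (D.φ p).natDegree = d

/-- The polynomials in `Λ`. -/
def Wsub (Λ : AddSubgroup K[X]) (hΛ : ∀ c ∈ D.O, ∀ g ∈ Λ, C c * g ∈ Λ) : Submodule ℝ P where
  carrier := {p | D.φ p ∈ Λ}
  zero_mem' := by simp [Λ.zero_mem]
  add_mem' := fun ha hb => by
    simp only [Set.mem_ofPred_eq, map_add] at *
    exact Λ.add_mem ha hb
  smul_mem' := fun r p hp => by
    simp only [Set.mem_ofPred_eq, φ_smul] at *
    exact hΛ _ (D.hC r) _ hp

/-- The family `H 0, …, H d`. -/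
lemma exists_fam (W : Submodule ℝ P) (hW : ∀ i, ∀ p ∈ W, MvPolynomial.pderiv i p ∈ W) (d : ℕ)
    (G : P) (hG : G ∈ W) (h1 : (D.φ G).Monic) (h2 : (D.φ G).natDegree = d) :
    ∃ H : ℕ → P, D.Fam H d ∧ (∀ j ≤ d, H j ∈ W) ∧ H d = G ∧
      ∀ j < d, ∃ g ∈ W, H j = MvPolynomial.pderiv 0 g := by
  have := D.nontrivial
  induction d generalizing G with
  | zero =>
    refine ⟨fun _ => G, ?_, fun _ _ => hG, rfl, fun j hj => absurd hj (by omega)⟩
    intro k hk
    have : k = 0 := by omega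
    subst this
    exact ⟨h1, h2⟩
  | succ d ih =>
    set r : ℝ := ((d : ℝ) + 1)⁻¹ with hr
    have hd0 : (d : ℝ) + 1 ≠ 0 := by positivity
    set G' : P := MvPolynomial.pderiv 0 (r • G) with hG'
    have hG'φ : D.φ G' = C (D.ι (C r)) * derivative (D.φ G) := by
      rw [hG', Derivation.map_smul, φ_smul, φ_pderiv]
    have hco : (D.φ G').coeff d = 1 := by
      rw [hG'φ, coeff_C_mul, coeff_derivative]
      have : (D.φ G).coeff (d + 1) = 1 := by
        have := h1.coeff_natDegree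
        rwa [h2] at this
      rw [this, one_mul]
      have : ((d : K) + 1) = D.ι (C ((d : ℝ) + 1)) := by simp
      rw [this, ← map_mul, ← C_mul, hr, inv_mul_cancel₀ hd0]
      simp
    have hnd : (D.φ G').natDegree ≤ d := by
      rw [hG'φ]
      refine (natDegree_C_mul_le _ _).trans ?_
      refine (natDegree_derivative_le _).trans ?_
      rw [h2]
      omega
    have hm : (D.φ G').Monic := monic_of_natDegree_le_of_coeff_eq_one d hnd hco
    have hnd' : (D.φ G').natDegree = d := by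
      refine le_antisymm hnd ?_
      refine le_natDegree_of_ne_zero ?_
      rw [hco]
      exact one_ne_zero
    obtain ⟨H, hH1, hH2, hH3, hH4⟩ := ih G' (hW 0 _ (W.smul_mem _ hG)) hm hnd'
    refine ⟨fun j => if j = d + 1 then G else H j, ?_, ?_, by simp, ?_⟩
    · intro k hk
      by_cases h : k = d + 1
      · simp only [h, if_true]
        exact ⟨h1, h2⟩
      · simp only [h, if_false]
        exact hH1 k (by omega)
    · intro j hj
      by_cases h : j = d + 1
      · simp only [h, if_true]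
        exact hG
      · simp only [h, if_false]
        exact hH2 j (by omega)
    · intro j hj
      have h : j ≠ d + 1 := by omega
      simp only [h, if_false]
      by_cases h' : j = d
      · subst h'
        exact ⟨r • G, W.smul_mem _ hG, hH3⟩
      · exact hH4 j (by omega)

end LocData

/-- The properties of the separating functional. -/
structure Fun (W : Submodule ℝ P) (L : P →ₗ[ℝ] ℝ) : Prop where
  pos : ∀ g ∈ W, 0 ≤ L (g * g)
  inv : ∀ i, ∀ g ∈ W, ∀ h ∈ W, L (MvPolynomial.pderiv i g * h) = 0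

lemma cs_of_pos {W : Submodule ℝ P} {L : P →ₗ[ℝ] ℝ} (hL : ∀ g ∈ W, 0 ≤ L (g * g)) {g h : P}
    (hg : g ∈ W) (hh : h ∈ W) (h0 : L (g * g) = 0) : L (g * h) = 0 := by
  by_contra hne
  set t : ℝ := - (L (h * h) + 1) / (2 * L (g * h)) with ht
  have h1 := hL (t • g + h) (W.add_mem (W.smul_mem _ hg) hh)
  have h2 : (t • g + h) * (t • g + h) = (t * t) • (g * g) + (2 * t) • (g * h) + h * h := by
    simp only [MvPolynomial.smul_eq_C_mul, map_mul]
    have : (MvPolynomial.C (2 : ℝ) : P) = 2 := map_ofNat MvPolynomial.C 2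
    rw [this]
    ring
  rw [h2, map_add, map_add, map_smul, map_smul, h0, smul_eq_mul, smul_eq_mul, mul_zero,
    zero_add] at h1
  have h3 : 2 * t * L (g * h) = - (L (h * h) + 1) := by
    rw [ht]
    field_simp
  rw [h3] at h1
  linarith

lemma Fun.cs {W : Submodule ℝ P} {L : P →ₗ[ℝ] ℝ} (hL : Fun W L) {g h : P} (hg : g ∈ W)
    (hh : h ∈ W) (h0 : L (g * g) = 0) : L (g * h) = 0 := cs_of_pos hL.pos hg hh h0

lemma Fun.y {W : Submodule ℝ P} {L : P →ₗ[ℝ] ℝ} (hL : Fun W L) {g : P} (hg : g ∈ W)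
    (hyg : MvPolynomial.X 1 * g ∈ W) : ∀ h ∈ W, L (g * h) = 0 := by
  intro h hh
  refine hL.cs hg hh ?_
  have h1 := hL.inv 1 _ hyg _ hg
  have h2 := hL.inv 1 _ hg _ hyg
  rw [Derivation.leibniz] at h1
  simp only [smul_eq_mul, MvPolynomial.pderiv_X_self, mul_one] at h1
  have h3 : (MvPolynomial.X 1 * MvPolynomial.pderiv 1 g + g) * g =
      MvPolynomial.pderiv 1 g * (MvPolynomial.X 1 * g) + g * g := by ring
  rw [h3, map_add, h2, zero_add] at h1
  exact h1

namespace LocData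

variable {d : ℕ} {A B : K[X]} {Λ : AddSubgroup K[X]}

/-- products `H ⌈k/2⌉ H ⌊k/2⌋`. -/
noncomputable def Pi (H : ℕ → P) (k : ℕ) : P := H ((k + 1) / 2) * H (k / 2)

lemma fam_Pi {H : ℕ → P} (hH : D.Fam H d) : D.Fam (Pi H) (2 * d) := by
  intro k hk
  have h1 := hH ((k + 1) / 2) (by omega)
  have h2 := hH (k / 2) (by omega)
  refine ⟨?_, ?_⟩
  · rw [Pi, map_mul]
    exact h1.1.mul h2.1
  · rw [Pi, map_mul, h1.1.natDegree_mul h2.1, h1.2, h2.2]
    omega

/-- Elements which are a null element of `W * W` plus an `s O`-combination of the `Pi H k`. -/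
def Q (W : Submodule ℝ P) (L : P →ₗ[ℝ] ℝ) (H : ℕ → P) (d : ℕ) : AddSubgroup K[X] where
  carrier := {g | ∃ F ∈ W * W, L F = 0 ∧ g - D.φ F ∈ D.N (Pi H) (2 * d)}
  zero_mem' := ⟨0, zero_mem _, map_zero _, by simp [zero_mem]⟩
  add_mem' := by
    rintro a b ⟨F, hF, hF0, hF1⟩ ⟨G, hG, hG0, hG1⟩
    refine ⟨F + G, add_mem hF hG, by rw [map_add, hF0, hG0, add_zero], ?_⟩
    have := add_mem hF1 hG1
    rw [map_add]
    convert this using 1
    ring
  neg_mem' := by
    rintro a ⟨F, hF, hF0, hF1⟩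
    refine ⟨-F, neg_mem hF, by rw [map_neg, hF0, neg_zero], ?_⟩
    have := neg_mem hF1
    rw [map_neg]
    convert this using 1
    ring

lemma mem_Wsub {hΛ : ∀ c ∈ D.O, ∀ g ∈ Λ, C c * g ∈ Λ} {p : P} :
    p ∈ D.Wsub Λ hΛ ↔ D.φ p ∈ Λ := Iff.rfl

lemma N_le {H : ℕ → P} {n : ℕ} (hΛ : ∀ c ∈ D.O, ∀ g ∈ Λ, C c * g ∈ Λ)
    (hHW : ∀ j ≤ n, D.φ (H j) ∈ Λ) : D.N H n ≤ Λ := by
  rintro q ⟨c, hc, rfl⟩
  refine sum_mem fun k hk => ?_
  have hk' := Finset.mem_range.1 hk
  exact hΛ _ (D.O.mul_mem D.hsO (hc k)) _ (hHW k (by omega))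

section claim

variable (S : D.Stage d A B Λ) {L : P →ₗ[ℝ] ℝ} (hL : Fun (D.Wsub Λ S.smul) L)
  {H : ℕ → P} (hH : D.Fam H d) (hHW : ∀ j ≤ d, D.φ (H j) ∈ Λ)
  (hHd : ∀ j < d, ∃ g ∈ D.Wsub Λ S.smul, H j = MvPolynomial.pderiv 0 g)

include S hL hH hHW hHd

lemma lemmaR {i k : ℕ} (hi : i < d) (hk : k ≤ d) {g : K[X]} (hg : g ∈ Λ)
    (hgk : g.natDegree ≤ k)
    (h : ∀ l ≤ k, ∀ c ∈ D.O, C (D.s * c) * (D.φ (H i) * D.φ (H l)) ∈
      D.Q (D.Wsub Λ S.smul) L H d) :
    D.φ (H i) * g ∈ D.Q (D.Wsub Λ S.smul) L H d := by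
  obtain ⟨p, hp⟩ := D.exists_plus (fun j hj => hH j (hj.trans hk)) hgk
  have hpΛ : D.φ p ∈ Λ := by
    have h1 := D.N_le S.smul (fun j hj => hHW j (hj.trans hk)) hp
    have := Λ.sub_mem hg h1
    simpa using this
  have e : D.φ (H i) * g = D.φ (H i * p) + D.φ (H i) * (g - D.φ p) := by
    rw [map_mul]
    ring
  rw [e]
  refine add_mem ?_ ?_
  · refine ⟨H i * p, Submodule.mul_mem_mul (hHW i hi.le) hpΛ, ?_, by simp [zero_mem]⟩
    obtain ⟨g', hg', he⟩ := hHd i hi
    rw [he]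
    exact hL.inv 0 g' hg' p hpΛ
  · obtain ⟨c, hc, he⟩ := hp
    rw [he, Finset.mul_sum]
    refine sum_mem fun l hl => ?_
    have := h l (by have := Finset.mem_range.1 hl; omega) (c l) (hc l)
    convert this using 1
    ring

omit hL hHd in
lemma Dj_mem {j : ℕ} (hj : j < d) {c : K} (hc : c ∈ D.O) :
    C (D.s * c) * D.φ (MvPolynomial.X 0 * H j - H (j + 1)) ∈ Λ ∧
      (C (D.s * c) * D.φ (MvPolynomial.X 0 * H j - H (j + 1))).natDegree ≤ j := by
  have := D.nontrivial
  constructor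
  · have h1 : C (D.s * c) * D.φ (MvPolynomial.X 0 * H j - H (j + 1)) =
        C c * (C D.s * X * D.φ (H j)) - C (D.s * c) * D.φ (H (j + 1)) := by
      rw [map_sub, map_mul D.φ, φ_X0, C_mul]
      ring
    rw [h1]
    refine Λ.sub_mem (S.smul _ hc _ (S.xi _ (hHW j hj.le) ?_))
      (S.smul _ (D.O.mul_mem D.hsO hc) _ (hHW _ hj))
    exact coeff_eq_zero_of_natDegree_lt (by rw [(hH j hj.le).2]; exact hj)
  · refine (natDegree_C_mul_le _ _).trans ?_
    rw [map_sub, map_mul D.φ, φ_X0]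
    have a1 : (X * D.φ (H j)).Monic := monic_X.mul (hH j hj.le).1
    have a2 : (X * D.φ (H j)).natDegree = j + 1 := by
      rw [monic_X.natDegree_mul (hH j hj.le).1, (hH j hj.le).2, natDegree_X]
      omega
    have a3 := hH (j + 1) hj
    rw [natDegree_le_iff_coeff_eq_zero]
    intro m hm
    rw [coeff_sub]
    rcases (Nat.succ_le_of_lt hm).eq_or_lt with h | h
    · have b1 := a1.coeff_natDegree
      have b2 := a3.1.coeff_natDegree
      rw [a2] at b1
      rw [a3.2] at b2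
      rw [← h, Nat.succ_eq_add_one, b1, b2, sub_self]
    · rw [coeff_eq_zero_of_natDegree_lt (by rw [a2]; exact h),
        coeff_eq_zero_of_natDegree_lt (by rw [a3.2]; exact h), sub_zero]

lemma claim (n : ℕ) : ∀ i j, i ≤ d → j ≤ d → i + j = n → ∀ c ∈ D.O,
    C (D.s * c) * (D.φ (H i) * D.φ (H j)) ∈ D.Q (D.Wsub Λ S.smul) L H d := by
  induction n using Nat.strong_induction_on with
  | _ n ihn =>
    -- the case `i ≤ j`
    have main : ∀ m i j, i ≤ j → j ≤ d → i + j = n → j - i = m → ∀ c ∈ D.O,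
        C (D.s * c) * (D.φ (H i) * D.φ (H j)) ∈ D.Q (D.Wsub Λ S.smul) L H d := by
      intro m
      induction m using Nat.strong_induction_on with
      | _ m ihm =>
        intro i j hij hj hn hm c hc
        by_cases hm1 : m ≤ 1
        · refine ⟨0, zero_mem _, map_zero _, ?_⟩
          have hi' : n / 2 = i := by omega
          have hj' : (n + 1) / 2 = j := by omega
          have : C (D.s * c) * (D.φ (H i) * D.φ (H j)) - D.φ 0 = C (D.s * c) * D.φ (Pi H n) := by
            rw [Pi, hi', hj', map_mul D.φ, map_zero, sub_zero]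
            ring
          rw [this]
          exact D.single_mem_N _ (by omega) hc
        · have hm2 : 2 ≤ m := by omega
          obtain ⟨j', rfl⟩ : ∃ j', j = j' + 1 := ⟨j - 1, by omega⟩
          have e : C (D.s * c) * (D.φ (H i) * D.φ (H (j' + 1))) =
              C (D.s * c) * (D.φ (H (i + 1)) * D.φ (H j')) +
              D.φ (H j') * (C (D.s * c) * D.φ (MvPolynomial.X 0 * H i - H (i + 1))) -
              D.φ (H i) * (C (D.s * c) * D.φ (MvPolynomial.X 0 * H j' - H (j' + 1))) := by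
            simp only [map_sub, map_mul, φ_X0]
            ring
          rw [e]
          have d1 := D.Dj_mem S hH hHW (show i < d by omega) hc
          have d2 := D.Dj_mem S hH hHW (show j' < d by omega) hc
          refine sub_mem (add_mem ?_ ?_) ?_
          · exact ihm (j' - (i + 1)) (by omega) (i + 1) j' (by omega) (by omega) (by omega) rfl c hc
          · refine D.lemmaR S hL hH hHW hHd (show j' < d by omega) (show i ≤ d by omega) d1.1 d1.2 ?_
            intro l hl c' hc'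
            exact ihn (j' + l) (by omega) j' l (by omega) (by omega) rfl c' hc'
          · refine D.lemmaR S hL hH hHW hHd (show i < d by omega) (show j' ≤ d by omega) d2.1 d2.2 ?_
            intro l hl c' hc'
            exact ihn (i + l) (by omega) i l (by omega) (by omega) rfl c' hc'
    intro i j hi hj hn c hc
    rcases le_total i j with h | h
    · exact main _ i j h hj hn rfl c hc
    · have := main _ j i h hi (by omega) rfl c hc
      rwa [mul_comm (D.φ (H j))] at this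

omit hHd in
/-- multiples by `s O` of elements of `W` have null polynomial part -/
lemma lemmaU {p : P} (hp : D.φ p ∈ Λ) {c : K} (hc : c ∈ D.O) :
    ∃ u : P, D.φ u ∈ Λ ∧ C (D.s * c) * D.φ p - D.φ u ∈ D.N H d ∧
      ∀ h ∈ D.Wsub Λ S.smul, L (u * h) = 0 := by
  have h1 : C (D.s * c) * D.φ p ∈ Λ := S.smul _ (D.O.mul_mem D.hsO hc) _ hp
  obtain ⟨u, hu⟩ := D.exists_plus hH (S.deg _ h1)
  have huΛ : D.φ u ∈ Λ := by
    have h2 := D.N_le S.smul hHW hu
    have := Λ.sub_mem h1 h2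
    simpa using this
  refine ⟨u, huΛ, hu, ?_⟩
  refine hL.y huΛ ?_
  rw [mem_Wsub, map_mul, φ_X1]
  have h3 : C (D.ι X) * (C (D.s * c) * D.φ p - D.φ u) ∈ Λ :=
    D.y_mul_mem Λ (fun c hc k hk => S.smul c hc _ (hHW k hk)) hu
  have h4 : C (D.ι X) * D.φ u = C c * D.φ p - C (D.ι X) * (C (D.s * c) * D.φ p - D.φ u) := by
    have : C (D.ι X) * (C (D.s * c) * D.φ p) = C c * D.φ p := by
      rw [← mul_assoc, ← C_mul, ← mul_assoc, mul_comm (D.ι X), D.hs, one_mul]
    rw [mul_sub, this]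
    ring
  rw [h4]
  exact Λ.sub_mem (S.smul _ hc _ hp) h3

/-- The key fact: products of elements of `Λ` and of their polynomial parts. -/
lemma prod_mem {g h : K[X]} (hg : g ∈ Λ) (hh : h ∈ Λ) {p q : P} (hp : g - D.φ p ∈ D.N H d)
    (hq : h - D.φ q ∈ D.N H d) :
    g * h - D.φ (p * q) ∈ D.Q (D.Wsub Λ S.smul) L H d := by
  have hpΛ : D.φ p ∈ Λ := by
    have h2 := D.N_le S.smul hHW hp
    have := Λ.sub_mem hg h2
    simpa using this
  have hqΛ : D.φ q ∈ Λ := by
    have h2 := D.N_le S.smul hHW hq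
    have := Λ.sub_mem hh h2
    simpa using this
  -- products with elements of `N`
  have NH : ∀ r ∈ D.N H d, ∀ j ≤ d, r * D.φ (H j) ∈ D.Q (D.Wsub Λ S.smul) L H d := by
    rintro r ⟨c, hc, rfl⟩ j hj
    rw [Finset.sum_mul]
    refine sum_mem fun l hl => ?_
    have := D.claim S hL hH hHW hHd (l + j) l j (by have := Finset.mem_range.1 hl; omega) hj rfl
      (c l) (hc l)
    convert this using 1
    ring
  have NN : ∀ r ∈ D.N H d, ∀ r' ∈ D.N H d, r * r' ∈ D.Q (D.Wsub Λ S.smul) L H d := by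
    rintro r hr r' ⟨c, hc, rfl⟩
    rw [Finset.mul_sum]
    refine sum_mem fun l hl => ?_
    have := NH _ (D.smul_mem_N (D.O.mul_mem D.hsO (hc l)) hr) l
      (by have := Finset.mem_range.1 hl; omega)
    convert this using 1
    ring
  have WN : ∀ p : P, D.φ p ∈ Λ → ∀ r ∈ D.N H d, D.φ p * r ∈ D.Q (D.Wsub Λ S.smul) L H d := by
    rintro p hp r ⟨c, hc, rfl⟩
    rw [Finset.mul_sum]
    refine sum_mem fun l hl => ?_
    have hl' : l ≤ d := by
      have := Finset.mem_range.1 hl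
      omega
    obtain ⟨u, hu1, hu2, hu3⟩ := D.lemmaU S hL hH hHW hp (hc l)
    have e : D.φ p * (C (D.s * c l) * D.φ (H l)) =
        D.φ (u * H l) + (C (D.s * c l) * D.φ p - D.φ u) * D.φ (H l) := by
      rw [map_mul D.φ]
      ring
    rw [e]
    refine add_mem ?_ (NH _ hu2 l hl')
    exact ⟨u * H l, Submodule.mul_mem_mul hu1 (hHW l hl'), hu3 _ (hHW l hl'), by simp [zero_mem]⟩
  have e : g * h - D.φ (p * q) = (g - D.φ p) * (h - D.φ q) + D.φ p * (h - D.φ q) +
      D.φ q * (g - D.φ p) := by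
    rw [map_mul]
    ring
  rw [e]
  exact add_mem (add_mem (NN _ hp _ hq) (WN _ hpΛ _ hq)) (WN _ hqΛ _ hp)

omit hL hHW hHd in
lemma of_mem_Q {F : P} (hF : D.φ F ∈ D.Q (D.Wsub Λ S.smul) L H d) :
    F ∈ D.Wsub Λ S.smul * D.Wsub Λ S.smul ∧ L F = 0 := by
  obtain ⟨G, hG, hG0, hG1⟩ := hF
  rw [← map_sub] at hG1
  have := D.eq_zero_of_mem_N (D.fam_Pi hH) hG1
  rw [sub_eq_zero] at this
  rw [this]
  exact ⟨hG, hG0⟩

omit hL hHd in
/-- The polynomial part of `g ∈ Λ`. -/
lemma exists_plus' {g : K[X]} (hg : g ∈ Λ) :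
    ∃ p : P, D.φ p ∈ Λ ∧ g - D.φ p ∈ D.N H d := by
  obtain ⟨p, hp⟩ := D.exists_plus hH (S.deg _ hg)
  refine ⟨p, ?_, hp⟩
  have h2 := D.N_le S.smul hHW hp
  have := Λ.sub_mem hg h2
  simpa using this

/-- `f = A² + B²` gives `f ∈ W * W` and `L f = L (p²) + L (q²)`. -/
lemma sum_sq {f : P} (hf : D.φ f = A ^ 2 + B ^ 2) {p q : P} (hp : A - D.φ p ∈ D.N H d)
    (hq : B - D.φ q ∈ D.N H d) :
    f - (p * p + q * q) ∈ D.Wsub Λ S.smul * D.Wsub Λ S.smul ∧
      L (f - (p * p + q * q)) = 0 := by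
  apply D.of_mem_Q S hH
  have h1 := D.prod_mem S hL hH hHW hHd S.hA S.hA hp hp
  have h2 := D.prod_mem S hL hH hHW hHd S.hB S.hB hq hq
  have := add_mem h1 h2
  rw [map_sub, map_add, hf]
  convert this using 1
  ring

/-- The next lattice. -/
def next : AddSubgroup K[X] where
  carrier := {g | g ∈ Λ ∧ ∃ p : P, D.φ p ∈ Λ ∧ L (p * p) = 0 ∧ g - D.φ p ∈ D.N H d}
  zero_mem' := ⟨Λ.zero_mem, 0, by simp [Λ.zero_mem], by simp, by simp [zero_mem]⟩
  add_mem' := by
    rintro a b ⟨ha, p, hp, hp0, hp1⟩ ⟨hb, q, hq, hq0, hq1⟩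
    refine ⟨Λ.add_mem ha hb, p + q, by rw [map_add]; exact Λ.add_mem hp hq, ?_, ?_⟩
    · have h1 : L (p * q) = 0 := hL.cs hp hq hp0
      have : (p + q) * (p + q) = p * p + (2 : ℝ) • (p * q) + q * q := by
        rw [MvPolynomial.smul_eq_C_mul, map_ofNat MvPolynomial.C 2]
        ring
      rw [this, map_add, map_add, map_smul, hp0, hq0, h1]
      simp
    · have := add_mem hp1 hq1
      rw [map_add]
      convert this using 1
      ring
  neg_mem' := by
    rintro a ⟨ha, p, hp, hp0, hp1⟩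
    refine ⟨Λ.neg_mem ha, -p, by rw [map_neg]; exact Λ.neg_mem hp, by simpa using hp0, ?_⟩
    have := neg_mem hp1
    rw [map_neg]
    convert this using 1
    ring

omit hHW hHd in
lemma mem_next {p : P} :
    D.φ p ∈ D.next (H := H) S hL ↔ D.φ p ∈ Λ ∧ L (p * p) = 0 := by
  constructor
  · rintro ⟨h, q, hq, hq0, hq1⟩
    rw [← map_sub] at hq1
    have := D.eq_zero_of_mem_N hH hq1
    rw [sub_eq_zero] at this
    rw [this]
    exact ⟨hq, hq0⟩
  · rintro ⟨h, h0⟩
    exact ⟨h, p, h, h0, by simp [zero_mem]⟩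

omit hHd in
lemma next_smul {c : K} (hc : c ∈ D.O) {g : K[X]} (hg : g ∈ D.next (H := H) S hL) :
    C c * g ∈ D.next (H := H) S hL := by
  obtain ⟨hgΛ, p, hp, hp0, hp1⟩ := hg
  obtain ⟨r, o, ho, hco⟩ := D.k3 c hc
  obtain ⟨u, hu1, hu2, hu3⟩ := D.lemmaU S hL hH hHW hp ho
  refine ⟨S.smul _ hc _ hgΛ, r • p + u, ?_, ?_, ?_⟩
  · rw [map_add, φ_smul]
    exact Λ.add_mem (S.smul _ (D.hC r) _ hp) hu1
  · have hx : r • p + u ∈ D.Wsub Λ S.smul :=
      (D.Wsub Λ S.smul).add_mem ((D.Wsub Λ S.smul).smul_mem _ hp) hu1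
    have : (r • p + u) * (r • p + u) = r • (p * (r • p + u)) + u * (r • p + u) := by
      rw [add_mul, smul_mul_assoc]
    rw [this, map_add, map_smul, hL.cs hp hx hp0, hu3 _ hx]
    simp
  · have : C c * g - D.φ (r • p + u) = C c * (g - D.φ p) + (C (D.s * o) * D.φ p - D.φ u) := by
      rw [map_add, φ_smul, hco, C_add]
      ring
    rw [this]
    exact add_mem (D.smul_mem_N hc hp1) hu2

lemma next_stage (hAm : A.Monic) (hAd : A.natDegree = d) {p q : P}
    (hpA : A - D.φ p ∈ D.N H d) (hqB : B - D.φ q ∈ D.N H d) (hp0 : L (p * p) = 0)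
    (hq0 : L (q * q) = 0) :
    D.Stage d A B (D.next (H := H) S hL) := by
  have := D.nontrivial
  have hpΛ : D.φ p ∈ Λ := by
    have h2 := D.N_le S.smul hHW hpA
    have := Λ.sub_mem S.hA h2
    simpa using this
  have hqΛ : D.φ q ∈ Λ := by
    have h2 := D.N_le S.smul hHW hqB
    have := Λ.sub_mem S.hB h2
    simpa using this
  have hAn : A ∈ D.next (H := H) S hL := ⟨S.hA, p, hpΛ, hp0, hpA⟩
  refine ⟨fun c hc g hg => D.next_smul S hL hH hHW hc hg, fun g hg => S.deg g hg.1,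
    fun g hg => S.top g hg.1, hAn, ⟨S.hB, q, hqΛ, hq0, hqB⟩, ?_, ?_, ?_⟩
  · intro i r hr
    rw [D.mem_next S hL hH] at hr ⊢
    exact ⟨S.der i r hr.1, hL.inv i r hr.1 _ (S.der i r hr.1)⟩
  · intro g hg hgd
    set v : K[X] := C D.s * X * g with hv
    have hvΛ : v ∈ Λ := S.xi g hg.1 hgd
    set c := v.coeff d with hc
    have hcO : c ∈ D.O := S.top v hvΛ
    have hcA := D.next_smul S hL hH hHW hcO hAn
    set u : K[X] := v - C c * A with hu
    have huΛ : u ∈ Λ := Λ.sub_mem hvΛ hcA.1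
    have hud : u.coeff d = 0 := by
      have h1 : A.coeff d = 1 := by
        have := hAm.coeff_natDegree
        rwa [hAd] at this
      rw [hu, coeff_sub, coeff_C_mul, h1, mul_one, ← hc, sub_self]
    have hwΛ : C D.s * X * u ∈ Λ := S.xi u huΛ hud
    obtain ⟨hgΛ, pg, hpg, hpg0, hpg1⟩ := hg
    obtain ⟨hcAΛ, pa, hpa, hpa0, hpa1⟩ := hcA
    obtain ⟨pu, hpu, hpu1⟩ := D.exists_plus' S hH hHW huΛ
    obtain ⟨pw, hpw, hpw1⟩ := D.exists_plus' S hH hHW hwΛ
    have hpv1 : v - D.φ (pu + pa) ∈ D.N H d := by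
      have := add_mem hpu1 hpa1
      rw [map_add]
      convert this using 1
      rw [hu]
      ring
    have h1 := D.prod_mem S hL hH hHW hHd huΛ hvΛ hpu1 hpv1
    have h2 := D.prod_mem S hL hH hHW hHd hwΛ hgΛ hpw1 hpg1
    have h3 := sub_mem h2 h1
    have h4 : C D.s * X * u * g - D.φ (pw * pg) - (u * v - D.φ (pu * (pu + pa))) =
        D.φ (pu * (pu + pa) - pw * pg) := by
      rw [map_sub, hv]
      ring
    rw [h4] at h3
    have h5 := (D.of_mem_Q S hH h3).2
    have h6 : L (pw * pg) = 0 := by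
      rw [mul_comm]
      exact hL.cs hpg hpw hpg0
    have h7 : L (pu * pa) = 0 := by
      rw [mul_comm]
      exact hL.cs hpa hpu hpa0
    rw [map_sub, h6, mul_add, map_add, h7] at h5
    have h8 : L (pu * pu) = 0 := by linarith
    have hun : u ∈ D.next (H := H) S hL := ⟨huΛ, pu, hpu, h8, hpu1⟩
    have : v = u + C c * A := by rw [hu]; ring
    rw [this]
    exact add_mem hun ⟨hcAΛ, pa, hpa, hpa0, hpa1⟩
  · refine ⟨p, ⟨hpΛ, p, hpΛ, hp0, by simp [zero_mem]⟩, ?_⟩
    have hnd : (D.φ p).natDegree ≤ d := S.deg _ hpΛ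
    have hco : (D.φ p).coeff d = 1 := by
      obtain ⟨e, he, hpe⟩ := hpA
      obtain ⟨r, hr⟩ := D.φ_coeff p d
      have h1 : A.coeff d = 1 := by
        have := hAm.coeff_natDegree
        rwa [hAd] at this
      have h2 : (A - D.φ p).coeff d = D.s * e d := by
        rw [hpe, finsetSum_coeff, Finset.sum_eq_single d]
        · rw [coeff_C_mul]
          have h2 : (D.φ (H d)).coeff d = 1 := by
            have := (hH d le_rfl).1.coeff_natDegree
            rwa [(hH d le_rfl).2] at this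
          rw [h2, mul_one]
        · intro k hk hkn
          have hk' : k < d := by
            have := Finset.mem_range.1 hk
            omega
          rw [coeff_C_mul, coeff_eq_zero_of_natDegree_lt (by rw [(hH k hk'.le).2]; exact hk'),
            mul_zero]
        · intro h
          exact absurd (Finset.mem_range.2 (by omega)) h
      rw [coeff_sub, h1, hr] at h2
      have h3 := D.k2 (1 - r) (e d) (he d) (by rw [map_sub, map_one, h2])
      rw [sub_eq_zero] at h3
      rw [hr, ← h3, map_one]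
    refine ⟨monic_of_natDegree_le_of_coeff_eq_one d hnd hco, le_antisymm hnd ?_⟩
    refine le_natDegree_of_ne_zero ?_
    rw [hco]
    exact one_ne_zero

end claim

/-- The descent. `SOS` is the property to be proved. -/
theorem descent {f : P} {prop : Prop} (hAm : A.Monic) (hAd : A.natDegree = d)
    (hf : D.φ f = A ^ 2 + B ^ 2)
    (hsep : ∀ W : Submodule ℝ P, FiniteDimensional ℝ W →
      (∀ i, ∀ p ∈ W, MvPolynomial.pderiv i p ∈ W) → f ∈ W * W →
      prop ∨ ∃ L : P →ₗ[ℝ] ℝ, Fun W L ∧ L f ≤ 0 ∧ ∃ g ∈ W, L (g * g) ≠ 0) :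
    ∀ n (Λ : AddSubgroup K[X]) (S : D.Stage d A B Λ),
      FiniteDimensional ℝ (D.Wsub Λ S.smul) → Module.finrank ℝ (D.Wsub Λ S.smul) = n → prop := by
  intro n
  induction n using Nat.strong_induction_on with
  | _ n ih =>
    intro Λ S hfin hn
    obtain ⟨G, hG, hGm, hGd⟩ := S.mon
    have hW : ∀ i, ∀ p ∈ D.Wsub Λ S.smul, MvPolynomial.pderiv i p ∈ D.Wsub Λ S.smul :=
      fun i p hp => S.der i p hp
    obtain ⟨H, hH, hHW, -, hHd⟩ := D.exists_fam (D.Wsub Λ S.smul) hW d G hG hGm hGd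
    obtain ⟨p, hp, hp1⟩ := D.exists_plus' S hH hHW S.hA
    obtain ⟨q, hq, hq1⟩ := D.exists_plus' S hH hHW S.hB
    have h0 : Fun (D.Wsub Λ S.smul) (0 : P →ₗ[ℝ] ℝ) :=
      ⟨fun _ _ => le_rfl, fun _ _ _ _ _ => rfl⟩
    have hfW : f ∈ D.Wsub Λ S.smul * D.Wsub Λ S.smul := by
      have h1 := (D.sum_sq S h0 hH hHW hHd hf hp1 hq1).1
      have h2 : p * p + q * q ∈ D.Wsub Λ S.smul * D.Wsub Λ S.smul :=
        add_mem (Submodule.mul_mem_mul hp hp) (Submodule.mul_mem_mul hq hq)
      have := add_mem h1 h2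
      simpa using this
    rcases hsep _ hfin hW hfW with h | ⟨L, hL, hLf, g, hg, hg0⟩
    · exact h
    · have h1 := (D.sum_sq S hL hH hHW hHd hf hp1 hq1).2
      rw [map_sub, map_add] at h1
      have h2 := hL.pos p hp
      have h3 := hL.pos q hq
      have hp0 : L (p * p) = 0 := by linarith
      have hq0 : L (q * q) = 0 := by linarith
      have S' := D.next_stage S hL hH hHW hHd hAm hAd hp1 hq1 hp0 hq0
      have hlt : D.Wsub _ S'.smul < D.Wsub Λ S.smul := by
        rw [lt_iff_le_and_ne]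
        refine ⟨fun x hx => ?_, fun he => ?_⟩
        · exact ((D.mem_next S hL hH).1 hx).1
        · have : g ∈ D.Wsub _ S'.smul := he ▸ hg
          exact hg0 ((D.mem_next S hL hH).1 this).2
      have hfin' : FiniteDimensional ℝ (D.Wsub _ S'.smul) :=
        Submodule.finiteDimensional_of_le hlt.le
      exact ih _ (hn ▸ Submodule.finrank_lt_finrank_of_lt hlt) _ S' hfin' rfl

end LocData

end HF
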