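import Mathlib
import Pool.Agent.Hhelper20.HF.Core

/-!
The heat flow on `ℝ[x, y]`: semigroup property, and it preserves sums of squares.
-/

namespace HF

open MvPolynomial

/-- coefficientwise extension of a linear map to `P[t]`. -/
noncomputable def hat (T : P →ₗ[ℝ] P) (U : Polynomial P) : Polynomial P :=
  ∑ n ∈ Finset.range (U.natDegree + 1), Polynomial.monomial n (T (U.coeff n))

@[simp] lemma hat_coeff (T : P →ₗ[ℝ] P) (U : Polynomial P) (n : ℕ) :
    (hat T U).coeff n = T (U.coeff n) := by
  rw [hat, Polynomial.finsetSum_coeff]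
  simp only [Polynomial.coeff_monomial]
  rw [Finset.sum_ite_eq']
  split_ifs with h
  · rfl
  · rw [Finset.mem_range, not_lt] at h
    rw [Polynomial.coeff_eq_zero_of_natDegree_lt (by omega), map_zero]

lemma hat_add (T : P →ₗ[ℝ] P) (U V : Polynomial P) : hat T (U + V) = hat T U + hat T V := by
  ext1 n
  simp

lemma hat_sum (T : P →ₗ[ℝ] P) {ι : Type*} (s : Finset ι) (U : ι → Polynomial P) :
    hat T (∑ i ∈ s, U i) = ∑ i ∈ s, hat T (U i) := by
  ext1 n
  simp [Polynomial.finsetSum_coeff]

/-- the derivation extends to a derivation -/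
lemma hat_mul (D : Derivation ℝ P P) (U V : Polynomial P) :
    hat D.toLinearMap (U * V) = hat D.toLinearMap U * V + U * hat D.toLinearMap V := by
  ext1 n
  rw [hat_coeff, Polynomial.coeff_mul, Polynomial.coeff_add, Polynomial.coeff_mul,
    Polynomial.coeff_mul, map_sum, ← Finset.sum_add_distrib]
  refine Finset.sum_congr rfl fun x _ => ?_
  rw [hat_coeff, hat_coeff]
  show D _ = D _ * _ + _ * D _
  rw [Derivation.leibniz, smul_eq_mul, smul_eq_mul]
  ring

/-- the Laplacian as a linear map -/
noncomputable def lapL : P →ₗ[ℝ] P :=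
  (pderiv 0).toLinearMap ∘ₗ (pderiv 0).toLinearMap + (pderiv 1).toLinearMap ∘ₗ (pderiv 1).toLinearMap

lemma lapL_apply (f : P) : lapL f = lap f := rfl

/-- The heat polynomial in `P[t]`, up to order `N`. -/
noncomputable def hp (N : ℕ) (f : P) : Polynomial P :=
  ∑ k ∈ Finset.range N, Polynomial.monomial k (((k.factorial : ℝ)⁻¹) • (lapL ^ k) f)

lemma hp_coeff (N : ℕ) (f : P) (n : ℕ) :
    (hp N f).coeff n = if n < N then ((n.factorial : ℝ)⁻¹) • (lapL ^ n) f else 0 := by
  rw [hp, Polynomial.finsetSum_coeff]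
  simp only [Polynomial.coeff_monomial]
  rw [Finset.sum_ite_eq']
  simp only [Finset.mem_range]

lemma totalDegree_pderiv_le (i : Fin 2) (p : P) :
    (pderiv i p).totalDegree ≤ p.totalDegree := by
  rw [totalDegree, Finset.sup_le_iff]
  intro m hm
  have hmc : (pderiv i p).coeff m ≠ 0 := mem_support_iff.1 hm
  rw [coeff_pderiv] at hmc
  have h1 : p.coeff (m + Finsupp.single i 1) ≠ 0 := left_ne_zero_of_mul hmc
  have h2 := le_totalDegree (mem_support_iff.2 h1)
  rw [Finsupp.sum_fintype _ _ (by intro i; rfl)] at h2 ⊢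
  refine le_trans ?_ h2
  refine Finset.sum_le_sum fun j _ => ?_
  simp

lemma totalDegree_pderiv_lt (i : Fin 2) {p : P} {n : ℕ} (hp : p.totalDegree ≤ n + 1) :
    (pderiv i p).totalDegree ≤ n := by
  rw [totalDegree, Finset.sup_le_iff]
  intro m hm
  have hmc : (pderiv i p).coeff m ≠ 0 := mem_support_iff.1 hm
  rw [coeff_pderiv] at hmc
  have h1 : p.coeff (m + Finsupp.single i 1) ≠ 0 := left_ne_zero_of_mul hmc
  have h2 := (le_totalDegree (mem_support_iff.2 h1)).trans hp
  rw [Finsupp.sum_fintype _ _ (by intro i; rfl)] at h2 ⊢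
  have h3 : ∑ j : Fin 2, (m + Finsupp.single i 1 : Fin 2 →₀ ℕ) j = ∑ j : Fin 2, m j + 1 := by
    simp only [Finsupp.add_apply, Finset.sum_add_distrib]
    congr 1
    rw [Finset.sum_eq_single i]
    · simp
    · intro b _ hb
      simp [hb]
    · simp
  omega

lemma pderiv_eq_zero (i : Fin 2) {p : P} (hp : p.totalDegree = 0) : pderiv i p = 0 := by
  rw [totalDegree_eq_zero_iff_eq_C] at hp
  rw [hp, pderiv_C]

lemma lapL_pow_eq_zero {n : ℕ} : ∀ {f : P}, f.totalDegree < n → (lapL ^ n) f = 0 := by
  induction n with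
  | zero => intro f hf; omega
  | succ n ih =>
    intro f hf
    rw [pow_succ, Module.End.mul_apply]
    rcases Nat.eq_zero_or_pos f.totalDegree with h | h
    · have : lapL f = 0 := by
        rw [lapL_apply, lap, pderiv_eq_zero 0 h, pderiv_eq_zero 1 h]
        simp
      rw [this, map_zero]
    · apply ih
      rw [lapL_apply, lap]
      have h1 : ∀ i, (pderiv i (pderiv i f)).totalDegree < n := by
        intro i
        have := totalDegree_pderiv_lt i (p := f) (n := f.totalDegree - 1) (by omega)
        have h2 := totalDegree_pderiv_le i (pderiv i f)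
        omega
      exact lt_of_le_of_lt (totalDegree_add _ _) (max_lt (h1 0) (h1 1))

lemma D_comm (i j : Fin 2) (f : P) : pderiv i (pderiv j f) = pderiv j (pderiv i f) := by
  induction f using MvPolynomial.induction_on with
  | C a => simp
  | add p q hp hq => simp [hp, hq]
  | mul_X p n hp =>
    simp only [Derivation.leibniz, smul_eq_mul, map_add, hp, pderiv_X, Pi.single_apply]
    split_ifs <;> simp <;> ring

lemma D_lapL (i : Fin 2) (f : P) : pderiv i (lapL f) = lapL (pderiv i f) := by
  rw [lapL_apply, lapL_apply, lap, lap, map_add, D_comm i 0, D_comm i 0, D_comm i 1, D_comm i 1]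

lemma D_lapL_pow (i : Fin 2) (n : ℕ) (f : P) :
    pderiv i ((lapL ^ n) f) = (lapL ^ n) (pderiv i f) := by
  induction n generalizing f with
  | zero => simp
  | succ n ih => rw [pow_succ, Module.End.mul_apply, Module.End.mul_apply, ih, D_lapL]

lemma hat_D_hp (i : Fin 2) (N : ℕ) (f : P) :
    hat (pderiv i).toLinearMap (hp N f) = hp N (pderiv i f) := by
  ext1 n
  rw [hat_coeff, hp_coeff, hp_coeff]
  split_ifs
  · show pderiv i _ = _
    rw [Derivation.map_smul, D_lapL_pow]
  · exact map_zero _

lemma derivative_hp {N : ℕ} {f : P} (hf : f.totalDegree < N) :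
    Polynomial.derivative (hp N f) = hat lapL (hp N f) := by
  ext1 n
  rw [Polynomial.coeff_derivative, hat_coeff, hp_coeff, hp_coeff]
  by_cases h : n + 1 < N
  · rw [if_pos h, if_pos (by omega), map_smul, pow_succ', Module.End.mul_apply,
      Nat.factorial_succ, smul_eq_C_mul, smul_eq_C_mul]
    have : ((n : P) + 1) = C ((n : ℝ) + 1) := by simp
    rw [this, mul_right_comm, ← C_mul]
    congr 2
    have h1 : (n.factorial : ℝ) ≠ 0 := by positivity
    have h2 : ((n : ℝ) + 1) ≠ 0 := by positivity
    push_cast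
    field_simp
  · rw [if_neg h, zero_mul]
    split_ifs with h'
    · have : n + 1 = N := by omega
      rw [map_smul, ← Module.End.mul_apply, ← pow_succ', this, lapL_pow_eq_zero hf, smul_zero]
    · rw [map_zero]

/-- uniqueness for the heat equation -/
lemma coeff_of_heat_eq {U : Polynomial P} (hU : Polynomial.derivative U = hat lapL U) (n : ℕ) :
    U.coeff n = ((n.factorial : ℝ)⁻¹) • (lapL ^ n) (U.coeff 0) := by
  induction n with
  | zero => simp
  | succ n ih =>
    have h := congrArg (fun V => V.coeff n) hU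
    simp only [Polynomial.coeff_derivative, hat_coeff] at h
    rw [ih, map_smul, ← Module.End.mul_apply, ← pow_succ'] at h
    have h2 : ((n : ℝ) + 1) ≠ 0 := by positivity
    have h3 : U.coeff (n + 1) = ((n : ℝ) + 1)⁻¹ • (U.coeff (n + 1) * ((n : P) + 1)) := by
      have : ((n : P) + 1) = C ((n : ℝ) + 1) := by simp
      rw [this, smul_eq_C_mul, mul_comm (U.coeff (n + 1)), ← mul_assoc, ← C_mul,
        inv_mul_cancel₀ h2]
      simp
    rw [h3, h, smul_smul, Nat.factorial_succ]
    congr 1
    push_cast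
    rw [mul_inv]

lemma hat_lapL_mul (U V : Polynomial P) :
    hat lapL (U * V) = hat lapL U * V + U * hat lapL V +
      2 * (hat (pderiv 0).toLinearMap U * hat (pderiv 0).toLinearMap V +
        hat (pderiv 1).toLinearMap U * hat (pderiv 1).toLinearMap V) := by
  have h : ∀ W : Polynomial P, hat lapL W =
      hat (pderiv 0).toLinearMap (hat (pderiv 0).toLinearMap W) +
      hat (pderiv 1).toLinearMap (hat (pderiv 1).toLinearMap W) := by
    intro W
    ext1 n
    simp only [hat_coeff, Polynomial.coeff_add]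
    rfl
  rw [h, h, h, hat_mul, hat_mul, hat_add, hat_add, hat_mul, hat_mul, hat_mul, hat_mul]
  ring

lemma hat_C_mul (T : P →ₗ[ℝ] P) (c : ℝ) (U : Polynomial P) :
    hat T (Polynomial.C (C c) * U) = Polynomial.C (C c) * hat T U := by
  ext1 n
  rw [hat_coeff, Polynomial.coeff_C_mul, Polynomial.coeff_C_mul, hat_coeff, ← smul_eq_C_mul,
    map_smul, smul_eq_C_mul]

lemma hat_X_pow_mul (T : P →ₗ[ℝ] P) (m : ℕ) (U : Polynomial P) :
    hat T (Polynomial.X ^ m * U) = Polynomial.X ^ m * hat T U := by
  ext1 n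
  rw [hat_coeff, Polynomial.coeff_X_pow_mul', Polynomial.coeff_X_pow_mul', hat_coeff]
  split_ifs
  · rfl
  · exact map_zero _

/-- iterated partial derivatives -/
noncomputable def DD (a b : ℕ) (g : P) : P := (pderiv 0)^[a] ((pderiv 1)^[b] g)

lemma pderiv0_DD (a b : ℕ) (g : P) : pderiv 0 (DD a b g) = DD (a + 1) b g := by
  rw [DD, DD, Function.iterate_succ_apply']

lemma pderiv1_DD (a b : ℕ) (g : P) : pderiv 1 (DD a b g) = DD a (b + 1) g := by
  induction a generalizing b with
  | zero => rw [DD, DD, Function.iterate_succ_apply']; rfl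
  | succ a ih => rw [← pderiv0_DD, D_comm, ih, pderiv0_DD]

lemma totalDegree_DD (a b : ℕ) (g : P) : (DD a b g).totalDegree ≤ g.totalDegree := by
  induction a generalizing b with
  | zero =>
    induction b with
    | zero => exact le_rfl
    | succ b ih => rw [← pderiv1_DD]; exact (totalDegree_pderiv_le _ _).trans ih
  | succ a ih => rw [← pderiv0_DD]; exact (totalDegree_pderiv_le _ _).trans (ih b)

lemma iterate_pderiv_eq_zero (i : Fin 2) {n : ℕ} : ∀ {f : P}, f.totalDegree < n →
    (pderiv i)^[n] f = 0 := by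
  induction n with
  | zero => intro f hf; omega
  | succ n ih =>
    intro f hf
    rw [Function.iterate_succ_apply]
    rcases Nat.eq_zero_or_pos f.totalDegree with h | h
    · rw [pderiv_eq_zero i h]
      exact Function.iterate_fixed (map_zero _) n
    · apply ih
      have := totalDegree_pderiv_lt i (p := f) (n := f.totalDegree - 1) (by omega)
      omega

lemma DD_left_zero {a b : ℕ} {g : P} (h : g.totalDegree < a) : DD a b g = 0 := by
  rw [DD]
  apply iterate_pderiv_eq_zero
  have := totalDegree_DD 0 b g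
  exact lt_of_le_of_lt this h

lemma DD_right_zero {a b : ℕ} {g : P} (h : g.totalDegree < b) : DD a b g = 0 := by
  rw [DD, iterate_pderiv_eq_zero 1 h]
  exact Function.iterate_fixed (map_zero _) a

/-- product of the heat polynomials of the derivatives -/
noncomputable def TT (N : ℕ) (g h : P) (a b : ℕ) : Polynomial P :=
  hp N (DD a b g) * hp N (DD a b h)

/-- the coefficient `2^(a+b)/(a! b!)` -/
noncomputable def cc (a b : ℕ) : ℝ := 2 ^ (a + b) / ((a.factorial : ℝ) * b.factorial)

lemma hp_zero (N : ℕ) : hp N 0 = 0 := by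
  ext1 n
  rw [hp_coeff]
  simp

lemma TT_left {N a b : ℕ} {g h : P} (hg : g.totalDegree < a) : TT N g h a b = 0 := by
  rw [TT, DD_left_zero hg, hp_zero, zero_mul]

lemma TT_right {N a b : ℕ} {g h : P} (hg : g.totalDegree < b) : TT N g h a b = 0 := by
  rw [TT, DD_right_zero hg, hp_zero, zero_mul]

lemma derivative_TT {N : ℕ} {g h : P} (hg : g.totalDegree < N) (hh : h.totalDegree < N)
    (a b : ℕ) : Polynomial.derivative (TT N g h a b) =
      hat lapL (TT N g h a b) - 2 * (TT N g h (a + 1) b + TT N g h a (b + 1)) := by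
  have h1 : (DD a b g).totalDegree < N := lt_of_le_of_lt (totalDegree_DD a b g) hg
  have h2 : (DD a b h).totalDegree < N := lt_of_le_of_lt (totalDegree_DD a b h) hh
  rw [TT, hat_lapL_mul, Polynomial.derivative_mul, derivative_hp h1, derivative_hp h2,
    hat_D_hp, hat_D_hp, hat_D_hp, hat_D_hp, pderiv0_DD, pderiv0_DD, pderiv1_DD, pderiv1_DD,
    TT, TT]
  ring

/-- the product solution -/
noncomputable def VV (N : ℕ) (g h : P) : Polynomial P :=
  ∑ a ∈ Finset.range N, ∑ b ∈ Finset.range N,
    Polynomial.C (C (cc a b)) * (Polynomial.X ^ (a + b) * TT N g h a b)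

lemma cc_succ_left (a b : ℕ) : cc (a + 1) b * ((a : ℝ) + 1) = 2 * cc a b := by
  have h1 : (a.factorial : ℝ) ≠ 0 := by positivity
  have h2 : (b.factorial : ℝ) ≠ 0 := by positivity
  have h3 : ((a : ℝ) + 1) ≠ 0 := by positivity
  rw [cc, cc, Nat.factorial_succ]
  push_cast
  field_simp
  ring

lemma cc_succ_right (a b : ℕ) : cc a (b + 1) * ((b : ℝ) + 1) = 2 * cc a b := by
  have h1 : (a.factorial : ℝ) ≠ 0 := by positivity
  have h2 : (b.factorial : ℝ) ≠ 0 := by positivity
  have h3 : ((b : ℝ) + 1) ≠ 0 := by positivity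
  rw [cc, cc, Nat.factorial_succ]
  push_cast
  field_simp
  ring

/-- the telescoping terms -/
noncomputable def G1 (N : ℕ) (g h : P) (a b : ℕ) : Polynomial P :=
  Polynomial.C (C (cc a b * (a : ℝ))) * (Polynomial.X ^ (a + b - 1) * TT N g h a b)

noncomputable def G2 (N : ℕ) (g h : P) (a b : ℕ) : Polynomial P :=
  Polynomial.C (C (cc a b * (b : ℝ))) * (Polynomial.X ^ (a + b - 1) * TT N g h a b)

lemma G1_succ (N : ℕ) (g h : P) (a b : ℕ) : G1 N g h (a + 1) b =
    Polynomial.C (C (cc a b)) * (Polynomial.X ^ (a + b) * (2 * TT N g h (a + 1) b)) := by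
  rw [G1]
  have : cc (a + 1) b * ((a + 1 : ℕ) : ℝ) = 2 * cc a b := by
    rw [← cc_succ_left]
    push_cast
    ring
  rw [this, C_mul, Polynomial.C_mul, show a + 1 + b - 1 = a + b by omega]
  have h2 : (Polynomial.C (C (2 : ℝ) : P)) = 2 := by
    rw [show (C (2 : ℝ) : P) = 2 from map_ofNat C 2]
    exact map_ofNat Polynomial.C 2
  rw [h2]
  ring

lemma G2_succ (N : ℕ) (g h : P) (a b : ℕ) : G2 N g h a (b + 1) =
    Polynomial.C (C (cc a b)) * (Polynomial.X ^ (a + b) * (2 * TT N g h a (b + 1))) := by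
  rw [G2]
  have : cc a (b + 1) * ((b + 1 : ℕ) : ℝ) = 2 * cc a b := by
    rw [← cc_succ_right]
    push_cast
    ring
  rw [this, C_mul, Polynomial.C_mul, show a + (b + 1) - 1 = a + b by omega]
  have h2 : (Polynomial.C (C (2 : ℝ) : P)) = 2 := by
    rw [show (C (2 : ℝ) : P) = 2 from map_ofNat C 2]
    exact map_ofNat Polynomial.C 2
  rw [h2]
  ring

lemma derivative_VV {N : ℕ} {g h : P} (hg : g.totalDegree < N) (hh : h.totalDegree < N) :
    Polynomial.derivative (VV N g h) = hat lapL (VV N g h) := by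
  have key : ∀ a b, Polynomial.derivative
      (Polynomial.C (C (cc a b)) * (Polynomial.X ^ (a + b) * TT N g h a b)) =
      hat lapL (Polynomial.C (C (cc a b)) * (Polynomial.X ^ (a + b) * TT N g h a b)) +
        (G1 N g h a b - G1 N g h (a + 1) b) + (G2 N g h a b - G2 N g h a (b + 1)) := by
    intro a b
    rw [hat_C_mul, hat_X_pow_mul, G1_succ, G2_succ, Polynomial.derivative_mul,
      Polynomial.derivative_C, zero_mul, zero_add, Polynomial.derivative_mul,
      Polynomial.derivative_X_pow, derivative_TT hg hh, G1, G2, C_mul, C_mul,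
      Polynomial.C_mul, Polynomial.C_mul]
    have h1 : (Polynomial.C ((a + b : ℕ) : P)) =
        Polynomial.C (C (a : ℝ)) + Polynomial.C (C (b : ℝ)) := by
      simp
    rw [h1]
    ring
  have hN1 : ∀ b, ∑ a ∈ Finset.range N, (G1 N g h a b - G1 N g h (a + 1) b) = 0 := by
    intro b
    rw [Finset.sum_range_sub']
    simp [G1, TT_left hg]
  have hN2 : ∀ a, ∑ b ∈ Finset.range N, (G2 N g h a b - G2 N g h a (b + 1)) = 0 := by
    intro a
    rw [Finset.sum_range_sub']
    simp [G2, TT_right hg]
  rw [VV, hat_sum, Polynomial.derivative_sum]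
  simp only [hat_sum, Polynomial.derivative_sum, key, Finset.sum_add_distrib, hN2]
  rw [Finset.sum_comm (f := fun a b => G1 N g h a b - G1 N g h (a + 1) b)]
  simp [hN1]

lemma VV_coeff_zero {N : ℕ} (hN : 0 < N) (g h : P) : (VV N g h).coeff 0 = g * h := by
  rw [VV, Polynomial.finsetSum_coeff, Finset.sum_eq_single 0]
  · rw [Polynomial.finsetSum_coeff, Finset.sum_eq_single 0]
    · rw [Polynomial.coeff_C_mul, Polynomial.coeff_X_pow_mul', if_pos (by omega), TT,
        Polynomial.mul_coeff_zero, hp_coeff, hp_coeff, if_pos hN, if_pos hN]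
      simp [cc, DD]
    · intro b _ hb
      rw [Polynomial.coeff_C_mul, Polynomial.coeff_X_pow_mul', if_neg (by omega), mul_zero]
    · intro h'
      exact absurd (Finset.mem_range.2 hN) h'
  · intro a _ ha
    rw [Polynomial.finsetSum_coeff]
    refine Finset.sum_eq_zero fun b _ => ?_
    rw [Polynomial.coeff_C_mul, Polynomial.coeff_X_pow_mul', if_neg (by omega), mul_zero]
  · intro h'
    exact absurd (Finset.mem_range.2 hN) h'

lemma heat_eq_eval {N : ℕ} {f : P} (hf : f.totalDegree < N) (t : ℝ) :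
    heat t f = (hp N f).eval (C t) := by
  have h1 : heat t f = ∑ k ∈ Finset.range N, (t ^ k / (k.factorial : ℝ)) • (lap^[k] f) := by
    rw [heat]
    refine Finset.sum_subset (Finset.range_mono (by omega)) ?_
    intro k _ hk
    rw [Finset.mem_range, not_lt] at hk
    have h2 : lap^[k] f = (lapL ^ k) f := by
      rw [Module.End.pow_apply]
      rfl
    rw [h2, lapL_pow_eq_zero (by omega), smul_zero]
  rw [h1, hp, Polynomial.eval_finsetSum]
  refine Finset.sum_congr rfl fun k _ => ?_
  have h2 : lap^[k] f = (lapL ^ k) f := by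
    rw [Module.End.pow_apply]
    rfl
  rw [h2, Polynomial.eval_monomial, smul_eq_C_mul, smul_eq_C_mul, div_eq_mul_inv, C_mul,
    ← C_pow]
  ring

lemma VV_eq_hp {N M : ℕ} {g h : P} (hg : g.totalDegree < N) (hh : h.totalDegree < N)
    (hM : (g * h).totalDegree < M) : VV N g h = hp M (g * h) := by
  ext1 n
  rw [coeff_of_heat_eq (derivative_VV hg hh) n, VV_coeff_zero (by omega), hp_coeff]
  split_ifs with hn
  · rfl
  · rw [lapL_pow_eq_zero (by omega), smul_zero]

lemma heat_mul {N : ℕ} {g h : P} (hg : g.totalDegree < N) (hh : h.totalDegree < N) (t : ℝ) :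
    heat t (g * h) = ∑ a ∈ Finset.range N, ∑ b ∈ Finset.range N,
      C (cc a b * t ^ (a + b)) * (heat t (DD a b g) * heat t (DD a b h)) := by
  have hM : (g * h).totalDegree < (g * h).totalDegree + 1 := Nat.lt_succ_self _
  rw [heat_eq_eval hM, ← VV_eq_hp hg hh hM, VV, Polynomial.eval_finsetSum]
  refine Finset.sum_congr rfl fun a _ => ?_
  rw [Polynomial.eval_finsetSum]
  refine Finset.sum_congr rfl fun b _ => ?_
  have h1 : (DD a b g).totalDegree < N := lt_of_le_of_lt (totalDegree_DD a b g) hg
  have h2 : (DD a b h).totalDegree < N := lt_of_le_of_lt (totalDegree_DD a b h) hh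
  rw [heat_eq_eval h1, heat_eq_eval h2, TT]
  simp only [Polynomial.eval_mul, Polynomial.eval_C, Polynomial.eval_pow, Polynomial.eval_X,
    C_mul, C_pow]
  ring

theorem heat_add (t : ℝ) (f g : P) : heat t (f + g) = heat t f + heat t g := by
  set N := max (max f.totalDegree g.totalDegree) (f + g).totalDegree + 1 with hN
  have e : ∀ x : P, x.totalDegree < N → heat t x = (hp N x).eval (C t) :=
    fun x hx => heat_eq_eval hx t
  rw [e f (by omega), e g (by omega), e (f + g) (by omega), ← Polynomial.eval_add]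
  congr 1
  ext1 n
  rw [Polynomial.coeff_add, hp_coeff, hp_coeff, hp_coeff]
  split_ifs
  · rw [map_add, smul_add]
  · simp

theorem heat_smul (t c : ℝ) (f : P) : heat t (c • f) = c • heat t f := by
  have h1 : (c • f).totalDegree ≤ f.totalDegree := totalDegree_smul_le c f
  rw [heat_eq_eval (N := f.totalDegree + 1) (by omega), heat_eq_eval (N := f.totalDegree + 1)
    (by omega), smul_eq_C_mul, smul_eq_C_mul, ← smul_eq_C_mul, ← Polynomial.eval_C_mul]
  congr 1
  ext1 n
  rw [Polynomial.coeff_C_mul, hp_coeff, hp_coeff]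
  split_ifs
  · rw [map_smul, smul_comm, smul_eq_C_mul]
  · simp

theorem heat_zero (f : P) : heat 0 f = f := by
  rw [heat_eq_eval (Nat.lt_succ_self _), C_0, ← Polynomial.coeff_zero_eq_eval_zero, hp_coeff,
    if_pos (Nat.succ_pos _)]
  simp

lemma isSumSq_C_mul {r : ℝ} (hr : 0 ≤ r) (u : P) : IsSumSq (C r * (u * u)) := by
  have : C r * (u * u) = (C (Real.sqrt r) * u) * (C (Real.sqrt r) * u) := by
    calc C r * (u * u) = C (Real.sqrt r * Real.sqrt r) * (u * u) := by
          rw [Real.mul_self_sqrt hr]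
      _ = _ := by rw [C_mul]; ring
  rw [this]
  exact IsSumSq.mul_self _

theorem isSumSq_heat {t : ℝ} (ht : 0 ≤ t) {f : P} (hf : IsSumSq f) : IsSumSq (heat t f) := by
  induction hf with
  | zero =>
    have : heat t (0 : P) = 0 := by
      have := heat_smul t 0 (0 : P)
      simpa using this
    rw [this]
    exact IsSumSq.zero
  | sq_add a hs ih =>
    rename_i s
    rw [heat_add]
    refine IsSumSq.add ?_ ih
    rw [heat_mul (Nat.lt_succ_self _) (Nat.lt_succ_self _)]
    refine IsSumSq.sum fun a' _ => IsSumSq.sum fun b' _ => ?_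
    exact isSumSq_C_mul (mul_nonneg (by rw [cc]; positivity) (pow_nonneg ht _)) _

lemma hat_C_mul_map (T : P →ₗ[ℝ] P) (a : P) (Q : Polynomial ℝ) :
    hat T (Polynomial.C a * Q.map C) = Polynomial.C (T a) * Q.map C := by
  ext1 n
  rw [hat_coeff, Polynomial.coeff_C_mul, Polynomial.coeff_C_mul, Polynomial.coeff_map, mul_comm,
    ← smul_eq_C_mul, map_smul, smul_eq_C_mul, mul_comm]

lemma hat_comp (T : P →ₗ[ℝ] P) (U : Polynomial P) (t : ℝ) :
    hat T (U.comp (Polynomial.X + Polynomial.C (C t))) =
      (hat T U).comp (Polynomial.X + Polynomial.C (C t)) := by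
  have h : ∀ n, (Polynomial.X + Polynomial.C (C t) : Polynomial P) ^ n =
      ((Polynomial.X + Polynomial.C t : Polynomial ℝ) ^ n).map C := by
    intro n
    simp
  have h1 : U.comp (Polynomial.X + Polynomial.C (C t)) = ∑ n ∈ Finset.range (U.natDegree + 1),
      Polynomial.C (U.coeff n) * ((Polynomial.X + Polynomial.C t : Polynomial ℝ) ^ n).map C := by
    rw [Polynomial.comp, Polynomial.eval₂_eq_sum_range]
    simp only [h]
  rw [h1, hat_sum]
  simp only [hat_C_mul_map]
  rw [hat, Polynomial.sum_comp]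
  refine Finset.sum_congr rfl fun n _ => ?_
  rw [Polynomial.monomial_comp, h]

theorem heat_add_time (s t : ℝ) (f : P) : heat (s + t) f = heat s (heat t f) := by
  set N := f.totalDegree + 1
  have hN : f.totalDegree < N := Nat.lt_succ_self _
  set W := (hp N f).comp (Polynomial.X + Polynomial.C (C t)) with hW
  have h1 : Polynomial.derivative W = hat lapL W := by
    rw [hW, Polynomial.derivative_comp, hat_comp, derivative_hp hN]
    simp
  have h0 : W.coeff 0 = heat t f := by
    rw [Polynomial.coeff_zero_eq_eval_zero, hW, Polynomial.eval_comp, heat_eq_eval hN]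
    simp
  have h2 : W = hp ((heat t f).totalDegree + 1) (heat t f) := by
    ext1 n
    rw [coeff_of_heat_eq h1 n, h0, hp_coeff]
    split_ifs with hn
    · rfl
    · rw [lapL_pow_eq_zero (by omega), smul_zero]
  rw [heat_eq_eval (Nat.lt_succ_self _) s, ← h2, hW, Polynomial.eval_comp, heat_eq_eval hN]
  simp

end HF
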