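import Mathlib
import Pool.Agent.Hhelper20.HF.Heat

/-!
Separation: either some heat polynomial of `f` is a sum of squares, or there is a
translation-invariant positive functional which is `≤ 0` at `f`.
-/

namespace HF

open MvPolynomial

section sep

/-- Weak separation of a point from a convex cone in `Fin n → ℝ`. -/
lemma sep_fin {n : ℕ} (Cn : Set (Fin n → ℝ)) (h0 : (0 : Fin n → ℝ) ∈ Cn)
    (hadd : ∀ x ∈ Cn, ∀ y ∈ Cn, x + y ∈ Cn) (hsmul : ∀ r : ℝ, 0 ≤ r → ∀ x ∈ Cn, r • x ∈ Cn)
    (hspan : Submodule.span ℝ Cn = ⊤) {p : Fin n → ℝ} (hp : p ∉ Cn) :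
    ∃ φ : (Fin n → ℝ) →ₗ[ℝ] ℝ, (∀ x ∈ Cn, 0 ≤ φ x) ∧ φ p ≤ 0 ∧ φ ≠ 0 := by
  have hconv : Convex ℝ Cn := by
    intro x hx y hy a b ha hb _
    exact hadd _ (hsmul a ha x hx) _ (hsmul b hb y hy)
  have hint : (interior Cn).Nonempty := by
    rw [hconv.interior_nonempty_iff_affineSpan_eq_top]
    have h1 : insert (0 : Fin n → ℝ) Cn = Cn := Set.insert_eq_of_mem h0
    rw [← h1]
    apply SetLike.coe_injective
    rw [affineSpan_insert_zero, hspan]
    rfl
  obtain ⟨a0, ha0⟩ := hint
  obtain ⟨φ, hφ⟩ := geometric_hahn_banach_open_point (hconv.interior) isOpen_interior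
    (fun h => hp (interior_subset h) : p ∉ interior Cn)
  have hpos : ∀ x ∈ Cn, φ x ≤ 0 := by
    intro x hx
    by_contra hcon
    push Not at hcon
    have hmem : ∀ r : ℝ, 0 ≤ r → a0 + r • x ∈ interior Cn := by
      intro r hr
      have h1 : (fun z => z + r • x) '' interior Cn ⊆ interior Cn := by
        apply interior_maximal
        · rintro _ ⟨z, hz, rfl⟩
          exact hadd _ (interior_subset hz) _ (hsmul r hr x hx)
        · exact (Homeomorph.addRight (r • x)).isOpenMap _ isOpen_interior
      exact h1 ⟨a0, ha0, rfl⟩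
    set r : ℝ := max 0 ((φ p - φ a0) / φ x) with hr
    have h2 := hφ _ (hmem r (le_max_left _ _))
    rw [map_add, map_smul, smul_eq_mul] at h2
    have h3 : (φ p - φ a0) / φ x ≤ r := le_max_right _ _
    rw [div_le_iff₀ hcon] at h3
    linarith
  have hp0 : 0 ≤ φ p := by
    by_contra hcon
    push Not at hcon
    have hmem : ∀ r : ℝ, 0 < r → r • a0 ∈ interior Cn := by
      intro r hr
      have h1 : (fun z => r • z) '' interior Cn ⊆ interior Cn := by
        apply interior_maximal
        · rintro _ ⟨z, hz, rfl⟩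
          exact hsmul r hr.le _ (interior_subset hz)
        · exact (Homeomorph.smulOfNeZero r hr.ne').isOpenMap _ isOpen_interior
      exact h1 ⟨a0, ha0, rfl⟩
    have h4 := hpos a0 (interior_subset ha0)
    have h5 := hφ a0 ha0
    have h6 : φ a0 < 0 := lt_trans h5 hcon
    have h7 := hφ _ (hmem (φ p / φ a0) (div_pos_of_neg_of_neg hcon h6))
    rw [map_smul, smul_eq_mul, div_mul_cancel₀ _ h6.ne] at h7
    exact lt_irrefl _ h7
  refine ⟨-(φ : (Fin n → ℝ) →ₗ[ℝ] ℝ), fun x hx => ?_, ?_, fun h => ?_⟩
  · simpa using hpos x hx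
  · simpa using hp0
  · have h1 := hφ a0 ha0
    have h2 : ∀ x, φ x = 0 := by
      intro x
      have := congrFun (congrArg DFunLike.coe h) x
      simpa using this
    rw [h2, h2] at h1
    exact lt_irrefl _ h1

/-- Weak separation of a point from a convex cone in a finite dimensional subspace. -/
lemma sep_submodule {E : Type*} [AddCommGroup E] [Module ℝ E] (V : Submodule ℝ E)
    [FiniteDimensional ℝ V] (Cn : Set E) (hCV : ∀ x ∈ Cn, x ∈ V)
    (h0 : (0 : E) ∈ Cn) (hadd : ∀ x ∈ Cn, ∀ y ∈ Cn, x + y ∈ Cn)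
    (hsmul : ∀ r : ℝ, 0 ≤ r → ∀ x ∈ Cn, r • x ∈ Cn)
    (hspan : V ≤ Submodule.span ℝ Cn) {p : E} (hpV : p ∈ V) (hp : p ∉ Cn) :
    ∃ L : E →ₗ[ℝ] ℝ, (∀ x ∈ Cn, 0 ≤ L x) ∧ L p ≤ 0 ∧ ∃ x ∈ V, L x ≠ 0 := by
  set e := (Module.finBasis ℝ V).equivFun with he
  set C' : Set (Fin (Module.finrank ℝ V) → ℝ) := {z | ((e.symm z : V) : E) ∈ Cn} with hC'
  have hspan' : Submodule.span ℝ C' = ⊤ := by
    rw [eq_top_iff]
    intro z _
    have h1 : ((e.symm z : V) : E) ∈ Submodule.span ℝ Cn := hspan (e.symm z).2
    have h2 : ∀ x ∈ Submodule.span ℝ Cn, ∀ hx : x ∈ V, e ⟨x, hx⟩ ∈ Submodule.span ℝ C' := by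
      intro x hx
      induction hx using Submodule.span_induction with
      | mem x h =>
        intro hx
        apply Submodule.subset_span
        show ((e.symm (e ⟨x, hx⟩) : V) : E) ∈ Cn
        rw [e.symm_apply_apply]
        exact h
      | zero =>
        intro hx
        have : (⟨0, hx⟩ : V) = 0 := rfl
        rw [this, map_zero]
        exact zero_mem _
      | add x y hx' hy' ihx ihy =>
        intro hxy
        have hxV : x ∈ V := (Submodule.span_le.2 hCV) hx'
        have hyV : y ∈ V := (Submodule.span_le.2 hCV) hy'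
        have : (⟨x + y, hxy⟩ : V) = ⟨x, hxV⟩ + ⟨y, hyV⟩ := rfl
        rw [this, map_add]
        exact add_mem (ihx hxV) (ihy hyV)
      | smul r x hx' ih =>
        intro hrx
        have hxV : x ∈ V := (Submodule.span_le.2 hCV) hx'
        have : (⟨r • x, hrx⟩ : V) = r • ⟨x, hxV⟩ := rfl
        rw [this, map_smul]
        exact Submodule.smul_mem _ _ (ih hxV)
    have h3 := h2 _ h1 (e.symm z).2
    simpa using h3
  obtain ⟨φ, h1, h2, h3⟩ := sep_fin C' (by show ((e.symm 0 : V) : E) ∈ Cn; simpa using h0)
    (fun x hx y hy => by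
      show ((e.symm (x + y) : V) : E) ∈ Cn
      rw [map_add]
      exact hadd _ hx _ hy)
    (fun r hr x hx => by
      show ((e.symm (r • x) : V) : E) ∈ Cn
      rw [map_smul]
      exact hsmul r hr _ hx) hspan' (p := e ⟨p, hpV⟩) (by
      show ¬ ((e.symm (e ⟨p, hpV⟩) : V) : E) ∈ Cn
      rw [e.symm_apply_apply]
      exact hp)
  obtain ⟨L, hL⟩ := LinearMap.exists_extend (φ ∘ₗ e.toLinearMap)
  have hL' : ∀ (x : E) (hx : x ∈ V), L x = φ (e ⟨x, hx⟩) := by
    intro x hx
    have := congrFun (congrArg DFunLike.coe hL) ⟨x, hx⟩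
    simpa using this
  refine ⟨L, fun x hx => ?_, ?_, ?_⟩
  · rw [hL' x (hCV x hx)]
    apply h1
    show ((e.symm (e ⟨x, _⟩) : V) : E) ∈ Cn
    rw [e.symm_apply_apply]
    exact hx
  · rw [hL' p hpV]
    exact h2
  · by_contra hcon
    push Not at hcon
    apply h3
    apply LinearMap.ext
    intro z
    have := hcon _ (e.symm z).2
    rw [hL' _ (e.symm z).2] at this
    simpa using this

end sep

section heatW

variable {W : Submodule ℝ P} (hD : ∀ i, ∀ g ∈ W, pderiv i g ∈ W)

include hD

lemma DD_mem {g : P} (hg : g ∈ W) (a b : ℕ) : DD a b g ∈ W := by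
  induction a generalizing b with
  | zero =>
    induction b with
    | zero => exact hg
    | succ b ih => rw [← pderiv1_DD]; exact hD _ _ ih
  | succ a ih => rw [← pderiv0_DD]; exact hD _ _ (ih b)

lemma lap_iter_mem {g : P} (hg : g ∈ W) (k : ℕ) : lap^[k] g ∈ W := by
  induction k with
  | zero => exact hg
  | succ k ih =>
    rw [Function.iterate_succ_apply', lap]
    exact add_mem (hD _ _ (hD _ _ ih)) (hD _ _ (hD _ _ ih))

lemma heat_mem {g : P} (hg : g ∈ W) (t : ℝ) : heat t g ∈ W := by
  rw [heat]
  exact sum_mem fun k _ => W.smul_mem _ (lap_iter_mem hD hg k)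

lemma heat_mul_mem {g h : P} (hg : g ∈ W) (hh : h ∈ W) (t : ℝ) : heat t (g * h) ∈ W * W := by
  rw [heat_mul (N := max g.totalDegree h.totalDegree + 1) (by omega) (by omega)]
  refine sum_mem fun a _ => sum_mem fun b _ => ?_
  rw [← smul_eq_C_mul]
  exact (W * W).smul_mem _ (Submodule.mul_mem_mul (heat_mem hD (DD_mem hD hg a b) t)
    (heat_mem hD (DD_mem hD hh a b) t))

end heatW

lemma pderiv_heat (i : Fin 2) (t : ℝ) (f : P) : pderiv i (heat t f) = heat t (pderiv i f) := by
  have h1 : f.totalDegree < f.totalDegree + 1 := Nat.lt_succ_self _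
  have h2 : (pderiv i f).totalDegree < f.totalDegree + 1 :=
    Nat.lt_succ_of_le (totalDegree_pderiv_le i f)
  have h3 : ∀ g : P, g.totalDegree < f.totalDegree + 1 → heat t g =
      ∑ k ∈ Finset.range (f.totalDegree + 1), (t ^ k / (k.factorial : ℝ)) • (lapL ^ k) g := by
    intro g hg
    rw [heat_eq_eval hg, hp, Polynomial.eval_finsetSum]
    refine Finset.sum_congr rfl fun k _ => ?_
    rw [Polynomial.eval_monomial, smul_eq_C_mul, smul_eq_C_mul, div_eq_mul_inv, C_mul, ← C_pow]
    ring
  rw [h3 f h1, h3 _ h2, map_sum]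
  refine Finset.sum_congr rfl fun k _ => ?_
  rw [Derivation.map_smul, D_lapL_pow]

lemma DD_zero_zero (f : P) : DD 0 0 f = f := by
  simp only [DD, Function.iterate_zero, id_eq]

lemma DD_heat (a b : ℕ) (t : ℝ) (f : P) : DD a b (heat t f) = heat t (DD a b f) := by
  induction a generalizing b with
  | zero =>
    induction b with
    | zero => rw [DD_zero_zero, DD_zero_zero]
    | succ b ih => rw [← pderiv1_DD, ih, pderiv_heat, pderiv1_DD]
  | succ a ih => rw [← pderiv0_DD, ih, pderiv_heat, pderiv0_DD]

lemma DD_DD (a b a' b' : ℕ) (f : P) : DD a b (DD a' b' f) = DD (a + a') (b + b') f := by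
  induction a generalizing b with
  | zero =>
    induction b with
    | zero => rw [DD_zero_zero, Nat.zero_add, Nat.zero_add]
    | succ b ih =>
      rw [← pderiv1_DD, ih, pderiv1_DD]
      congr 1
      omega
  | succ a ih =>
    rw [← pderiv0_DD, ih, pderiv0_DD]
    congr 1
    omega

/-- `heat (-t) ((heat t w)²) = ∑ 2^|α| (-t)^|α| / α! (∂^α w)²`. -/
lemma heat_neg_sq {N : ℕ} {w : P} (hw : w.totalDegree < N) (t : ℝ) :
    heat (-t) (heat t w * heat t w) = ∑ a ∈ Finset.range N, ∑ b ∈ Finset.range N,
      C (cc a b * (-t) ^ (a + b)) * (DD a b w * DD a b w) := by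
  have hN : (heat t w).totalDegree < N := by
    have hmem : heat t w ∈ restrictTotalDegree (Fin 2) ℝ w.totalDegree := by
      apply heat_mem
      · intro i g hg
        rw [mem_restrictTotalDegree] at hg ⊢
        exact (totalDegree_pderiv_le i g).trans hg
      · rw [mem_restrictTotalDegree]
    rw [mem_restrictTotalDegree] at hmem
    omega
  rw [heat_mul hN hN]
  refine Finset.sum_congr rfl fun a _ => Finset.sum_congr rfl fun b _ => ?_
  rw [DD_heat, ← heat_add_time, neg_add_cancel, heat_zero]

/-- The squares of the derivatives are killed by the functional. -/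
lemma deriv_sq {W : Submodule ℝ P} (hD : ∀ i, ∀ g ∈ W, pderiv i g ∈ W) {L : P →ₗ[ℝ] ℝ}
    (hL : ∀ t : ℝ, 0 ≤ t → ∀ g ∈ W, 0 ≤ L (heat (-t) (g * g))) {w : P} (hw : w ∈ W) :
    ∀ a b, 1 ≤ a + b → L (DD a b w * DD a b w) = 0 := by
  have hpos : ∀ g ∈ W, 0 ≤ L (g * g) := by
    intro g hg
    have := hL 0 le_rfl g hg
    rwa [neg_zero, heat_zero] at this
  -- descending induction
  suffices h : ∀ m k, 1 ≤ k → k + m = 2 * (w.totalDegree + 1) →
      ∀ a b, k ≤ a + b → L (DD a b w * DD a b w) = 0 by
    exact h (2 * (w.totalDegree + 1) - 1) 1 le_rfl (by omega)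
  intro m
  induction m with
  | zero =>
    intro k _ hk a b hab
    have : DD a b w = 0 := by
      by_cases ha : w.totalDegree < a
      · exact DD_left_zero ha
      · exact DD_right_zero (by omega)
    rw [this, mul_zero, map_zero]
  | succ m ih =>
    intro k hk1 hk a b hab
    have ih' := ih (k + 1) (by omega) (by omega)
    rcases Nat.lt_or_ge k (a + b) with h | h
    · exact ih' a b (by omega)
    · have hab' : a + b = k := by omega
      -- the previous derivative
      have step : ∀ a' b', a' + b' + 1 = k →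
          L (DD (a' + 1) b' w * DD (a' + 1) b' w) = 0 ∧
          L (DD a' (b' + 1) w * DD a' (b' + 1) w) = 0 := by
        intro a' b' h'
        set u := DD a' b' w with hu
        have huW : u ∈ W := DD_mem hD hw a' b'
        set N := u.totalDegree + 2 with hN
        have h1 := hpos (DD (a' + 1) b' w) (DD_mem hD hw _ _)
        have h2 := hpos (DD a' (b' + 1) w) (DD_mem hD hw _ _)
        have key : ∀ t : ℝ, L (heat (-t) (heat t u * heat t u)) =
            L (u * u) - 2 * t * (L (DD (a' + 1) b' w * DD (a' + 1) b' w) +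
              L (DD a' (b' + 1) w * DD a' (b' + 1) w)) := by
          intro t
          rw [heat_neg_sq (N := N) (by omega), map_sum]
          have h3 : ∀ α β, L (C (cc α β * (-t) ^ (α + β)) * (DD α β u * DD α β u)) =
              cc α β * (-t) ^ (α + β) * L (DD (α + a') (β + b') w * DD (α + a') (β + b') w) := by
            intro α β
            rw [← smul_eq_C_mul, map_smul, smul_eq_mul, hu, DD_DD]
          simp only [map_sum, h3]
          have h4 : ∀ α β, 2 ≤ α + β →
              L (DD (α + a') (β + b') w * DD (α + a') (β + b') w) = 0 :=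
            fun α β hαβ => ih' _ _ (by omega)
          -- only `(0,0), (1,0), (0,1)` contribute
          rw [Finset.sum_eq_add_of_mem (a := 0) (b := 1) (Finset.mem_range.2 (by omega))
            (Finset.mem_range.2 (by omega)) (by omega)]
          · rw [Finset.sum_eq_add_of_mem (a := 0) (b := 1) (Finset.mem_range.2 (by omega))
              (Finset.mem_range.2 (by omega)) (by omega)]
            · rw [Finset.sum_eq_single 0]
              · simp only [cc, Nat.factorial_zero, Nat.factorial_one, hu, zero_add, add_zero,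
                  pow_zero, pow_one, Nat.cast_one, mul_one, div_one, one_mul, Nat.add_comm 1]
                ring
              · intro β _ hβ
                rw [h4 1 β (by omega), mul_zero]
              · intro h; exact absurd (Finset.mem_range.2 (by omega)) h
            · intro β _ hβ
              rw [h4 0 β (by omega), mul_zero]
          · intro α _ hα
            refine Finset.sum_eq_zero fun β _ => ?_
            rw [h4 α β (by omega), mul_zero]
        have h5 : ∀ t : ℝ, 0 ≤ t → 0 ≤ L (u * u) -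
            2 * t * (L (DD (a' + 1) b' w * DD (a' + 1) b' w) +
              L (DD a' (b' + 1) w * DD a' (b' + 1) w)) := by
          intro t ht
          rw [← key]
          exact hL t ht _ (heat_mem hD huW t)
        have h6 : L (DD (a' + 1) b' w * DD (a' + 1) b' w) +
              L (DD a' (b' + 1) w * DD a' (b' + 1) w) ≤ 0 := by
          by_contra hcon
          push Not at hcon
          set σ := L (DD (a' + 1) b' w * DD (a' + 1) b' w) +
              L (DD a' (b' + 1) w * DD a' (b' + 1) w) with hσ
          have h7 := h5 ((L (u * u) + 1) / σ) (div_nonneg (by linarith [hpos u huW]) hcon.le)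
          have h8 : 2 * ((L (u * u) + 1) / σ) * σ = 2 * (L (u * u) + 1) := by
            field_simp
          rw [h8] at h7
          linarith [hpos u huW]
        constructor <;> linarith
      rcases Nat.eq_zero_or_pos a with ha | ha
      · subst ha
        have := (step 0 (b - 1) (by omega)).2
        rwa [show b - 1 + 1 = b by omega] at this
      · have := (step (a - 1) b (by omega)).1
        rwa [show a - 1 + 1 = a by omega] at this

/-- generators of the cone -/
def SS (W : Submodule ℝ P) : Set P := {x | ∃ t : ℝ, 0 ≤ t ∧ ∃ g ∈ W, x = heat (-t) (g * g)}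

lemma isSumSq_of_mem_closure {W : Submodule ℝ P} {x : P} (hx : x ∈ AddSubmonoid.closure (SS W)) :
    ∃ t : ℝ, 0 ≤ t ∧ ∀ s ≥ t, IsSumSq (heat s x) := by
  induction hx using AddSubmonoid.closure_induction with
  | mem x hx =>
    obtain ⟨t, ht, g, hg, rfl⟩ := hx
    refine ⟨t, ht, fun s hs => ?_⟩
    rw [← heat_add_time]
    exact isSumSq_heat (by linarith) (IsSumSq.mul_self g)
  | zero =>
    refine ⟨0, le_rfl, fun s hs => isSumSq_heat hs IsSumSq.zero⟩
  | add x y _ _ hx hy =>
    obtain ⟨t, ht, h⟩ := hx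
    obtain ⟨t', ht', h'⟩ := hy
    refine ⟨max t t', le_max_of_le_left ht, fun s hs => ?_⟩
    rw [heat_add]
    exact (h s ((le_max_left _ _).trans hs)).add (h' s ((le_max_right _ _).trans hs))

theorem exists_functional (W : Submodule ℝ P) [FiniteDimensional ℝ W]
    (hD : ∀ i, ∀ g ∈ W, pderiv i g ∈ W) (f : P) (hf : f ∈ W * W) :
    (∃ t : ℝ, 0 ≤ t ∧ ∀ s ≥ t, IsSumSq (heat s f)) ∨
      ∃ L : P →ₗ[ℝ] ℝ, Fun W L ∧ L f ≤ 0 ∧ ∃ g ∈ W, L (g * g) ≠ 0 := by
  by_cases hfC : f ∈ AddSubmonoid.closure (SS W)
  · exact Or.inl (isSumSq_of_mem_closure hfC)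
  · right
    have hsq : ∀ g ∈ W, g * g ∈ AddSubmonoid.closure (SS W) := by
      intro g hg
      apply AddSubmonoid.subset_closure
      exact ⟨0, le_rfl, g, hg, by rw [neg_zero, heat_zero]⟩
    have : FiniteDimensional ℝ (W * W : Submodule ℝ P) := by
      rw [← Submodule.fg_iff_finiteDimensional]
      exact Submodule.FG.mul ((Submodule.fg_iff_finiteDimensional W).2 inferInstance)
        ((Submodule.fg_iff_finiteDimensional W).2 inferInstance)
    have hCV : ∀ x ∈ (AddSubmonoid.closure (SS W) : Set P), x ∈ W * W := by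
      intro x hx
      have : AddSubmonoid.closure (SS W) ≤ (W * W).toAddSubmonoid := by
        rw [AddSubmonoid.closure_le]
        rintro _ ⟨t, ht, g, hg, rfl⟩
        exact heat_mul_mem hD hg hg _
      exact this hx
    have hsm : ∀ r : ℝ, 0 ≤ r → ∀ x ∈ (AddSubmonoid.closure (SS W) : Set P),
        r • x ∈ (AddSubmonoid.closure (SS W) : Set P) := by
      intro r hr x hx
      induction hx using AddSubmonoid.closure_induction with
      | mem x hx =>
        obtain ⟨t, ht, g, hg, rfl⟩ := hx
        apply AddSubmonoid.subset_closure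
        refine ⟨t, ht, Real.sqrt r • g, W.smul_mem _ hg, ?_⟩
        rw [← heat_smul, smul_mul_smul_comm, Real.mul_self_sqrt hr]
      | zero => rw [smul_zero]; exact zero_mem _
      | add x y _ _ hx hy => rw [smul_add]; exact add_mem hx hy
    have hspan : W * W ≤ Submodule.span ℝ (AddSubmonoid.closure (SS W) : Set P) := by
      intro x hx
      refine Submodule.mul_induction_on hx ?_ (fun a b ha hb => add_mem ha hb)
      intro g hg h hh
      have e : g * h = (1 / 2 : ℝ) • ((g + h) * (g + h) - g * g - h * h) := by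
        have : (g + h) * (g + h) - g * g - h * h = (2 : ℝ) • (g * h) := by
          rw [smul_eq_C_mul, map_ofNat C 2]
          ring
        rw [this, smul_smul]
        norm_num
      rw [e]
      refine Submodule.smul_mem _ _ (sub_mem (sub_mem ?_ ?_) ?_)
      · exact Submodule.subset_span (hsq _ (add_mem hg hh))
      · exact Submodule.subset_span (hsq _ hg)
      · exact Submodule.subset_span (hsq _ hh)
    obtain ⟨L, h1, h2, x, hx, hLx⟩ := sep_submodule (W * W)
      (AddSubmonoid.closure (SS W) : Set P) hCV (zero_mem _) (fun x hx y hy => add_mem hx hy)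
      hsm hspan hf hfC
    · have hpos : ∀ t : ℝ, 0 ≤ t → ∀ g ∈ W, 0 ≤ L (heat (-t) (g * g)) := by
        intro t ht g hg
        exact h1 _ (AddSubmonoid.subset_closure ⟨t, ht, g, hg, rfl⟩)
      have hpos0 : ∀ g ∈ W, 0 ≤ L (g * g) := fun g hg => h1 _ (hsq g hg)
      refine ⟨L, ⟨hpos0, ?_⟩, h2, ?_⟩
      · intro i g hg h hh
        apply cs_of_pos hpos0 (hD i g hg) hh
        fin_cases i
        · have := deriv_sq hD hpos hg 1 0 (by norm_num)
          simpa [DD] using this
        · have := deriv_sq hD hpos hg 0 1 (by norm_num)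
          simpa [DD] using this
      · by_contra hcon
        push Not at hcon
        apply hLx
        refine Submodule.mul_induction_on hx ?_ ?_
        · intro g hg h hh
          exact cs_of_pos hpos0 hg hh (hcon g hg)
        · intro a b ha hb
          rw [map_add, ha, hb, add_zero]

end HF
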