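import Mathlib
import Pool.Agent.Hhelper20.HF.Core

/-!
The initial stage: all polynomials of total degree at most `d`.
-/

namespace HF

open Polynomial

namespace LocData

variable {K : Type*} [CommRing K] (D : LocData K)

lemma s_pow_mul_iota (a : ℝ) {k m : ℕ} (h : k ≤ m) :
    D.s ^ m * D.ι (C a * X ^ k) = D.ι (C a) * D.s ^ (m - k) := by
  have h1 : D.s ^ k * D.ι X ^ k = 1 := by rw [← mul_pow, D.hs, one_pow]
  rw [map_mul, map_pow]
  calc D.s ^ m * (D.ι (C a) * D.ι X ^ k) = D.ι (C a) * D.s ^ (m - k) * (D.s ^ k * D.ι X ^ k) := by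
        rw [← Nat.sub_add_cancel h, pow_add, Nat.add_sub_cancel]
        ring
    _ = _ := by rw [h1, mul_one]

lemma iota_mem_O_of_le {q : ℝ[X]} {m : ℕ} (h : q.natDegree ≤ m) : D.s ^ m * D.ι q ∈ D.O := by
  rw [q.as_sum_range' (m + 1) (by omega), map_sum, Finset.mul_sum]
  refine sum_mem fun k hk => ?_
  have hk' := Finset.mem_range.1 hk
  rw [← C_mul_X_pow_eq_monomial, D.s_pow_mul_iota _ (show k ≤ m by omega)]
  exact D.O.mul_mem (D.hC _) (D.O.pow_mem D.hsO _)

lemma iota_mem_O {q : ℝ[X]} {m : ℕ} : D.s ^ m * D.ι q ∈ D.O ↔ q.natDegree ≤ m := by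
  refine ⟨fun h => ?_, D.iota_mem_O_of_le⟩
  set r := q %ₘ X ^ (m + 1) with hr
  set q1 := q /ₘ X ^ (m + 1) with hq1
  have hq : r + X ^ (m + 1) * q1 = q := modByMonic_add_div q (X ^ (m + 1))
  have hrd : r.natDegree ≤ m := by
    have h1 := degree_modByMonic_lt q (monic_X_pow (R := ℝ) (m + 1))
    rw [degree_X_pow] at h1
    by_cases h0 : r = 0
    · rw [h0]; simp
    · have := (natDegree_lt_iff_degree_lt h0).2 h1
      omega
  have h2 : D.ι (X * q1) ∈ D.O := by
    have h3 : D.ι (X * q1) = D.s ^ m * D.ι q - D.s ^ m * D.ι r := by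
      have h1 : D.s ^ m * D.ι X ^ m = 1 := by rw [← mul_pow, D.hs, one_pow]
      calc D.ι (X * q1) = D.s ^ m * D.ι X ^ m * D.ι (X * q1) := by rw [h1, one_mul]
        _ = _ := by
          rw [← hq]
          simp only [map_add, map_mul, map_pow]
          ring
    rw [h3]
    exact D.O.sub_mem h (D.iota_mem_O_of_le hrd)
  obtain ⟨a, o, ho, e⟩ := D.k3 _ h2
  have h4 := D.k2 (X * q1 - C a) o ho (by rw [map_sub, e]; ring)
  have h5 : a = 0 := by
    have := congrArg (fun p => p.coeff 0) h4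
    simpa using this
  rw [h5, C_0, sub_zero] at h4
  have h6 : q1 = 0 := by
    rcases mul_eq_zero.1 h4 with h | h
    · exact absurd h X_ne_zero
    · exact h
  rw [← hq, h6, mul_zero, add_zero]
  exact hrd

lemma toPP_coeff (p : P) (j k : ℕ) :
    ((toPP p).coeff j).coeff k = p.coeff (Finsupp.single 0 j + Finsupp.single 1 k) := by
  induction p using MvPolynomial.induction_on' with
  | add p q hp hq => simp [hp, hq]
  | monomial u a =>
    have h1 : toPP (MvPolynomial.monomial u a) = monomial (u 0) (monomial (u 1) a) := by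
      rw [toPP, MvPolynomial.coe_eval₂Hom, MvPolynomial.eval₂_monomial,
        Finsupp.prod_fintype _ _ (by intro i; simp), Fin.prod_univ_two]
      simp only [RingHom.coe_comp, Function.comp_apply, Matrix.cons_val_zero, Matrix.cons_val_one]
      rw [← C_mul_X_pow_eq_monomial, ← C_mul_X_pow_eq_monomial, C_mul, C_pow]
      ring
    rw [h1, MvPolynomial.coeff_monomial, coeff_monomial]
    have h2 : (u = Finsupp.single 0 j + Finsupp.single 1 k) ↔ (u 0 = j ∧ u 1 = k) := by
      constructor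
      · rintro rfl
        simp
      · rintro ⟨h, h'⟩
        ext i
        fin_cases i
        · simp [h]
        · simp [h']
    by_cases h3 : u 0 = j
    · rw [if_pos h3, coeff_monomial]
      by_cases h4 : u 1 = k
      · rw [if_pos h4, if_pos (h2.2 ⟨h3, h4⟩)]
      · rw [if_neg h4, if_neg (fun h => h4 (h2.1 h).2)]
    · rw [if_neg h3, if_neg (fun h => h3 (h2.1 h).1), coeff_zero]

lemma φ_coeff' (p : P) (n : ℕ) : (D.φ p).coeff n = D.ι ((toPP p).coeff n) := by
  rw [φ_eq, coeff_map]

/-- the lattice of elements of degree at most `d`. -/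
def Λ0 (d : ℕ) : AddSubgroup K[X] where
  carrier := {g | g.natDegree ≤ d ∧ ∀ j ≤ d, D.s ^ (d - j) * g.coeff j ∈ D.O}
  zero_mem' := by simp [D.O.zero_mem]
  add_mem' := by
    rintro a b ⟨ha, ha'⟩ ⟨hb, hb'⟩
    refine ⟨(natDegree_add_le _ _).trans (max_le ha hb), fun j hj => ?_⟩
    rw [coeff_add, mul_add]
    exact D.O.add_mem (ha' j hj) (hb' j hj)
  neg_mem' := by
    rintro a ⟨ha, ha'⟩
    refine ⟨by rwa [natDegree_neg], fun j hj => ?_⟩
    rw [coeff_neg, mul_neg]
    exact D.O.neg_mem (ha' j hj)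

lemma φ_mem_Λ0 {d : ℕ} {p : P} : D.φ p ∈ D.Λ0 d ↔ p.totalDegree ≤ d := by
  constructor
  · rintro ⟨h1, h2⟩
    rw [MvPolynomial.totalDegree, Finset.sup_le_iff]
    intro m hm
    have hmc : p.coeff m ≠ 0 := MvPolynomial.mem_support_iff.1 hm
    have e : m = Finsupp.single 0 (m 0) + Finsupp.single 1 (m 1) := by
      ext i
      fin_cases i
      · simp
      · simp
    have hc : ((toPP p).coeff (m 0)).coeff (m 1) ≠ 0 := by
      rw [toPP_coeff, ← e]
      exact hmc
    have h3 : m 0 ≤ d := by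
      by_contra hcon
      push Not at hcon
      have h4 : (D.φ p).coeff (m 0) = 0 := coeff_eq_zero_of_natDegree_lt (lt_of_le_of_lt h1 hcon)
      rw [φ_coeff'] at h4
      have h5 := D.ι_injective (h4.trans (map_zero D.ι).symm)
      rw [h5] at hc
      simp at hc
    have h4 := h2 (m 0) h3
    rw [φ_coeff', D.iota_mem_O] at h4
    have h5 := le_natDegree_of_ne_zero hc
    rw [Finsupp.sum_fintype _ _ (by intro i; rfl), Fin.sum_univ_two]
    omega
  · intro h
    have hz : ∀ j k, d < j + k → ((toPP p).coeff j).coeff k = 0 := by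
      intro j k hjk
      rw [toPP_coeff]
      apply MvPolynomial.coeff_eq_zero_of_totalDegree_lt
      refine lt_of_le_of_lt h ?_
      have : (∑ i ∈ (Finsupp.single 0 j + Finsupp.single 1 k : Fin 2 →₀ ℕ).support,
          (Finsupp.single 0 j + Finsupp.single 1 k : Fin 2 →₀ ℕ) i) = j + k := by
        rw [Finset.sum_subset (Finset.subset_univ _)]
        · rw [Fin.sum_univ_two]
          simp
        · intro x _ hx
          simpa using hx
      rw [this]
      exact hjk
    refine ⟨?_, fun j hj => ?_⟩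
    · rw [natDegree_le_iff_coeff_eq_zero]
      intro j hj
      rw [φ_coeff']
      have : (toPP p).coeff j = 0 := by
        ext k
        rw [hz j k (by omega), coeff_zero]
      rw [this, map_zero]
    · rw [φ_coeff', D.iota_mem_O, natDegree_le_iff_coeff_eq_zero]
      intro k hk
      exact hz j k (by omega)

lemma totalDegree_pderiv_le (i : Fin 2) (p : P) :
    (MvPolynomial.pderiv i p).totalDegree ≤ p.totalDegree := by
  rw [MvPolynomial.totalDegree, Finset.sup_le_iff]
  intro m hm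
  have hmc : (MvPolynomial.pderiv i p).coeff m ≠ 0 := MvPolynomial.mem_support_iff.1 hm
  rw [MvPolynomial.coeff_pderiv] at hmc
  have h1 : p.coeff (m + Finsupp.single i 1) ≠ 0 := left_ne_zero_of_mul hmc
  have h2 := MvPolynomial.le_totalDegree (MvPolynomial.mem_support_iff.2 h1)
  rw [Finsupp.sum_fintype _ _ (by intro i; rfl)] at h2 ⊢
  refine le_trans ?_ h2
  refine Finset.sum_le_sum fun j _ => ?_
  simp

lemma stage0 {d : ℕ} {A B : K[X]} (hA : A ∈ D.Λ0 d) (hB : B ∈ D.Λ0 d) :
    D.Stage d A B (D.Λ0 d) := by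
  have := D.nontrivial
  refine ⟨?_, fun g hg => hg.1, ?_, hA, hB, ?_, ?_, ?_⟩
  · rintro c hc g ⟨hg, hg'⟩
    refine ⟨(natDegree_C_mul_le _ _).trans hg, fun j hj => ?_⟩
    rw [coeff_C_mul, mul_left_comm]
    exact D.O.mul_mem hc (hg' j hj)
  · rintro g ⟨hg, hg'⟩
    have := hg' d le_rfl
    simpa using this
  · intro i p hp
    rw [D.φ_mem_Λ0] at hp ⊢
    exact (totalDegree_pderiv_le i p).trans hp
  · rintro g ⟨hg, hg'⟩ h0
    have hmul : C D.s * X * g = C D.s * (X * g) := by ring
    rw [hmul]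
    refine ⟨?_, ?_⟩
    · rw [natDegree_le_iff_coeff_eq_zero]
      intro j hj
      obtain ⟨j', rfl⟩ : ∃ j', j = j' + 1 := ⟨j - 1, by omega⟩
      rw [coeff_C_mul, coeff_X_mul]
      have : g.coeff j' = 0 := by
        rcases (Nat.le_of_lt_succ hj).eq_or_lt with h | h
        · rw [← h, h0]
        · exact coeff_eq_zero_of_natDegree_lt (lt_of_le_of_lt hg h)
      rw [this, mul_zero]
    · intro j hj
      rcases j with _ | j
      · rw [coeff_C_mul, coeff_X_mul_zero, mul_zero, mul_zero]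
        exact D.O.zero_mem
      · rw [coeff_C_mul, coeff_X_mul]
        have h1 := hg' j (by omega)
        have : d - j = (d - (j + 1)) + 1 := by omega
        rw [this, pow_succ, mul_assoc] at h1
        exact h1
  · refine ⟨MvPolynomial.X 0 ^ d, ?_, ?_, ?_⟩
    · rw [D.φ_mem_Λ0]
      refine (MvPolynomial.totalDegree_pow _ _).trans ?_
      rw [MvPolynomial.totalDegree_X, mul_one]
    · rw [map_pow, φ_X0]
      exact monic_X_pow d
    · rw [map_pow, φ_X0, natDegree_X_pow]

lemma finite0 (d : ℕ) (h : ∀ c ∈ D.O, ∀ g ∈ D.Λ0 d, C c * g ∈ D.Λ0 d) :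
    FiniteDimensional ℝ (D.Wsub (D.Λ0 d) h) := by
  have : D.Wsub (D.Λ0 d) h = MvPolynomial.restrictTotalDegree (Fin 2) ℝ d := by
    ext p
    rw [MvPolynomial.mem_restrictTotalDegree]
    exact D.φ_mem_Λ0
  rw [this]
  infer_instance

end LocData

end HF
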