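import Mathlib
import Pool.Agent.Hhelper20.HF.Core

/-!
The local data for `K = ℝ((s))`, `s = 1/y`.
-/

namespace HF

open Polynomial

/-- `ℝ[y] → ℝ((s))`, `y ↦ s⁻¹`. -/
noncomputable def iotaL : ℝ[X] →+* LaurentSeries ℝ :=
  eval₂RingHom (HahnSeries.C : ℝ →+* LaurentSeries ℝ) (HahnSeries.single (-1 : ℤ) (1 : ℝ))

lemma iotaL_C (r : ℝ) : iotaL (C r) = HahnSeries.C r := by simp [iotaL]

lemma iotaL_X : iotaL X = HahnSeries.single (-1 : ℤ) (1 : ℝ) := by simp [iotaL]

lemma s_mul_iotaL_X : (HahnSeries.single (1 : ℤ) (1 : ℝ) : LaurentSeries ℝ) * iotaL X = 1 := by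
  rw [iotaL_X, HahnSeries.single_mul_single]
  simp

lemma iotaL_coeff (p : ℝ[X]) (k : ℕ) : (iotaL p).coeff (-(k : ℤ)) = p.coeff k := by
  induction p using Polynomial.induction_on' with
  | add p q hp hq => simp [hp, hq]
  | monomial n a =>
    have h : iotaL (monomial n a) = HahnSeries.single (-(n : ℤ)) a := by
      rw [← C_mul_X_pow_eq_monomial, map_mul, map_pow, iotaL_C, iotaL_X, HahnSeries.single_pow,
        HahnSeries.C_apply, HahnSeries.single_mul_single]
      simp
    rw [h, HahnSeries.coeff_single, coeff_monomial]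
    by_cases h' : n = k
    · simp [h']
    · have : -(k : ℤ) ≠ -(n : ℤ) := by
        intro e
        apply h'
        omega
      simp [h', this]

lemma ofPS_coeff_neg (g : PowerSeries ℝ) (k : ℕ) :
    (HahnSeries.ofPowerSeries ℤ ℝ (PowerSeries.X * g)).coeff (-(k : ℤ)) = 0 := by
  have := PowerSeries.coeff_coe (PowerSeries.X * g) (-(k : ℤ))
  rw [this]
  by_cases h : k = 0
  · subst h
    simp
  · have : -(k : ℤ) < 0 := by omega
    rw [if_pos this]

/-- The local data. -/
noncomputable def dataL : LocData (LaurentSeries ℝ) where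
  ι := iotaL
  O := (HahnSeries.ofPowerSeries ℤ ℝ).range
  s := HahnSeries.single 1 1
  hs := s_mul_iotaL_X
  hsO := ⟨PowerSeries.X, HahnSeries.ofPowerSeries_X⟩
  hC := fun r => ⟨PowerSeries.C r, by rw [HahnSeries.ofPowerSeries_C, iotaL_C]⟩
  k1 := by
    have k3 : ∀ o ∈ (HahnSeries.ofPowerSeries ℤ ℝ).range, ∃ r : ℝ,
        ∃ o' ∈ (HahnSeries.ofPowerSeries ℤ ℝ).range,
          o = iotaL (C r) + HahnSeries.single 1 1 * o' := by
      rintro _ ⟨g, rfl⟩
      refine ⟨PowerSeries.constantCoeff g, HahnSeries.ofPowerSeries ℤ ℝ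
        (PowerSeries.mk fun p => PowerSeries.coeff (p + 1) g), ⟨_, rfl⟩, ?_⟩
      conv_lhs => rw [PowerSeries.eq_X_mul_shift_add_const g]
      rw [map_add, map_mul, HahnSeries.ofPowerSeries_X, HahnSeries.ofPowerSeries_C, iotaL_C,
        add_comm]
    have key : ∀ (n : ℕ), ∀ g ∈ (HahnSeries.ofPowerSeries ℤ ℝ).range, ∃ p : ℝ[X],
        ∃ o ∈ (HahnSeries.ofPowerSeries ℤ ℝ).range,
          (iotaL X) ^ n * g = iotaL p + HahnSeries.single 1 1 * o := by
      intro n
      induction n with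
      | zero =>
        intro g hg
        obtain ⟨r, o, ho, h⟩ := k3 g hg
        exact ⟨C r, o, ho, by rw [pow_zero, one_mul, h]⟩
      | succ n ih =>
        intro g hg
        obtain ⟨r, o, ho, h⟩ := k3 g hg
        obtain ⟨p, o', ho', h'⟩ := ih o ho
        refine ⟨X ^ (n + 1) * C r + p, o', ho', ?_⟩
        have e : (iotaL X) ^ (n + 1) * (HahnSeries.single 1 1 * o) = (iotaL X) ^ n * o := by
          rw [pow_succ, mul_assoc, ← mul_assoc (iotaL X), mul_comm (iotaL X), s_mul_iotaL_X,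
            one_mul]
        rw [h, mul_add, e, h', map_add, map_mul, map_pow]
        ring
    intro c
    have hc := LaurentSeries.single_order_mul_powerSeriesPart c
    rcases le_or_gt 0 c.order with h0 | h0
    · obtain ⟨p, o, ho, h⟩ := key 0 c (by
        rw [← hc]
        refine Subring.mul_mem _ ⟨PowerSeries.X ^ c.order.toNat, ?_⟩ ⟨_, rfl⟩
        rw [map_pow, HahnSeries.ofPowerSeries_X, HahnSeries.single_pow]
        simp [Int.toNat_of_nonneg h0])
      exact ⟨p, o, ho, by rw [← h, pow_zero, one_mul]⟩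
    · obtain ⟨p, o, ho, h⟩ := key (-c.order).toNat _ (⟨c.powerSeriesPart, rfl⟩ :
        HahnSeries.ofPowerSeries ℤ ℝ c.powerSeriesPart ∈ (HahnSeries.ofPowerSeries ℤ ℝ).range)
      refine ⟨p, o, ho, ?_⟩
      rw [← h, iotaL_X, HahnSeries.single_pow]
      conv_lhs => rw [← hc]
      congr 2
      · simp [Int.toNat_of_nonneg (by omega : 0 ≤ -c.order)]
      · simp
  k2 := by
    rintro p _ ⟨g, rfl⟩ h
    ext k
    rw [← iotaL_coeff, h, ← HahnSeries.ofPowerSeries_X, ← map_mul, ofPS_coeff_neg, coeff_zero]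
  k3 := by
    rintro _ ⟨g, rfl⟩
    refine ⟨PowerSeries.constantCoeff g, HahnSeries.ofPowerSeries ℤ ℝ
      (PowerSeries.mk fun p => PowerSeries.coeff (p + 1) g), ⟨_, rfl⟩, ?_⟩
    conv_lhs => rw [PowerSeries.eq_X_mul_shift_add_const g]
    rw [map_add, map_mul, HahnSeries.ofPowerSeries_X, HahnSeries.ofPowerSeries_C, iotaL_C,
      add_comm]

end HF
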