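import Mathlib

/-!
# Newton-Puiseux for power series over the complex numbers
-/

namespace HF

open Polynomial

instance isAdicComplete_maximalIdeal :
    IsAdicComplete (IsLocalRing.maximalIdeal (PowerSeries ℂ)) (PowerSeries ℂ) := by
  rw [PowerSeries.maximalIdeal_eq_span_X]
  infer_instance

lemma mem_maximalIdeal_iff (a : PowerSeries ℂ) :
    a ∈ IsLocalRing.maximalIdeal (PowerSeries ℂ) ↔ PowerSeries.constantCoeff a = 0 := by
  rw [PowerSeries.maximalIdeal_eq_span_X, Ideal.mem_span_singleton, PowerSeries.X_dvd_iff]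

/-- Hensel step: the distinguished factor of a monic polynomial over `ℂ⟦X⟧`. -/
lemma exists_factor (g : (PowerSeries ℂ)[X]) (k : ℕ)
    (hk : ∀ i < k, PowerSeries.constantCoeff (g.coeff i) = 0)
    (hk' : PowerSeries.constantCoeff (g.coeff k) ≠ 0) :
    ∃ G : (PowerSeries ℂ)[X], G.Monic ∧ G.natDegree = k ∧ G ∣ g := by
  have hres : ∀ a : PowerSeries ℂ, IsLocalRing.residue (PowerSeries ℂ) a = 0 ↔
      PowerSeries.constantCoeff a = 0 := fun a => by
    rw [IsLocalRing.residue_eq_zero_iff, mem_maximalIdeal_iff]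
  have hord : ((g : PowerSeries (PowerSeries ℂ)).map
      (IsLocalRing.residue (PowerSeries ℂ))).order = k := by
    rw [PowerSeries.order_eq_nat]
    constructor
    · rw [PowerSeries.coeff_map, Polynomial.coeff_coe, Ne, hres]
      exact hk'
    · intro i hi
      rw [PowerSeries.coeff_map, Polynomial.coeff_coe, hres]
      exact hk i hi
  have hne : (g : PowerSeries (PowerSeries ℂ)).map (IsLocalRing.residue (PowerSeries ℂ)) ≠ 0 := by
    intro h
    rw [h, PowerSeries.order_zero] at hord
    exact absurd hord (by simp)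
  obtain ⟨G, h, H⟩ := PowerSeries.exists_isWeierstrassFactorization hne
  have hdeg : G.natDegree = k := by
    rw [H.natDegree_eq_toNat_order_map, hord]
    rfl
  have hmon : G.Monic := H.isDistinguishedAt.monic
  refine ⟨G, hmon, hdeg, ?_⟩
  have hordG : ((G : PowerSeries (PowerSeries ℂ)).map
      (Ideal.Quotient.mk (IsLocalRing.maximalIdeal (PowerSeries ℂ)))).order.toNat = G.natDegree := by
    have := congrArg ENat.toNat (H.isDistinguishedAt.coe_natDegree_eq_order_map
      (G : PowerSeries (PowerSeries ℂ)) 1 (by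
        rw [map_one, ← Ideal.ne_top_iff_one]
        exact Ideal.IsMaximal.ne_top inferInstance) (by simp))
    rw [← this]
    rfl
  have hdiv : PowerSeries.IsWeierstrassDivisorAt (G : PowerSeries (PowerSeries ℂ))
      (IsLocalRing.maximalIdeal (PowerSeries ℂ)) := H.isDistinguishedAt.isWeierstrassDivisorAt'
  have hlt : (g %ₘ G).degree < ((G : PowerSeries (PowerSeries ℂ)).map
      (Ideal.Quotient.mk (IsLocalRing.maximalIdeal (PowerSeries ℂ)))).order.toNat := by
    rw [hordG, ← Polynomial.degree_eq_natDegree hmon.ne_zero]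
    exact Polynomial.degree_modByMonic_lt _ hmon
  have key := hdiv.eq_of_mul_add_eq_mul_add (q := ((g /ₘ G : (PowerSeries ℂ)[X]) :
      PowerSeries (PowerSeries ℂ))) (q' := h) (r := g %ₘ G) (r' := 0) hlt (by
        rw [Polynomial.degree_zero]
        exact WithBot.bot_lt_coe _) (by
        rw [← H.eq_mul, Polynomial.coe_zero, add_zero, ← Polynomial.coe_mul,
          ← Polynomial.coe_add, add_comm, Polynomial.modByMonic_add_div])
  rw [← Polynomial.modByMonic_eq_zero_iff_dvd hmon]
  exact key.2

/-- the ring homomorphism `expand` -/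
noncomputable abbrev ex (n : ℕ) (hn : n ≠ 0) : PowerSeries ℂ →+* PowerSeries ℂ :=
  (PowerSeries.expand (R := ℂ) n hn).toRingHom

/-- the polynomial has a root after an expansion -/
def HasRt (g : (PowerSeries ℂ)[X]) : Prop :=
  ∃ (n : ℕ) (hn : n ≠ 0) (a : PowerSeries ℂ), (g.map (ex n hn)).eval a = 0

lemma HasRt.of_dvd {g G : (PowerSeries ℂ)[X]} (h : G ∣ g) (hG : HasRt G) : HasRt g := by
  obtain ⟨q, rfl⟩ := h
  obtain ⟨n, hn, a, ha⟩ := hG
  exact ⟨n, hn, a, by rw [Polynomial.map_mul, eval_mul, ha, zero_mul]⟩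

lemma HasRt.of_comp {g : (PowerSeries ℂ)[X]} {c : PowerSeries ℂ} (h : HasRt (g.comp (X + C c))) :
    HasRt g := by
  obtain ⟨n, hn, a, ha⟩ := h
  refine ⟨n, hn, a + ex n hn c, ?_⟩
  rw [Polynomial.map_comp, eval_comp] at ha
  rw [← ha]
  congr 1
  simp

lemma HasRt.of_scale {g g' : (PowerSeries ℂ)[X]} {e : ℕ} (he : e ≠ 0) {a b : PowerSeries ℂ}
    (h : (g.map (ex e he)).comp (C a * X) = C b * g') (h' : HasRt g') : HasRt g := by
  obtain ⟨n, hn, z, hz⟩ := h'
  refine ⟨n * e, Nat.mul_ne_zero hn he, ex n hn a * z, ?_⟩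
  have h1 : g.map (ex (n * e) (Nat.mul_ne_zero hn he)) = (g.map (ex e he)).map (ex n hn) := by
    rw [Polynomial.map_map]
    congr 1
    ext1 φ
    exact PowerSeries.expand_mul n hn e he φ
  have h2 := congrArg (fun p : (PowerSeries ℂ)[X] => (p.map (ex n hn)).eval z) h
  simp only [Polynomial.map_comp, eval_comp, Polynomial.map_mul, eval_mul, hz, mul_zero,
    Polynomial.map_C, Polynomial.map_X, eval_C, eval_X] at h2
  rw [h1]
  exact h2

/-- reduction modulo the maximal ideal -/
noncomputable abbrev red (g : (PowerSeries ℂ)[X]) : ℂ[X] :=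
  g.map (PowerSeries.constantCoeff (R := ℂ))

/-- if the reduction is not a power of a linear polynomial, use the Hensel step. -/
lemma HasRt.of_red {g : (PowerSeries ℂ)[X]} (hg : g.Monic) (hd : 2 ≤ g.natDegree)
    (h0 : (red g).coeff (g.natDegree - 1) = 0) {i : ℕ} (hi : i < g.natDegree)
    (hi' : (red g).coeff i ≠ 0)
    (ih : ∀ G : (PowerSeries ℂ)[X], G.Monic → 0 < G.natDegree → G.natDegree < g.natDegree →
      HasRt G) : HasRt g := by
  set P := red g with hP
  have hPm : P.Monic := hg.map _
  have hPd : P.natDegree = g.natDegree := hg.natDegree_map _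
  have hP0 : P ≠ 0 := hPm.ne_zero
  obtain ⟨z0, hz0⟩ := IsAlgClosed.exists_root P (by
    rw [Polynomial.degree_eq_natDegree hP0, hPd]
    intro h
    have : g.natDegree = 0 := by exact_mod_cast h
    omega)
  set k := P.rootMultiplicity z0 with hk
  have hkpos : 0 < k := (Polynomial.rootMultiplicity_pos hP0).mpr hz0
  obtain ⟨Q, hQ, hQ'⟩ := Polynomial.exists_eq_pow_rootMultiplicity_mul_and_not_dvd P hP0 z0
  rw [← hk] at hQ
  have hQ0 : Q.eval z0 ≠ 0 := by
    intro h
    exact hQ' (Polynomial.dvd_iff_isRoot.mpr h)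
  have hQm : Q.Monic := by
    have := hPm
    rw [hQ] at this
    exact (Polynomial.monic_X_sub_C z0).pow k |>.of_mul_monic_left this
  have hdeg : g.natDegree = k + Q.natDegree := by
    rw [← hPd, hQ, ((Polynomial.monic_X_sub_C z0).pow k).natDegree_mul hQm,
      (Polynomial.monic_X_sub_C z0).natDegree_pow, Polynomial.natDegree_X_sub_C, mul_one]
  have hklt : k < g.natDegree := by
    by_contra hcon
    have hk' : Q.natDegree = 0 := by omega
    have hkm : k = g.natDegree := by omega
    have hQ1 : Q = 1 := hQm.natDegree_eq_zero.mp hk'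
    rw [hQ1, mul_one] at hQ
    have h1 := h0
    rw [hQ, sub_eq_add_neg, ← map_neg, Polynomial.coeff_X_add_C_pow, hkm] at h1
    have h2 : g.natDegree - (g.natDegree - 1) = 1 := by omega
    rw [h2, pow_one] at h1
    have h3 : (g.natDegree.choose (g.natDegree - 1) : ℂ) ≠ 0 := by
      rw [Nat.cast_ne_zero]
      exact (Nat.choose_pos (by omega)).ne'
    have h4 : z0 = 0 := by
      rcases mul_eq_zero.mp h1 with h | h
      · exact neg_eq_zero.mp h
      · exact absurd h h3
    rw [h4, map_zero, sub_zero] at hQ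
    apply hi'
    rw [hQ, Polynomial.coeff_X_pow, if_neg (by omega)]
  -- translate
  apply HasRt.of_comp (c := PowerSeries.C z0)
  have hred : red (g.comp (X + C (PowerSeries.C z0))) = P.comp (X + C z0) := by
    rw [red, Polynomial.map_comp]
    congr 1
    simp
  have hcomp : P.comp (X + C z0) = X ^ k * Q.comp (X + C z0) := by
    conv_lhs => rw [hQ]
    rw [Polynomial.mul_comp, Polynomial.pow_comp, Polynomial.sub_comp, Polynomial.X_comp,
      Polynomial.C_comp]
    congr 2
    ring
  have hcoeff : ∀ j, PowerSeries.constantCoeff ((g.comp (X + C (PowerSeries.C z0))).coeff j) =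
      (X ^ k * Q.comp (X + C z0)).coeff j := by
    intro j
    rw [← hcomp, ← hred, Polynomial.coeff_map]
  obtain ⟨G, hG1, hG2, hG3⟩ := exists_factor (g.comp (X + C (PowerSeries.C z0))) k (by
    intro j hj
    rw [hcoeff, Polynomial.coeff_X_pow_mul', if_neg (by omega)]) (by
    rw [hcoeff, Polynomial.coeff_X_pow_mul', if_pos le_rfl, Nat.sub_self,
      Polynomial.coeff_zero_eq_eval_zero, Polynomial.eval_comp]
    simpa using hQ0)
  exact HasRt.of_dvd hG3 (ih G hG1 (by omega) (by omega))

lemma HasRt.of_tsch {g : (PowerSeries ℂ)[X]} (hg : g.Monic) (hd2 : 2 ≤ g.natDegree)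
    (h0 : g.coeff (g.natDegree - 1) = 0)
    (ih : ∀ G : (PowerSeries ℂ)[X], G.Monic → 0 < G.natDegree → G.natDegree < g.natDegree →
      HasRt G) : HasRt g := by
  classical
  set m := g.natDegree with hm
  by_cases hall : ∀ i < m, g.coeff i = 0
  · refine ⟨1, one_ne_zero, 0, ?_⟩
    rw [← Polynomial.coeff_zero_eq_eval_zero, Polynomial.coeff_map, hall 0 (by omega), map_zero]
  push Not at hall
  set S := (Finset.range m).filter (fun i => g.coeff i ≠ 0) with hS
  have hSne : S.Nonempty := by
    obtain ⟨i, hi, hi'⟩ := hall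
    exact ⟨i, by rw [hS, Finset.mem_filter, Finset.mem_range]; exact ⟨hi, hi'⟩⟩
  obtain ⟨i0, hi0, hmin⟩ := Finset.exists_min_image S
    (fun i => ((g.coeff i).order.toNat : ℚ) / ((m : ℚ) - i)) hSne
  rw [hS, Finset.mem_filter, Finset.mem_range] at hi0
  obtain ⟨hi0m, hi0c⟩ := hi0
  set e := m - i0 with he
  set r := (g.coeff i0).order.toNat with hr
  have hepos : 0 < e := by omega
  have hecast : ((m : ℚ) - i0) = e := by
    rw [he, Nat.cast_sub hi0m.le]
  have hmin' : ∀ i < m, g.coeff i ≠ 0 → r * (m - i) ≤ e * (g.coeff i).order.toNat := by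
    intro i hi hi'
    have h1 := hmin i (by rw [hS, Finset.mem_filter, Finset.mem_range]; exact ⟨hi, hi'⟩)
    rw [hecast, ← Nat.cast_sub hi.le, div_le_div_iff₀ (by exact_mod_cast hepos)
      (by exact_mod_cast (by omega : 0 < m - i))] at h1
    have h2 : ((r * (m - i) : ℕ) : ℚ) ≤ ((e * (g.coeff i).order.toNat : ℕ) : ℚ) := by
      push_cast [Nat.cast_sub hi.le]
      push_cast [Nat.cast_sub hi.le] at h1
      linarith
    exact_mod_cast h2
  have hdiv : ∀ i, ∃ d : PowerSeries ℂ, i < m →
      ex e hepos.ne' (g.coeff i) = PowerSeries.X ^ (r * (m - i)) * d := by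
    intro i
    by_cases hi : i < m
    · by_cases hc : g.coeff i = 0
      · exact ⟨0, fun _ => by rw [hc, map_zero, mul_zero]⟩
      · have h1 : PowerSeries.X ^ (r * (m - i)) ∣ ex e hepos.ne' (g.coeff i) := by
          rw [PowerSeries.X_pow_dvd_iff]
          intro j hj
          show PowerSeries.coeff j (PowerSeries.expand e hepos.ne' (g.coeff i)) = 0
          rw [PowerSeries.coeff_expand]
          split_ifs with hej
          · apply PowerSeries.coeff_of_lt_order_toNat
            have h2 := hmin' i hi hc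
            rw [Nat.div_lt_iff_lt_mul hepos, mul_comm]
            omega
          · rfl
        obtain ⟨d, hd⟩ := h1
        exact ⟨d, fun _ => hd⟩
    · exact ⟨0, fun h => absurd h hi⟩
  choose d hd using hdiv
  set L : (PowerSeries ℂ)[X] := ∑ i ∈ Finset.range m, Polynomial.monomial i (d i) with hL
  have hLc : ∀ j, L.coeff j = if j < m then d j else 0 := by
    intro j
    rw [hL, Polynomial.finsetSum_coeff]
    simp only [Polynomial.coeff_monomial]
    rw [Finset.sum_ite_eq']
    simp only [Finset.mem_range]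
  have hLd : L.degree < m := by
    rw [Polynomial.degree_lt_iff_coeff_zero]
    intro j hj
    rw [hLc, if_neg (by omega)]
  have hg'm : (X ^ m + L).Monic := Polynomial.monic_X_pow_add hLd
  have hg'd : (X ^ m + L).natDegree = m := by
    rw [Polynomial.natDegree_add_eq_left_of_degree_lt (by rw [Polynomial.degree_X_pow]; exact hLd),
      Polynomial.natDegree_X_pow]
  have hg'c : ∀ j, (X ^ m + L).coeff j = if j < m then d j else if j = m then 1 else 0 := by
    intro j
    rw [Polynomial.coeff_add, hLc, Polynomial.coeff_X_pow]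
    rcases lt_trichotomy j m with h | h | h
    · simp [h, h.ne]
    · simp [h]
    · simp [h.not_gt, h.ne']
  have hscale : (g.map (ex e hepos.ne')).comp (C (PowerSeries.X ^ r) * X) =
      C (PowerSeries.X ^ (r * m)) * (X ^ m + L) := by
    ext1 j
    rw [Polynomial.comp_C_mul_X_coeff, Polynomial.coeff_C_mul, hg'c, Polynomial.coeff_map]
    rcases lt_trichotomy j m with h | h | h
    · rw [if_pos h, hd j h]
      have h1 : r * m = r * (m - j) + r * j := by
        rw [← Nat.mul_add]
        congr 1
        omega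
      rw [h1, pow_add, ← pow_mul]
      ring
    · rw [if_neg (by omega), if_pos h, h, hm, hg.coeff_natDegree, map_one, one_mul, mul_one,
        ← pow_mul]
    · rw [if_neg (by omega), if_neg (by omega), Polynomial.coeff_eq_zero_of_natDegree_lt h,
        map_zero, zero_mul, mul_zero]
  apply HasRt.of_scale hepos.ne' hscale
  apply HasRt.of_red hg'm (by rw [hg'd]; exact hd2) (i := i0) ?_ (by rw [hg'd]; exact hi0m) ?_
  · intro G hG1 hG2 hG3
    rw [hg'd] at hG3
    exact ih G hG1 hG2 hG3
  · rw [Polynomial.coeff_map, hg'd, hg'c, if_pos (by omega)]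
    have h1 := hd (m - 1) (by omega)
    rw [h0, map_zero, eq_comm, mul_eq_zero] at h1
    rcases h1 with h1 | h1
    · exact absurd h1 (pow_ne_zero _ PowerSeries.X_ne_zero)
    · rw [h1, map_zero]
  · rw [Polynomial.coeff_map, hg'c, if_pos hi0m]
    intro hcon
    have h1 := hd i0 hi0m
    rw [← he] at h1
    have h2 := congrArg (PowerSeries.coeff (r * e)) h1
    have h3 : PowerSeries.coeff (r * e) (ex e hepos.ne' (g.coeff i0)) =
        PowerSeries.coeff r (g.coeff i0) := by
      show PowerSeries.coeff (r * e) (PowerSeries.expand e hepos.ne' (g.coeff i0)) = _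
      rw [mul_comm r e, PowerSeries.coeff_expand_mul]
    rw [h3, PowerSeries.coeff_X_pow_mul', if_pos le_rfl, Nat.sub_self,
      PowerSeries.coeff_zero_eq_constantCoeff_apply, hcon] at h2
    exact PowerSeries.coeff_order hi0c h2

/-- **Newton-Puiseux** -/
theorem newton_puiseux_aux (m : ℕ) : ∀ g : (PowerSeries ℂ)[X], g.Monic → g.natDegree = m →
    0 < m → HasRt g := by
  induction m using Nat.strong_induction_on with
  | _ m ih =>
    intro g hg hgm hm
    rcases Nat.lt_or_ge 1 m with hm1 | hm1
    swap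
    · -- degree one
      have h1 : m = 1 := by omega
      have h2 : g = X + C (g.coeff 0) := by
        have := hg.as_sum
        rw [hgm, h1, Finset.sum_range_one, pow_one, pow_zero, mul_one] at this
        exact this
      refine ⟨1, one_ne_zero, ex 1 one_ne_zero (-(g.coeff 0)), ?_⟩
      conv_lhs => rw [h2]
      simp
    · set t : PowerSeries ℂ := PowerSeries.C ((m : ℂ)⁻¹) * g.coeff (m - 1) with ht
      have hmt : (m : PowerSeries ℂ) * t = g.coeff (m - 1) := by
        have e1 : (m : PowerSeries ℂ) = PowerSeries.C (m : ℂ) := (map_natCast _ _).symm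
        rw [ht, ← mul_assoc, e1, ← map_mul, mul_inv_cancel₀ (by
          rw [Nat.cast_ne_zero]; omega), map_one, one_mul]
      apply HasRt.of_comp (c := -t)
      have hmon : (g.comp (X + C (-t))).Monic := hg.comp_X_add_C _
      have hdeg : (g.comp (X + C (-t))).natDegree = m := by
        rw [Polynomial.natDegree_comp, Polynomial.natDegree_X_add_C, mul_one, hgm]
      apply HasRt.of_tsch hmon (by omega)
      · rw [hdeg, ← Polynomial.taylor_apply, Polynomial.taylor_coeff]
        have h3 : ((Polynomial.hasseDeriv (m - 1)) g).natDegree < 2 := by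
          have := Polynomial.natDegree_hasseDeriv_le g (m - 1)
          omega
        rw [Polynomial.eval_eq_sum_range' h3, Finset.sum_range_succ, Finset.sum_range_one,
          Polynomial.hasseDeriv_coeff, Polynomial.hasseDeriv_coeff, zero_add, Nat.choose_self,
          show 1 + (m - 1) = m by omega, ← hgm, hg.coeff_natDegree, hgm]
        have h4 : m.choose (m - 1) = m := by
          rw [Nat.choose_symm_of_eq_add (show m = (m - 1) + 1 by omega), Nat.choose_one_right]
        rw [h4, Nat.cast_one, one_mul, pow_zero, mul_one, mul_one, pow_one, ← hmt]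
        ring
      · intro G hG1 hG2 hG3
        rw [hdeg] at hG3
        exact ih _ hG3 G hG1 rfl hG2

end HF

open Polynomial in
/-- MODULE A -/
theorem HF.newton_puiseux (g : (PowerSeries ℂ)[X]) (hg : g.Monic) (hd : 0 < g.natDegree) :
    ∃ (n : ℕ) (hn : n ≠ 0) (a : PowerSeries ℂ),
      (g.map (PowerSeries.expand (R := ℂ) n hn).toRingHom).eval a = 0 :=
  HF.newton_puiseux_aux g.natDegree g hg rfl hd
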