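import Mathlib
import Pool.Agent.Hhelper20.HF.Defs
import Pool.Agent.Hhelper20.HF.Puiseux

/-!
Module B of MP_0e580c_ag: a monic `F ∈ ℝ[s][ξ]` which is non-negative on `ℝ²` is a sum of two
squares in `ℝ⟦s⟧[ξ]`.
-/

open Polynomial

namespace HF.TwoSq

/-- the inclusion `ℝ⟦s⟧ → ℂ⟦s⟧` -/
noncomputable abbrev inc : PowerSeries ℝ →+* PowerSeries ℂ := PowerSeries.map Complex.ofRealHom

/-- coefficientwise complex conjugation -/
noncomputable abbrev cj : PowerSeries ℂ →+* PowerSeries ℂ := PowerSeries.map (starRingEnd ℂ)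

/-- `σ ↦ σⁿ` -/
noncomputable abbrev ex (n : ℕ) (hn : n ≠ 0) : PowerSeries ℂ →+* PowerSeries ℂ :=
  (PowerSeries.expand (R := ℂ) n hn).toRingHom

/-- `σ ↦ w σ` -/
noncomputable abbrev rs (w : ℂ) : PowerSeries ℂ →+* PowerSeries ℂ := PowerSeries.rescale w

lemma coeff_cj (φ : PowerSeries ℂ) (k : ℕ) :
    PowerSeries.coeff k (cj φ) = (starRingEnd ℂ) (PowerSeries.coeff k φ) := by
  simp

lemma coeff_ex (n : ℕ) (hn : n ≠ 0) (φ : PowerSeries ℂ) (k : ℕ) :
    PowerSeries.coeff k (ex n hn φ) = if n ∣ k then PowerSeries.coeff (k / n) φ else 0 :=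
  PowerSeries.coeff_expand n hn φ

lemma coeff_rs (w : ℂ) (φ : PowerSeries ℂ) (k : ℕ) :
    PowerSeries.coeff k (rs w φ) = w ^ k * PowerSeries.coeff k φ :=
  PowerSeries.coeff_rescale _ _ _

lemma cj_cj (φ : PowerSeries ℂ) : cj (cj φ) = φ := by
  ext k
  simp

lemma cj_comp_cj : cj.comp cj = RingHom.id _ := RingHom.ext cj_cj

lemma cj_rs (w : ℂ) (φ : PowerSeries ℂ) : cj (rs w φ) = rs ((starRingEnd ℂ) w) (cj φ) := by
  ext k
  simp

lemma rs_rs (w v : ℂ) (φ : PowerSeries ℂ) : rs w (rs v φ) = rs (w * v) φ := by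
  ext k
  simp [mul_pow, mul_assoc]

lemma rs_one (φ : PowerSeries ℂ) : rs 1 φ = φ := by
  ext k
  simp

lemma cj_ex (n : ℕ) (hn : n ≠ 0) (φ : PowerSeries ℂ) : cj (ex n hn φ) = ex n hn (cj φ) := by
  ext k
  rw [coeff_cj, coeff_ex, coeff_ex]
  split_ifs <;> simp

lemma rs_ex (n : ℕ) (hn : n ≠ 0) (w : ℂ) (φ : PowerSeries ℂ) :
    rs w (ex n hn φ) = ex n hn (rs (w ^ n) φ) := by
  ext k
  rw [coeff_rs, coeff_ex, coeff_ex]
  split_ifs with h
  · obtain ⟨j, rfl⟩ := h
    rw [coeff_rs, Nat.mul_div_cancel_left _ (Nat.pos_of_ne_zero hn), pow_mul]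
  · simp

lemma cj_injective : Function.Injective cj := fun a b h => by
  rw [← cj_cj a, h, cj_cj]

lemma ex_injective (n : ℕ) (hn : n ≠ 0) : Function.Injective (ex n hn) := fun a b h => by
  ext k
  have := congrArg (PowerSeries.coeff (n * k)) h
  rw [coeff_ex, coeff_ex, if_pos (dvd_mul_right _ _), if_pos (dvd_mul_right _ _),
    Nat.mul_div_cancel_left _ (Nat.pos_of_ne_zero hn)] at this
  exact this

lemma rs_injective {w : ℂ} (hw : w ≠ 0) : Function.Injective (rs w) :=
  PowerSeries.rescale_injective hw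

lemma inc_injective : Function.Injective inc := fun a b h => by
  ext k
  have := congrArg (PowerSeries.coeff k) h
  simpa using this

/-- every real root of every ramified pull-back has even multiplicity -/
def EM (F : (PowerSeries ℂ)[X]) : Prop :=
  ∀ (n : ℕ) (hn : n ≠ 0) (b : PowerSeries ℂ) (w : ℂ), w ^ n = 1 → cj b = rs w b →
    Even (rootMultiplicity b (F.map (ex n hn)))

lemma mult_cj (G : (PowerSeries ℂ)[X]) {n : ℕ} (hn : n ≠ 0) {b : PowerSeries ℂ} {w : ℂ}
    (hw : w ^ n = 1) (hb : cj b = rs w b) :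
    rootMultiplicity b ((G.map cj).map (ex n hn)) = rootMultiplicity b (G.map (ex n hn)) := by
  have hw0 : w ≠ 0 := by
    rintro rfl
    rw [zero_pow hn] at hw
    exact zero_ne_one hw
  rw [Polynomial.eq_rootMultiplicity_map (rs_injective hw0) b,
    Polynomial.eq_rootMultiplicity_map cj_injective b (p := G.map (ex n hn)), hb]
  congr 1
  rw [Polynomial.map_map, Polynomial.map_map, Polynomial.map_map]
  congr 1
  refine RingHom.ext fun φ => ?_
  simp only [RingHom.comp_apply]
  rw [rs_ex, hw, rs_one, cj_ex]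

lemma EM.of_mul {F G F₁ : (PowerSeries ℂ)[X]} (hF : EM F) (hF0 : F ≠ 0)
    (h : F = G * G.map cj * F₁) : EM F₁ := by
  intro n hn b w hw hb
  have h1 := hF n hn b w hw hb
  have hne : F.map (ex n hn) ≠ 0 := by
    rwa [Ne, Polynomial.map_eq_zero_iff (ex_injective n hn)]
  rw [h, Polynomial.map_mul, Polynomial.map_mul] at h1 hne
  rw [rootMultiplicity_mul hne, rootMultiplicity_mul (left_ne_zero_of_mul hne),
    mult_cj G hn hw hb, ← two_mul] at h1
  exact (Nat.even_add.mp h1).mp (even_two_mul _)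

/-- descent of polynomials invariant under `κ` -/
lemma exists_ex_of_inv {n : ℕ} (hn : n ≠ 0) {z : ℂ} (hz : IsPrimitiveRoot z n)
    (g : (PowerSeries ℂ)[X]) (hg : g.Monic) (hinv : g.map (rs z) = g) :
    ∃ G : (PowerSeries ℂ)[X], G.Monic ∧ G.map (ex n hn) = g := by
  have key : ∀ j, ∃ c : PowerSeries ℂ, ex n hn c = g.coeff j := by
    intro j
    have h1 : rs z (g.coeff j) = g.coeff j := by
      conv_rhs => rw [← hinv]
      rw [Polynomial.coeff_map]
    refine ⟨PowerSeries.mk fun k => PowerSeries.coeff (n * k) (g.coeff j), ?_⟩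
    ext k
    rw [coeff_ex]
    split_ifs with h
    · obtain ⟨i, rfl⟩ := h
      rw [Nat.mul_div_cancel_left _ (Nat.pos_of_ne_zero hn), PowerSeries.coeff_mk]
    · have h2 := congrArg (PowerSeries.coeff k) h1
      rw [coeff_rs] at h2
      have h3 : (z ^ k - 1) * PowerSeries.coeff k (g.coeff j) = 0 := by
        rw [sub_mul, h2, one_mul, sub_self]
      rcases mul_eq_zero.mp h3 with h4 | h4
      · exact absurd ((hz.pow_eq_one_iff_dvd k).mp (sub_eq_zero.mp h4)) h
      · exact h4.symm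
  have hlift : g ∈ Polynomial.lifts (ex n hn) := by
    rw [Polynomial.lifts_iff_coeff_lifts]
    intro j
    obtain ⟨c, hc⟩ := key j
    exact ⟨c, hc⟩
  obtain ⟨G, hG, hG1, hG2⟩ := Polynomial.lifts_and_degree_eq_and_monic hlift hg
  exact ⟨G, hG2, hG⟩

open Classical in
lemma exists_factor {F : (PowerSeries ℂ)[X]} (hF : F.Monic) (hreal : F.map cj = F) (hEM : EM F)
    (hd : 0 < F.natDegree) :
    ∃ G : (PowerSeries ℂ)[X], G.Monic ∧ 0 < G.natDegree ∧ G * G.map cj ∣ F := by
  obtain ⟨n, hn, a, ha⟩ := HF.newton_puiseux F hF hd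
  change (F.map (ex n hn)).eval a = 0 at ha
  set F' := F.map (ex n hn) with hF'
  have hF'm : F'.Monic := hF.map _
  have hF'0 : F' ≠ 0 := hF'm.ne_zero
  obtain ⟨z, hz⟩ : ∃ z : ℂ, IsPrimitiveRoot z n := ⟨_, Complex.isPrimitiveRoot_exp n hn⟩
  have hzn : z ^ n = 1 := hz.pow_eq_one
  have hz0 : z ≠ 0 := hz.ne_zero hn
  have hznorm : (starRingEnd ℂ) z * z = 1 := by
    rw [mul_comm, Complex.mul_conj, Complex.normSq_eq_norm_sq, hz.norm'_eq_one hn]
    simp
  -- the orbit
  set O : Finset (PowerSeries ℂ) := (Finset.range n).image fun k => rs (z ^ k) a with hO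
  have hOmem : ∀ k : ℕ, rs (z ^ k) a ∈ O := by
    intro k
    rw [hO, Finset.mem_image]
    refine ⟨k % n, Finset.mem_range.mpr (Nat.mod_lt _ (Nat.pos_of_ne_zero hn)), ?_⟩
    rw [← pow_mod_orderOf z k, ← hz.eq_orderOf]
  have hOrs : ∀ b ∈ O, rs z b ∈ O := by
    intro b hb
    rw [hO, Finset.mem_image] at hb
    obtain ⟨k, -, rfl⟩ := hb
    rw [rs_rs, ← pow_succ']
    exact hOmem _
  have hOimg : O.image (rs z) = O := by
    apply Finset.eq_of_subset_of_card_le
    · intro c hc
      obtain ⟨b, hb, rfl⟩ := Finset.mem_image.mp hc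
      exact hOrs b hb
    · rw [Finset.card_image_of_injective _ (rs_injective hz0)]
  have hroot : ∀ b ∈ O, F'.eval b = 0 := by
    intro b hb
    obtain ⟨k, -, rfl⟩ := Finset.mem_image.mp hb
    have h1 : F'.map (rs (z ^ k)) = F' := by
      rw [hF', Polynomial.map_map]
      congr 1
      refine RingHom.ext fun φ => ?_
      rw [RingHom.comp_apply, rs_ex, ← pow_mul, mul_comm k n, pow_mul, hzn, one_pow, rs_one]
    have h2 : (F'.map (rs (z ^ k))).eval (rs (z ^ k) a) = rs (z ^ k) (F'.eval a) := by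
      rw [Polynomial.eval_map_apply]
    rw [h1, ha, map_zero] at h2
    exact h2
  have hF'real : F'.map cj = F' := by
    conv_rhs => rw [hF', ← hreal]
    rw [hF', Polynomial.map_map, Polynomial.map_map]
    congr 1
    refine RingHom.ext fun φ => ?_
    rw [RingHom.comp_apply, RingHom.comp_apply, cj_ex]
  set g : (PowerSeries ℂ)[X] := ∏ b ∈ O, (X - C b) with hg
  have hgm : g.Monic := monic_prod_of_monic _ _ fun b _ => monic_X_sub_C b
  have hginv : g.map (rs z) = g := by
    rw [hg, Polynomial.map_prod]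
    conv_rhs => rw [← hOimg, Finset.prod_image (fun x _ y _ h => rs_injective hz0 h)]
    refine Finset.prod_congr rfl fun b _ => ?_
    simp
  obtain ⟨G, hGm, hG⟩ := exists_ex_of_inv hn hz g hgm hginv
  refine ⟨G, hGm, ?_, ?_⟩
  · have h1 : G.natDegree = g.natDegree := by
      rw [← hG, hGm.natDegree_map]
    rw [h1, hg, natDegree_finsetProd_X_sub_C_eq_card]
    exact Finset.card_pos.mpr ⟨_, hOmem 0⟩
  · rw [← Polynomial.map_dvd_map (ex n hn) (ex_injective n hn) (hGm.mul (hGm.map _)),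
      Polynomial.map_mul, hG]
    have h1 : (G.map cj).map (ex n hn) = g.map cj := by
      rw [← hG, Polynomial.map_map, Polynomial.map_map]
      congr 1
      refine RingHom.ext fun φ => ?_
      rw [RingHom.comp_apply, RingHom.comp_apply, cj_ex]
    rw [h1]
    have h2 : g * g.map cj = ((O.val + O.val.map cj).map fun b => X - C b).prod := by
      rw [Multiset.map_add, Multiset.prod_add, hg, Polynomial.map_prod, Multiset.map_map]
      congr 1
      refine Finset.prod_congr rfl fun b _ => ?_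
      simp
    rw [h2, Multiset.prod_X_sub_C_dvd_iff_le_roots hF'0, Multiset.le_iff_count]
    intro b
    rw [count_roots, Multiset.count_add]
    have hc1 : O.val.count b ≤ 1 := Multiset.nodup_iff_count_le_one.mp O.nodup b
    have hc2 : (O.val.map cj).count b ≤ 1 :=
      Multiset.nodup_iff_count_le_one.mp (O.nodup.map cj_injective) b
    have hr1 : b ∈ O → 1 ≤ rootMultiplicity b F' := fun hb =>
      (Polynomial.rootMultiplicity_pos hF'0).mpr (hroot b hb)
    have hr2 : b ∈ O.val.map cj → 1 ≤ rootMultiplicity b F' := by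
      intro hb
      obtain ⟨c, hc, rfl⟩ := Multiset.mem_map.mp hb
      refine (Polynomial.rootMultiplicity_pos hF'0).mpr ?_
      have h3 : (F'.map cj).eval (cj c) = cj (F'.eval c) := by
        rw [Polynomial.eval_map_apply]
      rw [hF'real, hroot c hc, map_zero] at h3
      exact h3
    by_cases hb1 : b ∈ O
    · by_cases hb2 : b ∈ O.val.map cj
      · have hev : Even (rootMultiplicity b F') := by
          obtain ⟨i, -, hi⟩ := Finset.mem_image.mp hb1
          obtain ⟨c, hc, hcb⟩ := Multiset.mem_map.mp hb2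
          obtain ⟨j, hj, hj'⟩ := Finset.mem_image.mp (show c ∈ O from hc)
          -- `cj b = c = rs (z^j) a` and `b = rs (z^i) a`
          have hcb' : cj b = c := by rw [← hcb, cj_cj]
          have hzi : (starRingEnd ℂ) z ^ i * z ^ i = 1 := by
            rw [← mul_pow, hznorm, one_pow]
          refine hEM n hn b (z ^ j * (starRingEnd ℂ) z ^ i) ?_ ?_
          · rw [mul_pow, ← pow_mul, ← pow_mul, mul_comm j n, mul_comm i n, pow_mul, pow_mul,
              hzn, one_pow, ← map_pow, hzn, map_one, one_pow, one_mul]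
          · rw [hcb', ← hj', ← hi, rs_rs, mul_assoc, hzi, mul_one]
        have := hr1 hb1
        obtain ⟨r, hr⟩ := hev
        omega
      · have := hr1 hb1
        rw [Multiset.count_eq_zero_of_notMem hb2]
        omega
    · have h0 : O.val.count b = 0 := Multiset.count_eq_zero_of_notMem hb1
      by_cases hb2 : b ∈ O.val.map cj
      · have := hr2 hb2
        omega
      · rw [h0, Multiset.count_eq_zero_of_notMem hb2]
        omega

theorem exists_norm_form (d : ℕ) : ∀ F : (PowerSeries ℂ)[X], F.Monic → F.map cj = F → EM F →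
    F.natDegree = d → ∃ Q : (PowerSeries ℂ)[X], Q.Monic ∧ F = Q * Q.map cj := by
  induction d using Nat.strong_induction_on with
  | _ d ih =>
  intro F hF hreal hEM hd
  rcases Nat.eq_zero_or_pos d with h0 | hpos
  · subst h0
    refine ⟨1, monic_one, ?_⟩
    rw [hF.natDegree_eq_zero.mp hd]
    simp
  · obtain ⟨G, hG, hGd, F₁, hF₁⟩ := exists_factor hF hreal hEM (by omega)
    have hGG : (G * G.map cj).Monic := hG.mul (hG.map _)
    have hF₁m : F₁.Monic := hGG.of_mul_monic_left (hF₁ ▸ hF)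
    have hGGreal : (G * G.map cj).map cj = G * G.map cj := by
      rw [Polynomial.map_mul, Polynomial.map_map, cj_comp_cj, Polynomial.map_id, mul_comm]
    have hF₁real : F₁.map cj = F₁ := by
      have h1 := hreal
      rw [hF₁, Polynomial.map_mul, hGGreal] at h1
      exact mul_left_cancel₀ hGG.ne_zero h1
    have hF₁EM : EM F₁ := hEM.of_mul hF.ne_zero hF₁
    have hdeg : F₁.natDegree < d := by
      have := congrArg natDegree hF₁
      rw [hGG.natDegree_mul hF₁m, hG.natDegree_mul (hG.map _)] at this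
      omega
    obtain ⟨Q, hQ, hQ'⟩ := ih _ hdeg F₁ hF₁m hF₁real hF₁EM rfl
    refine ⟨G * Q, hG.mul hQ, ?_⟩
    rw [hF₁, hQ', Polynomial.map_mul]
    ring

/-! ### positivity implies even multiplicities -/

lemma coeff_nonneg_of_nonneg {p : ℝ[X]} (hp : ∀ x : ℝ, 0 ≤ p.eval x) (N : ℕ)
    (u : PowerSeries ℝ) (h : (p : PowerSeries ℝ) = PowerSeries.X ^ N * u) :
    0 ≤ PowerSeries.constantCoeff u := by
  have h1 : (X : ℝ[X]) ^ N ∣ p := by
    rw [Polynomial.X_pow_dvd_iff]
    intro d hd
    have := congrArg (PowerSeries.coeff d) h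
    rw [Polynomial.coeff_coe, PowerSeries.coeff_X_pow_mul', if_neg (by omega)] at this
    exact this
  obtain ⟨q, rfl⟩ := h1
  have hqu : (q : PowerSeries ℝ) = u := by
    rw [Polynomial.coe_mul, Polynomial.coe_pow, Polynomial.coe_X] at h
    exact mul_left_cancel₀ (pow_ne_zero N PowerSeries.X_ne_zero) h
  rw [← hqu, ← PowerSeries.coeff_zero_eq_constantCoeff_apply, Polynomial.coeff_coe,
    Polynomial.coeff_zero_eq_eval_zero]
  have hq : ∀ x : ℝ, 0 < x → 0 ≤ q.eval x := by
    intro x hx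
    have := hp x
    rw [eval_mul, eval_pow, eval_X] at this
    exact nonneg_of_mul_nonneg_right this (pow_pos hx N)
  have hcont : Filter.Tendsto (fun x : ℝ => q.eval x) (nhdsWithin 0 (Set.Ioi 0))
      (nhds (q.eval 0)) := (q.continuous.tendsto 0).mono_left nhdsWithin_le_nhds
  refine ge_of_tendsto hcont ?_
  filter_upwards [self_mem_nhdsWithin] with x hx
  exact hq x hx

/-- a polynomial in `ξ` over `ℝ[σ]`, evaluated at a polynomial -/
lemma coe_eval (Φ : ℝ[X][X]) (p : ℝ[X]) :
    ((Φ.eval p : ℝ[X]) : PowerSeries ℝ) =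
      (Φ.map (Polynomial.coeToPowerSeries.ringHom (R := ℝ))).eval (p : PowerSeries ℝ) := by
  have := Polynomial.eval_map_apply (p := Φ) (Polynomial.coeToPowerSeries.ringHom (R := ℝ)) p
  simpa using this.symm

lemma eval_eval_map (Φ : ℝ[X][X]) (p : ℝ[X]) (s : ℝ) :
    (Φ.eval p).eval s = (Φ.map (evalRingHom s)).eval (p.eval s) := by
  have := Polynomial.eval_map_apply (p := Φ) (evalRingHom s) p
  simpa using this.symm

lemma even_mult_of_nonneg (Φ : ℝ[X][X]) (hΦ : Φ ≠ 0)
    (hpos : ∀ s ξ : ℝ, 0 ≤ (Φ.map (evalRingHom s)).eval ξ) (β : PowerSeries ℝ) :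
    Even (rootMultiplicity β (Φ.map (Polynomial.coeToPowerSeries.ringHom (R := ℝ)))) := by
  set Ψ := Φ.map (Polynomial.coeToPowerSeries.ringHom (R := ℝ)) with hΨ
  have hΨ0 : Ψ ≠ 0 := by
    rw [hΨ, Ne, Polynomial.map_eq_zero_iff]
    · exact hΦ
    · intro a b hab
      simpa using hab
  obtain ⟨H, hH, hHβ⟩ := Polynomial.exists_eq_pow_rootMultiplicity_mul_and_not_dvd Ψ hΨ0 β
  set m := rootMultiplicity β Ψ with hm
  have hHβ0 : H.eval β ≠ 0 := fun h => hHβ (Polynomial.dvd_iff_isRoot.mpr h)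
  by_contra hodd
  rw [Nat.not_even_iff_odd] at hodd
  -- order of `H β`
  obtain ⟨k, h, hk, hh⟩ : ∃ (k : ℕ) (h : PowerSeries ℝ), H.eval β = PowerSeries.X ^ k * h ∧
      PowerSeries.constantCoeff h ≠ 0 := by
    refine ⟨(H.eval β).order.toNat, PowerSeries.divXPowOrder (H.eval β), ?_, ?_⟩
    · rw [PowerSeries.X_pow_order_mul_divXPowOrder]
    · rw [Ne, PowerSeries.constantCoeff_divXPowOrder_eq_zero_iff]
      exact hHβ0
  set M := k + 1 with hM
  -- truncation of `β`
  obtain ⟨β', hβ'⟩ : (PowerSeries.X : PowerSeries ℝ) ^ M ∣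
      β - ((PowerSeries.trunc M β : ℝ[X]) : PowerSeries ℝ) := by
    rw [PowerSeries.X_pow_dvd_iff]
    intro j hj
    rw [map_sub, Polynomial.coeff_coe, PowerSeries.coeff_trunc, if_pos hj, sub_self]
  set c₀ := PowerSeries.constantCoeff β' with hc₀
  have key : ∀ c : ℝ, 0 ≤ (c - c₀) ^ m * PowerSeries.constantCoeff h := by
    intro c
    set p : ℝ[X] := PowerSeries.trunc M β + C c * X ^ M with hp
    have hpβ : (p : PowerSeries ℝ) - β = PowerSeries.X ^ M * (PowerSeries.C c - β') := by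
      rw [hp, Polynomial.coe_add, Polynomial.coe_mul, Polynomial.coe_C, Polynomial.coe_pow,
        Polynomial.coe_X, mul_sub, ← hβ']
      ring
    obtain ⟨w, hw⟩ : (PowerSeries.X : PowerSeries ℝ) ^ M ∣ H.eval (p : PowerSeries ℝ) - H.eval β := by
      refine dvd_trans ?_ (Polynomial.sub_dvd_eval_sub (p : PowerSeries ℝ) β H)
      rw [hpβ]
      exact dvd_mul_right _ _
    have hHp : H.eval (p : PowerSeries ℝ) = PowerSeries.X ^ k * (h + PowerSeries.X * w) := by
      rw [sub_eq_iff_eq_add.mp hw, hk, hM]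
      ring
    have hval : ((Φ.eval p : ℝ[X]) : PowerSeries ℝ) = PowerSeries.X ^ (M * m + k) *
        ((PowerSeries.C c - β') ^ m * (h + PowerSeries.X * w)) := by
      rw [coe_eval, ← hΨ, hH, eval_mul, eval_pow, eval_sub, eval_X, eval_C, hpβ, hHp, mul_pow,
        ← pow_mul]
      ring
    have := coeff_nonneg_of_nonneg (p := Φ.eval p) (fun x => by
      rw [eval_eval_map]
      exact hpos x _) _ _ hval
    simpa using this
  have h1 := key (c₀ + 1)
  have h2 := key (c₀ - 1)
  rw [add_sub_cancel_left, one_pow, one_mul] at h1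
  rw [sub_sub_cancel_left, hodd.neg_one_pow] at h2
  exact hh (by linarith)

/-- the substitution `s ↦ ε σⁿ` in `ℝ[s]` -/
noncomputable abbrev sub (ε : ℝ) (n : ℕ) : ℝ[X] →+* ℝ[X] := Polynomial.compRingHom (C ε * X ^ n)

lemma exists_inc_of_real {β : PowerSeries ℂ} (h : cj β = β) : ∃ β₀ : PowerSeries ℝ, inc β₀ = β := by
  refine ⟨PowerSeries.mk fun k => (PowerSeries.coeff k β).re, ?_⟩
  ext k
  have h1 := congrArg (PowerSeries.coeff k) h
  rw [coeff_cj, Complex.conj_eq_iff_re] at h1
  rw [PowerSeries.coeff_map, PowerSeries.coeff_mk]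
  exact h1

lemma subst_eq (n : ℕ) (hn : n ≠ 0) (μ : ℂ) (ε : ℝ) (h : μ ^ n = ε) :
    ((rs μ).comp (ex n hn)).comp (inc.comp (Polynomial.coeToPowerSeries.ringHom (R := ℝ))) =
      (inc.comp (Polynomial.coeToPowerSeries.ringHom (R := ℝ))).comp (sub ε n) := by
  apply Polynomial.ringHom_ext
  · intro r
    ext k
    simp only [RingHom.comp_apply, Polynomial.coe_compRingHom_apply, Polynomial.C_comp,
      Polynomial.coeToPowerSeries.ringHom_apply, Polynomial.coe_C, PowerSeries.map_C]
    rw [coeff_rs, coeff_ex, PowerSeries.coeff_C, PowerSeries.coeff_C]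
    rcases Nat.eq_zero_or_pos k with h0 | h0
    · subst h0
      simp
    · have h1 : k ≠ 0 := by omega
      rw [if_neg h1]
      split_ifs with h2 h3
      · exact absurd (Nat.eq_zero_of_dvd_of_div_eq_zero h2 h3) h1
      · simp
      · simp
  · simp only [RingHom.comp_apply, Polynomial.coe_compRingHom_apply, Polynomial.X_comp,
      Polynomial.coeToPowerSeries.ringHom_apply, Polynomial.coe_X, PowerSeries.map_X,
      Polynomial.coe_C, map_mul, map_pow, PowerSeries.map_C]
    have h1 : ex n hn PowerSeries.X = PowerSeries.X ^ n := PowerSeries.expand_X n hn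
    have h2 : rs μ PowerSeries.X = PowerSeries.C μ * PowerSeries.X := PowerSeries.rescale_X μ
    rw [h1, map_pow, h2, mul_pow, ← map_pow, h]
    rfl

lemma EM_of_nonneg (F : ℝ[X][X]) (hF : F.Monic)
    (hpos : ∀ s ξ : ℝ, 0 ≤ (F.map (evalRingHom s)).eval ξ) :
    EM ((F.map (Polynomial.coeToPowerSeries.ringHom (R := ℝ))).map inc) := by
  intro n hn b w hw hb
  obtain ⟨μ, hμ⟩ : ∃ μ : ℂ, μ ^ 2 = w := IsAlgClosed.exists_pow_nat_eq w (by norm_num)
  have hμn : ‖μ‖ = 1 :=
    Complex.norm_eq_one_of_pow_eq_one (n := 2 * n) (by rw [pow_mul, hμ, hw]) (by omega)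
  have hμμ : (starRingEnd ℂ) μ * μ = 1 := by
    rw [mul_comm, Complex.mul_conj, Complex.normSq_eq_norm_sq, hμn]
    simp
  have hμ0 : μ ≠ 0 := by
    rintro rfl
    simp at hμn
  have hreal : cj (rs μ b) = rs μ b := by
    rw [cj_rs, hb, rs_rs, ← hμ, pow_two, ← mul_assoc, hμμ, one_mul]
  obtain ⟨β₀, hβ₀⟩ := exists_inc_of_real hreal
  obtain ⟨ε, hε⟩ : ∃ ε : ℝ, μ ^ n = ε := by
    have h1 : (μ ^ n) ^ 2 = 1 := by rw [← pow_mul, mul_comm, pow_mul, hμ, hw]
    have h2 : (μ ^ n - 1) * (μ ^ n + 1) = 0 := by linear_combination h1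
    rcases mul_eq_zero.mp h2 with h | h
    · exact ⟨1, by rw [sub_eq_zero.mp h]; simp⟩
    · exact ⟨-1, by rw [eq_neg_of_add_eq_zero_left h]; simp⟩
  rw [Polynomial.eq_rootMultiplicity_map (rs_injective hμ0) b, ← hβ₀]
  have h1 : (((F.map (Polynomial.coeToPowerSeries.ringHom (R := ℝ))).map inc).map (ex n hn)).map
      (rs μ) = ((F.map (sub ε n)).map (Polynomial.coeToPowerSeries.ringHom (R := ℝ))).map inc := by
    rw [Polynomial.map_map, Polynomial.map_map, Polynomial.map_map, Polynomial.map_map,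
      Polynomial.map_map]
    congr 1
    exact subst_eq n hn μ ε hε
  rw [h1, ← Polynomial.eq_rootMultiplicity_map inc_injective]
  refine even_mult_of_nonneg _ (hF.map _).ne_zero ?_ β₀
  intro s ξ
  have h2 : (F.map (sub ε n)).map (evalRingHom s) = F.map (evalRingHom (ε * s ^ n)) := by
    rw [Polynomial.map_map]
    congr 1
    apply Polynomial.ringHom_ext
    · intro r
      simp
    · simp
  rw [h2]
  exact hpos _ _

/-! ### real and imaginary parts -/

lemma exists_re_im (Q : (PowerSeries ℂ)[X]) (hQ : Q.Monic) :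
    ∃ A B : (PowerSeries ℝ)[X], A.Monic ∧ A.natDegree = Q.natDegree ∧ B.degree < A.degree ∧
      Q = A.map inc + C (PowerSeries.C Complex.I) * B.map inc := by
  set re : PowerSeries ℂ → PowerSeries ℝ := fun φ => PowerSeries.mk fun k =>
    (PowerSeries.coeff k φ).re with hre
  set im : PowerSeries ℂ → PowerSeries ℝ := fun φ => PowerSeries.mk fun k =>
    (PowerSeries.coeff k φ).im with him
  have hrei : ∀ φ, inc (re φ) + PowerSeries.C Complex.I * inc (im φ) = φ := by
    intro φ
    ext k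
    rw [map_add, PowerSeries.coeff_C_mul, PowerSeries.coeff_map, PowerSeries.coeff_map,
      hre, him, PowerSeries.coeff_mk, PowerSeries.coeff_mk, mul_comm]
    exact Complex.re_add_im _
  set d := Q.natDegree with hd
  set A : (PowerSeries ℝ)[X] := X ^ d + ∑ j ∈ Finset.range d, monomial j (re (Q.coeff j)) with hA
  set B : (PowerSeries ℝ)[X] := ∑ j ∈ Finset.range d, monomial j (im (Q.coeff j)) with hB
  have hlow : ∀ f : ℕ → PowerSeries ℝ,
      (∑ j ∈ Finset.range d, monomial j (f j)).degree < (d : WithBot ℕ) := by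
    intro f
    rw [← Polynomial.mem_degreeLT]
    refine Submodule.sum_mem _ fun j hj => ?_
    rw [Polynomial.mem_degreeLT]
    refine lt_of_le_of_lt (degree_monomial_le _ _) ?_
    exact_mod_cast Finset.mem_range.mp hj
  have hAm : A.Monic := monic_X_pow_add (hlow _)
  have hAd : A.degree = d := by
    rw [hA, degree_add_eq_left_of_degree_lt, degree_X_pow]
    rw [degree_X_pow]
    exact hlow _
  refine ⟨A, B, hAm, natDegree_eq_of_degree_eq_some hAd, by rw [hAd]; exact hlow _, ?_⟩
  conv_lhs => rw [hQ.as_sum]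
  rw [hA, hB, Polynomial.map_add, Polynomial.map_sum, Polynomial.map_sum, Polynomial.map_pow,
    Polynomial.map_X, Finset.mul_sum, add_assoc, ← Finset.sum_add_distrib]
  congr 1
  refine Finset.sum_congr rfl fun j _ => ?_
  rw [Polynomial.map_monomial, Polynomial.map_monomial, Polynomial.C_mul_monomial,
    ← map_add, hrei, Polynomial.C_mul_X_pow_eq_monomial]

end HF.TwoSq

open HF.TwoSq in
/-- **Module B.** A monic `F ∈ ℝ[s][ξ]` which is non-negative on `ℝ²` is a sum of two squares in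
`ℝ⟦s⟧[ξ]`. -/
theorem HF.two_squares (F : ℝ[X][X]) (hF : F.Monic)
    (hpos : ∀ s ξ : ℝ, 0 ≤ (F.map (evalRingHom s)).eval ξ) :
    ∃ A B : (PowerSeries ℝ)[X], A.Monic ∧ F.natDegree = 2 * A.natDegree ∧ B.degree < A.degree ∧
      F.map (Polynomial.coeToPowerSeries.ringHom (R := ℝ)) = A ^ 2 + B ^ 2 := by
  set F' := F.map (Polynomial.coeToPowerSeries.ringHom (R := ℝ)) with hF'
  have hF'm : F'.Monic := hF.map _
  have hcjinc : cj.comp inc = inc := by
    refine RingHom.ext fun φ => ?_
    ext k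
    simp
  obtain ⟨Q, hQ, hQ'⟩ := exists_norm_form _ (F'.map inc) (hF'm.map _)
    (by rw [Polynomial.map_map, hcjinc]) (EM_of_nonneg F hF hpos) rfl
  obtain ⟨A, B, hA, hAQ, hBA, hAB⟩ := exists_re_im Q hQ
  refine ⟨A, B, hA, ?_, hBA, ?_⟩
  · have h1 : F.natDegree = (F'.map inc).natDegree := by
      rw [hF'm.natDegree_map, hF', hF.natDegree_map]
    rw [h1, hQ', hQ.natDegree_mul (hQ.map _), hQ.natDegree_map, hAQ]
    ring
  · apply Polynomial.map_injective inc inc_injective
    have h2 : Q.map cj = A.map inc - C (PowerSeries.C Complex.I) * B.map inc := by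
      rw [hAB, Polynomial.map_add, Polynomial.map_mul, Polynomial.map_map, Polynomial.map_map,
        hcjinc, Polynomial.map_C]
      have : cj (PowerSeries.C Complex.I) = - PowerSeries.C Complex.I := by
        rw [PowerSeries.map_C, Complex.conj_I, map_neg]
      rw [this, map_neg]
      ring
    have hI : (C (PowerSeries.C Complex.I) : (PowerSeries ℂ)[X]) ^ 2 = -1 := by
      rw [← map_pow, ← map_pow, Complex.I_sq]
      simp
    rw [hQ', h2, hAB, Polynomial.map_add, Polynomial.map_pow, Polynomial.map_pow]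
    linear_combination (- (B.map inc) ^ 2) * hI
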