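import Mathlib
import Pool.Agent.Hhelper20.HF.Functional
import Pool.Agent.Hhelper20.HF.TwoSquares
import Pool.Agent.Hhelper20.HF.Init
import Pool.Agent.Hhelper20.HF.Laurent

/-!
The theorem for polynomials which are monic in `x` of degree `2 d = deg f`.
-/

namespace HF

open Polynomial

lemma eval₂_reflect {R S : Type*} [CommRing R] [CommRing S] (i : R →+* S) {a b : S}
    (hab : a * b = 1) {N : ℕ} {f : R[X]} (hf : f.natDegree ≤ N) :
    eval₂ i a (reflect N f) = a ^ N * eval₂ i b f := by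
  letI : Invertible b := ⟨a, hab, by rw [mul_comm]; exact hab⟩
  have h := eval₂_reflect_mul_pow i b N f hf
  have h2 : (⅟b : S) = a := rfl
  rw [h2] at h
  rw [← h]
  calc eval₂ i a (reflect N f) = eval₂ i a (reflect N f) * (a * b) ^ N := by
        rw [hab, one_pow, mul_one]
    _ = _ := by rw [mul_pow]; ring

lemma eval_toPP (f : P) (x y : ℝ) :
    eval x ((LocData.toPP f).map (evalRingHom y)) = MvPolynomial.eval ![x, y] f := by
  have : ((evalRingHom x).comp ((mapRingHom (evalRingHom y)).comp LocData.toPP)) =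
      (MvPolynomial.eval ![x, y] : P →+* ℝ) := by
    apply MvPolynomial.ringHom_ext
    · intro r
      simp [LocData.toPP]
    · intro i
      fin_cases i
      · simp [LocData.toPP]
      · simp [LocData.toPP]
  exact congrFun (congrArg DFunLike.coe this) f

/-- `F(ξ, s) = s^n f(ξ/s, 1/s)`. -/
noncomputable def FF (n : ℕ) (f : P) : ℝ[X][X] :=
  ∑ j ∈ Finset.range (n + 1), monomial j (reflect (n - j) ((LocData.toPP f).coeff j))

lemma FF_coeff (n : ℕ) (f : P) (j : ℕ) :
    (FF n f).coeff j = if j ≤ n then reflect (n - j) ((LocData.toPP f).coeff j) else 0 := by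
  rw [FF, finsetSum_coeff]
  simp only [coeff_monomial]
  rw [Finset.sum_ite_eq']
  simp only [Finset.mem_range, Nat.lt_succ_iff]

lemma toPP_natDegree_le {n : ℕ} {f : P} (hf : f.totalDegree ≤ n) (j : ℕ) (hj : j ≤ n) :
    ((LocData.toPP f).coeff j).natDegree ≤ n - j := by
  have h := (dataL.φ_mem_Λ0 (d := n) (p := f)).2 hf
  have := h.2 j hj
  rwa [LocData.φ_coeff', LocData.iota_mem_O] at this

lemma toPP_coeff_zero {n : ℕ} {f : P} (hf : f.totalDegree ≤ n) (j : ℕ) (hj : n < j) :
    (LocData.toPP f).coeff j = 0 := by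
  have h := (dataL.φ_mem_Λ0 (d := n) (p := f)).2 hf
  have := coeff_eq_zero_of_natDegree_lt (lt_of_le_of_lt h.1 hj)
  rw [LocData.φ_coeff'] at this
  exact dataL.ι_injective (this.trans (map_zero _).symm)

lemma FF_eval {n : ℕ} {f : P} (hf : f.totalDegree ≤ n) {s : ℝ} (hs : s ≠ 0) (ξ : ℝ) :
    eval ξ ((FF n f).map (evalRingHom s)) = s ^ n * MvPolynomial.eval ![ξ / s, 1 / s] f := by
  rw [← eval_toPP]
  have h1 : ((LocData.toPP f).map (evalRingHom (1 / s))).natDegree < n + 1 := by
    refine lt_of_le_of_lt natDegree_map_le ?_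
    rw [Nat.lt_succ_iff, natDegree_le_iff_coeff_eq_zero]
    intro j hj
    exact toPP_coeff_zero hf j hj
  rw [eval_eq_sum_range' h1, FF, Polynomial.map_sum, eval_finsetSum, Finset.mul_sum]
  refine Finset.sum_congr rfl fun j hj => ?_
  have hj' : j ≤ n := by have := Finset.mem_range.1 hj; omega
  rw [map_monomial, eval_monomial, coeff_map]
  have h2 := eval₂_reflect (RingHom.id ℝ) (a := s) (b := 1 / s) (by field_simp)
    (toPP_natDegree_le hf j hj')
  rw [eval₂_id, eval₂_id] at h2
  rw [coe_evalRingHom, coe_evalRingHom, h2, div_pow]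
  have h3 : s ^ n = s ^ (n - j) * s ^ j := by rw [← pow_add, Nat.sub_add_cancel hj']
  rw [h3]
  field_simp

lemma FF_nonneg {n : ℕ} {f : P} (hf : f.totalDegree ≤ n) (hn : Even n)
    (hpos : ∀ x : Fin 2 → ℝ, 0 ≤ MvPolynomial.eval x f) (s ξ : ℝ) :
    0 ≤ eval ξ ((FF n f).map (evalRingHom s)) := by
  by_cases hs : s = 0
  · subst hs
    -- continuity
    have hc : Continuous fun s : ℝ => eval ξ ((FF n f).map (evalRingHom s)) := by
      have : (fun s : ℝ => eval ξ ((FF n f).map (evalRingHom s))) =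
          fun s : ℝ => ∑ j ∈ Finset.range (n + 1),
            eval s (reflect (n - j) ((LocData.toPP f).coeff j)) * ξ ^ j := by
        funext s
        rw [FF, Polynomial.map_sum, eval_finsetSum]
        refine Finset.sum_congr rfl fun j hj => ?_
        rw [map_monomial, eval_monomial, coe_evalRingHom]
      rw [this]
      exact continuous_finsetSum _ fun j _ => (Polynomial.continuous _).mul continuous_const
    have hcl : IsClosed {s : ℝ | 0 ≤ eval ξ ((FF n f).map (evalRingHom s))} :=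
      isClosed_le continuous_const hc
    have hd : Dense {s : ℝ | s ≠ 0} := by
      have := dense_compl_singleton (0 : ℝ)
      exact this
    have hsub : {s : ℝ | s ≠ 0} ⊆ {s : ℝ | 0 ≤ eval ξ ((FF n f).map (evalRingHom s))} := by
      intro s hs
      show 0 ≤ eval ξ ((FF n f).map (evalRingHom s))
      rw [FF_eval hf hs]
      exact mul_nonneg (hn.pow_nonneg s) (hpos _)
    have := hcl.closure_subset_iff.2 hsub (hd 0)
    exact this
  · rw [FF_eval hf hs]
    exact mul_nonneg (hn.pow_nonneg s) (hpos _)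

lemma FF_monic {n : ℕ} {f : P} (h1 : (dataL.φ f).coeff n = 1) : (FF n f).Monic := by
  refine monic_of_natDegree_le_of_coeff_eq_one n ?_ ?_
  · rw [natDegree_le_iff_coeff_eq_zero]
    intro j hj
    rw [FF_coeff, if_neg (by omega)]
  · rw [FF_coeff, if_pos le_rfl, Nat.sub_self]
    rw [LocData.φ_coeff'] at h1
    have : (LocData.toPP f).coeff n = 1 := dataL.ι_injective (h1.trans (map_one _).symm)
    rw [this, ← C_1, reflect_C, pow_zero, mul_one]

lemma FF_natDegree {n : ℕ} {f : P} (h1 : (dataL.φ f).coeff n = 1) : (FF n f).natDegree = n := by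
  refine le_antisymm ?_ ?_
  · rw [natDegree_le_iff_coeff_eq_zero]
    intro j hj
    rw [FF_coeff, if_neg (by omega)]
  · apply le_natDegree_of_ne_zero
    rw [FF_coeff, if_pos le_rfl, Nat.sub_self]
    rw [LocData.φ_coeff'] at h1
    have : (LocData.toPP f).coeff n = 1 := dataL.ι_injective (h1.trans (map_one _).symm)
    rw [this, ← C_1, reflect_C, pow_zero, mul_one]
    exact C_ne_zero.2 one_ne_zero

/-- The embedding `ℝ⟦s⟧ → ℝ((s))`. -/
noncomputable abbrev oPS : PowerSeries ℝ →+* LaurentSeries ℝ := HahnSeries.ofPowerSeries ℤ ℝ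

lemma oPS_coe (p : ℝ[X]) : oPS (Polynomial.coeToPowerSeries.ringHom p) =
    eval₂ (HahnSeries.C : ℝ →+* LaurentSeries ℝ) dataL.s p := by
  have : oPS.comp (Polynomial.coeToPowerSeries.ringHom (R := ℝ)) =
      eval₂RingHom (HahnSeries.C : ℝ →+* LaurentSeries ℝ) dataL.s := by
    apply Polynomial.ringHom_ext
    · intro a
      simp
    · simp only [RingHom.coe_comp, Function.comp_apply, coe_eval₂RingHom, eval₂_X]
      rw [Polynomial.coeToPowerSeries.ringHom_apply, Polynomial.coe_X]
      exact HahnSeries.ofPowerSeries_X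
  exact congrFun (congrArg DFunLike.coe this) p

/-- back from `ξ, s` to `x, y`: `A(x,y) = y^d A'(x/y, 1/y)` -/
noncomputable def back (d : ℕ) (A : (PowerSeries ℝ)[X]) : (LaurentSeries ℝ)[X] :=
  C (dataL.ι X ^ d) * (A.map oPS).comp (C dataL.s * X)

lemma back_coeff (d : ℕ) (A : (PowerSeries ℝ)[X]) (j : ℕ) :
    (back d A).coeff j = dataL.ι X ^ d * (oPS (A.coeff j) * dataL.s ^ j) := by
  rw [back, coeff_C_mul, comp_C_mul_X_coeff, coeff_map]

lemma s_pow_iota_pow (d : ℕ) : dataL.s ^ d * dataL.ι X ^ d = 1 := by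
  rw [← mul_pow, dataL.hs, one_pow]

lemma back_mem {d : ℕ} {A : (PowerSeries ℝ)[X]} (hA : A.natDegree ≤ d) :
    back d A ∈ dataL.Λ0 d := by
  refine ⟨?_, fun j hj => ?_⟩
  · rw [natDegree_le_iff_coeff_eq_zero]
    intro j hj
    rw [back_coeff, coeff_eq_zero_of_natDegree_lt (lt_of_le_of_lt hA hj), map_zero, zero_mul,
      mul_zero]
  · rw [back_coeff]
    have : dataL.s ^ (d - j) * (dataL.ι X ^ d * (oPS (A.coeff j) * dataL.s ^ j)) =
        (dataL.s ^ d * dataL.ι X ^ d) * oPS (A.coeff j) := by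
      have h3 : dataL.s ^ d = dataL.s ^ (d - j) * dataL.s ^ j := by
        rw [← pow_add, Nat.sub_add_cancel hj]
      rw [h3]
      ring
    rw [this, s_pow_iota_pow, one_mul]
    exact ⟨_, rfl⟩

lemma back_monic {d : ℕ} {A : (PowerSeries ℝ)[X]} (hA : A.Monic) (hd : A.natDegree = d) :
    (back d A).Monic ∧ (back d A).natDegree = d := by
  have h1 : (back d A).natDegree ≤ d := (back_mem hd.le).1
  have h2 : (back d A).coeff d = 1 := by
    rw [back_coeff]
    have : A.coeff d = 1 := by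
      have := hA.coeff_natDegree
      rwa [hd] at this
    rw [this, map_one, one_mul, mul_comm, s_pow_iota_pow]
  refine ⟨monic_of_natDegree_le_of_coeff_eq_one d h1 h2, le_antisymm h1 ?_⟩
  apply le_natDegree_of_ne_zero
  rw [h2]
  exact one_ne_zero

lemma φ_eq_back {d : ℕ} {f : P} (hf : f.totalDegree ≤ 2 * d) {A B : (PowerSeries ℝ)[X]}
    (h : (FF (2 * d) f).map (Polynomial.coeToPowerSeries.ringHom (R := ℝ)) = A ^ 2 + B ^ 2) :
    dataL.φ f = back d A ^ 2 + back d B ^ 2 := by
  have h1 : back d A ^ 2 + back d B ^ 2 = C (dataL.ι X ^ (2 * d)) *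
      (((FF (2 * d) f).map (Polynomial.coeToPowerSeries.ringHom (R := ℝ))).map oPS).comp
        (C dataL.s * X) := by
    rw [h, back, back, Polynomial.map_add, Polynomial.map_pow, Polynomial.map_pow, add_comp,
      pow_comp, pow_comp, mul_comm 2 d, pow_mul, C_pow (a := dataL.ι X ^ d)]
    ring
  rw [h1]
  ext1 j
  rw [LocData.φ_coeff', coeff_C_mul, comp_C_mul_X_coeff, coeff_map, coeff_map, FF_coeff]
  split_ifs with hj
  · rw [oPS_coe, eval₂_reflect _ dataL.hs (toPP_natDegree_le hf j hj)]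
    have h2 : eval₂ (HahnSeries.C : ℝ →+* LaurentSeries ℝ) (dataL.ι X)
        ((LocData.toPP f).coeff j) = dataL.ι ((LocData.toPP f).coeff j) := by
      show _ = iotaL _
      rw [show dataL.ι X = HahnSeries.single (-1 : ℤ) (1 : ℝ) from iotaL_X]
      rfl
    rw [h2]
    have h3 : dataL.s ^ (2 * d) = dataL.s ^ (2 * d - j) * dataL.s ^ j := by
      rw [← pow_add, Nat.sub_add_cancel hj]
    calc dataL.ι ((LocData.toPP f).coeff j) =
        (dataL.s ^ (2 * d) * dataL.ι X ^ (2 * d)) * dataL.ι ((LocData.toPP f).coeff j) := by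
          rw [s_pow_iota_pow, one_mul]
      _ = _ := by
          rw [h3]
          ring
  · rw [toPP_coeff_zero hf j (by omega)]
    simp

/-- The theorem in the monic case. -/
theorem monic_case {d : ℕ} {f : P} (hf : f.totalDegree ≤ 2 * d)
    (h1 : (dataL.φ f).coeff (2 * d) = 1) (hpos : ∀ x : Fin 2 → ℝ, 0 ≤ MvPolynomial.eval x f) :
    ∃ t : ℝ, 0 ≤ t ∧ ∀ s ≥ t, IsSumSq (heat s f) := by
  obtain ⟨A, B, hA, hd, hBA, hAB⟩ := two_squares (FF (2 * d) f) (FF_monic h1)
    (fun s ξ => FF_nonneg hf (even_two_mul d) hpos s ξ)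
  rw [FF_natDegree h1] at hd
  have hAd : A.natDegree = d := by omega
  have hBd : B.natDegree ≤ d := by
    rw [← hAd]
    exact natDegree_le_natDegree hBA.le
  have e := φ_eq_back hf hAB
  have hm := back_monic hA hAd
  have S := dataL.stage0 (back_mem hAd.le) (back_mem hBd)
  refine dataL.descent (prop := ∃ t : ℝ, 0 ≤ t ∧ ∀ s ≥ t, IsSumSq (heat s f)) hm.1 hm.2 e ?_ _
    _ S (dataL.finite0 d S.smul) rfl
  intro W hW hD hfW
  exact exists_functional W hD f hfW

end HF
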