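import Mathlib
import Pool.Agent.Hhelper20.HF.Monic

/-!
Reduction of the general case to the monic case by a scaled rotation.
-/

namespace HF

open MvPolynomial

/-- The scaled rotation `x ↦ a x - b y`, `y ↦ b x + a y`. -/
noncomputable def rot (a b : ℝ) : P →ₐ[ℝ] P :=
  aeval ![C a * X 0 - C b * X 1, C b * X 0 + C a * X 1]

@[simp] lemma rot_X0 (a b : ℝ) : rot a b (X 0) = C a * X 0 - C b * X 1 := by simp [rot]

@[simp] lemma rot_X1 (a b : ℝ) : rot a b (X 1) = C b * X 0 + C a * X 1 := by simp [rot]

lemma rot_C (a b r : ℝ) : rot a b (C r) = C r := by simp [rot]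

lemma pderiv_rot0 (a b : ℝ) (f : P) :
    pderiv 0 (rot a b f) = C a * rot a b (pderiv 0 f) + C b * rot a b (pderiv 1 f) := by
  induction f using MvPolynomial.induction_on with
  | C r => simp
  | add p q hp hq => simp only [map_add, hp, hq]; ring
  | mul_X p i hp =>
    simp only [Derivation.leibniz, smul_eq_mul, map_add, map_mul, hp]
    fin_cases i
    · simp [pderiv_X]
      ring
    · simp [pderiv_X]
      ring

lemma pderiv_rot1 (a b : ℝ) (f : P) :
    pderiv 1 (rot a b f) = - C b * rot a b (pderiv 0 f) + C a * rot a b (pderiv 1 f) := by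
  induction f using MvPolynomial.induction_on with
  | C r => simp
  | add p q hp hq => simp only [map_add, hp, hq]; ring
  | mul_X p i hp =>
    simp only [Derivation.leibniz, smul_eq_mul, map_add, map_mul, hp]
    fin_cases i
    · simp [pderiv_X]
      ring
    · simp [pderiv_X]
      ring

lemma lap_rot (a b : ℝ) (f : P) : lap (rot a b f) = C (a ^ 2 + b ^ 2) * rot a b (lap f) := by
  rw [lap, lap, pderiv_rot0, pderiv_rot1]
  simp only [map_add, Derivation.leibniz, smul_eq_mul, pderiv_rot0, pderiv_rot1,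
    map_neg, pderiv_C, neg_mul, map_pow]
  rw [D_comm 0 1 f]
  ring

lemma lap_smul (c : ℝ) (f : P) : lap (c • f) = c • lap f := by
  rw [← lapL_apply, map_smul, lapL_apply]

lemma lap_iter_rot (a b : ℝ) (f : P) (k : ℕ) :
    lap^[k] (rot a b f) = ((a ^ 2 + b ^ 2) ^ k : ℝ) • rot a b (lap^[k] f) := by
  induction k with
  | zero => simp
  | succ k ih =>
    rw [Function.iterate_succ_apply', Function.iterate_succ_apply', ih, lap_smul, lap_rot,
      ← smul_eq_C_mul, smul_smul, ← pow_succ]

lemma heat_eq_sum {N : ℕ} {f : P} (hf : f.totalDegree < N) (t : ℝ) :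
    heat t f = ∑ k ∈ Finset.range N, (t ^ k / (k.factorial : ℝ)) • (lap^[k] f) := by
  rw [heat]
  refine Finset.sum_subset (Finset.range_mono (by omega)) ?_
  intro k _ hk
  rw [Finset.mem_range, not_lt] at hk
  have h2 : lap^[k] f = (lapL ^ k) f := by
    rw [Module.End.pow_apply]
    rfl
  rw [h2, lapL_pow_eq_zero (by omega), smul_zero]

lemma heat_rot (a b t : ℝ) (f : P) :
    heat t (rot a b f) = rot a b (heat ((a ^ 2 + b ^ 2) * t) f) := by
  set N := max f.totalDegree (rot a b f).totalDegree + 1
  rw [heat_eq_sum (N := N) (by omega), heat_eq_sum (N := N) (by omega), map_sum]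
  refine Finset.sum_congr rfl fun k _ => ?_
  rw [lap_iter_rot, map_smul, smul_smul]
  congr 1
  rw [mul_pow]
  ring

/-- the inverse rotation -/
lemma rot_inv {a b : ℝ} (h : a ^ 2 + b ^ 2 ≠ 0) (f : P) :
    rot (a / (a ^ 2 + b ^ 2)) (-b / (a ^ 2 + b ^ 2)) (rot a b f) = f := by
  have : (rot (a / (a ^ 2 + b ^ 2)) (-b / (a ^ 2 + b ^ 2))).comp (rot a b) = AlgHom.id ℝ P := by
    apply MvPolynomial.algHom_ext
    intro i
    have e1 : a * (a / (a ^ 2 + b ^ 2)) - b * (-b / (a ^ 2 + b ^ 2)) = 1 := by
      field_simp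
      ring
    fin_cases i
    · simp only [AlgHom.comp_apply, Fin.zero_eta, rot_X0, map_sub, map_mul, rot_C, rot_X1,
        AlgHom.id_apply]
      have : C a * (C (a / (a ^ 2 + b ^ 2)) * X 0 - C (-b / (a ^ 2 + b ^ 2)) * X 1) -
          C b * (C (-b / (a ^ 2 + b ^ 2)) * X 0 + C (a / (a ^ 2 + b ^ 2)) * X 1) =
          C (a * (a / (a ^ 2 + b ^ 2)) - b * (-b / (a ^ 2 + b ^ 2))) * X 0 -
          C (a * (-b / (a ^ 2 + b ^ 2)) + b * (a / (a ^ 2 + b ^ 2))) * (X 1 : P) := by
        simp only [C_sub, C_add, C_mul]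
        ring
      rw [this, e1]
      have e2 : a * (-b / (a ^ 2 + b ^ 2)) + b * (a / (a ^ 2 + b ^ 2)) = 0 := by
        field_simp
        ring
      rw [e2]
      simp
    · simp only [AlgHom.comp_apply, Fin.mk_one, rot_X0, map_add, map_mul, rot_C, rot_X1,
        AlgHom.id_apply]
      have : C b * (C (a / (a ^ 2 + b ^ 2)) * X 0 - C (-b / (a ^ 2 + b ^ 2)) * X 1) +
          C a * (C (-b / (a ^ 2 + b ^ 2)) * X 0 + C (a / (a ^ 2 + b ^ 2)) * X 1) =
          C (b * (a / (a ^ 2 + b ^ 2)) + a * (-b / (a ^ 2 + b ^ 2))) * X 0 +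
          C (a * (a / (a ^ 2 + b ^ 2)) - b * (-b / (a ^ 2 + b ^ 2))) * (X 1 : P) := by
        simp only [C_sub, C_add, C_mul]
        ring
      rw [this, e1]
      have e2 : b * (a / (a ^ 2 + b ^ 2)) + a * (-b / (a ^ 2 + b ^ 2)) = 0 := by
        field_simp
        ring
      rw [e2]
      simp
  exact congrFun (congrArg DFunLike.coe this) f

lemma isSumSq_algHom (ψ : P →ₐ[ℝ] P) {f : P} (hf : IsSumSq f) : IsSumSq (ψ f) := by
  induction hf with
  | zero => rw [map_zero]; exact IsSumSq.zero
  | sq_add a hs ih => rw [map_add, map_mul]; exact IsSumSq.sq_add _ ih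

lemma totalDegree_rot (a b : ℝ) (f : P) : (rot a b f).totalDegree ≤ f.totalDegree := by
  rw [rot, aeval_def, eval₂_eq]
  refine totalDegree_finsetSum_le fun m hm => ?_
  refine (totalDegree_mul _ _).trans ?_
  have h1 : (algebraMap ℝ P (coeff m f)).totalDegree = 0 := totalDegree_C _
  rw [h1, zero_add]
  refine (totalDegree_finsetProd _ _).trans ?_
  refine le_trans ?_ (le_totalDegree hm)
  rw [Finsupp.sum]
  refine Finset.sum_le_sum fun i _ => ?_
  refine (totalDegree_pow _ _).trans ?_
  have hX : ∀ (c : ℝ) (j : Fin 2), (C c * X j : P).totalDegree ≤ 1 := by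
    intro c j
    refine (totalDegree_mul _ _).trans ?_
    rw [totalDegree_C, totalDegree_X]
  have : (![C a * X 0 - C b * X 1, C b * X 0 + C a * X 1] i : P).totalDegree ≤ 1 := by
    fin_cases i
    · exact (totalDegree_sub _ _).trans (max_le (hX _ _) (hX _ _))
    · exact (totalDegree_add _ _).trans (max_le (hX _ _) (hX _ _))
  calc m i * _ ≤ m i * 1 := Nat.mul_le_mul_left _ this
    _ = m i := mul_one _

/-- restriction to the line `t ↦ (a t, b t)` -/
noncomputable def line (a b : ℝ) : P →ₐ[ℝ] Polynomial ℝ :=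
  aeval ![Polynomial.C a * Polynomial.X, Polynomial.C b * Polynomial.X]

lemma line_coeff (a b : ℝ) (f : P) (n : ℕ) :
    (line a b f).coeff n = eval ![a, b] (homogeneousComponent n f) := by
  induction f using MvPolynomial.induction_on' with
  | add p q hp hq => simp [hp, hq]
  | monomial u r =>
    have h1 : line a b (monomial u r) = Polynomial.monomial (u 0 + u 1)
        (r * (a ^ u 0 * b ^ u 1)) := by
      rw [line, aeval_monomial, Finsupp.prod_fintype _ _ (by intro i; simp), Fin.prod_univ_two]
      simp only [Matrix.cons_val_zero, Matrix.cons_val_one]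
      rw [← Polynomial.C_mul_X_pow_eq_monomial]
      simp only [Polynomial.C_mul, Polynomial.C_pow, mul_pow, pow_add]
      show Polynomial.C r * _ = _
      ring
    have h2 : (monomial u r : P) ∈ homogeneousSubmodule (Fin 2) ℝ (u 0 + u 1) := by
      rw [mem_homogeneousSubmodule]
      apply isHomogeneous_monomial
      rw [Finsupp.degree_eq_sum, Fin.sum_univ_two]
    rw [h1, Polynomial.coeff_monomial, homogeneousComponent_of_mem h2]
    by_cases h : n = u 0 + u 1
    · rw [if_pos h, if_pos h.symm, eval_monomial, Finsupp.prod_fintype _ _ (by intro i; simp),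
        Fin.prod_univ_two]
      simp
    · rw [if_neg h, if_neg (Ne.symm h), map_zero]

lemma psd_even {p : Polynomial ℝ} (hp : ∀ x, 0 ≤ p.eval x) (h0 : p ≠ 0) :
    0 < p.leadingCoeff ∧ Even p.natDegree := by
  have key : ∀ q : Polynomial ℝ, (∀ x, 0 ≤ q.eval x) → q ≠ 0 → 0 < q.leadingCoeff := by
    intro q hq hq0
    by_cases hd : q.degree ≤ 0
    · have h1 := Polynomial.eq_C_of_degree_le_zero hd
      have h2 := hq 0
      rw [h1, Polynomial.eval_C] at h2
      have h3 : q.leadingCoeff = q.coeff 0 := by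
        conv_lhs => rw [h1]
        exact Polynomial.leadingCoeff_C _
      rw [h3]
      refine lt_of_le_of_ne h2 (fun h => hq0 ?_)
      rw [h1, ← h, Polynomial.C_0]
    · push Not at hd
      by_contra hcon
      push Not at hcon
      have h1 := q.tendsto_atBot_of_leadingCoeff_nonpos hd hcon
      obtain ⟨x, hx⟩ := (h1.eventually (Filter.eventually_lt_atBot 0)).exists
      exact absurd (hq x) (not_le.2 hx)
  refine ⟨key p hp h0, ?_⟩
  have h1 := key p hp h0
  set q := p.comp (-Polynomial.X) with hq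
  have hq1 : ∀ x, 0 ≤ q.eval x := by
    intro x
    rw [hq, Polynomial.eval_comp]
    exact hp _
  have hlc : q.leadingCoeff = p.leadingCoeff * (-1) ^ p.natDegree := by
    rw [hq, Polynomial.leadingCoeff_comp (by simp)]
    simp
  have hq0 : q ≠ 0 := by
    intro h
    rw [h, Polynomial.leadingCoeff_zero] at hlc
    have : p.leadingCoeff * (-1) ^ p.natDegree ≠ 0 :=
      mul_ne_zero h1.ne' (pow_ne_zero _ (by norm_num))
    exact this hlc.symm
  have h2 := key q hq1 hq0
  rw [hlc] at h2
  by_contra hodd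
  rw [Nat.not_even_iff_odd] at hodd
  rw [hodd.neg_one_pow] at h2
  linarith

lemma line_eval (a b : ℝ) (f : P) (x : ℝ) :
    (line a b f).eval x = eval ![a * x, b * x] f := by
  have : ((Polynomial.evalRingHom x).comp (line a b : P →+* Polynomial ℝ)) =
      (eval ![a * x, b * x] : P →+* ℝ) := by
    apply MvPolynomial.ringHom_ext
    · intro r
      simp [line]
    · intro i
      fin_cases i
      · simp [line]
      · simp [line]
  exact congrFun (congrArg DFunLike.coe this) f

lemma line_eq (a b : ℝ) (f : P) :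
    line a b f = (LocData.toPP (rot a b f)).map (Polynomial.evalRingHom 0) := by
  have : (line a b : P →+* Polynomial ℝ) =
      ((Polynomial.mapRingHom (Polynomial.evalRingHom 0)).comp LocData.toPP).comp
        (rot a b : P →+* P) := by
    apply MvPolynomial.ringHom_ext
    · intro r
      simp [line, rot, LocData.toPP]
    · intro i
      fin_cases i
      · simp [line, LocData.toPP]
      · simp [line, LocData.toPP]
  exact congrFun (congrArg DFunLike.coe this) f

lemma eval_rot (a b : ℝ) (f : P) (x : Fin 2 → ℝ) :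
    eval x (rot a b f) = eval ![a * x 0 - b * x 1, b * x 0 + a * x 1] f := by
  have : (eval x : P →+* ℝ).comp (rot a b : P →+* P) =
      (eval ![a * x 0 - b * x 1, b * x 0 + a * x 1] : P →+* ℝ) := by
    apply MvPolynomial.ringHom_ext
    · intro r
      simp [rot]
    · intro i
      fin_cases i
      · simp
      · simp
  exact congrFun (congrArg DFunLike.coe this) f

lemma homogeneousComponent_top_ne_zero {f : P} (hf : f ≠ 0) :
    homogeneousComponent f.totalDegree f ≠ 0 := by
  have hs : f.support.Nonempty := by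
    rwa [Finset.nonempty_iff_ne_empty, ne_eq, support_eq_empty]
  obtain ⟨m, hm, he⟩ := Finset.exists_mem_eq_sup f.support hs (fun m => m.sum fun _ e => e)
  intro h
  have h1 := coeff_homogeneousComponent (R := ℝ) f.totalDegree f m
  rw [h, coeff_zero, if_pos] at h1
  · exact (mem_support_iff.1 hm) h1.symm
  · rw [totalDegree, he]
    rfl

lemma exists_dir {q : P} (hq : q ≠ 0) : ∃ a b : ℝ, a ^ 2 + b ^ 2 ≠ 0 ∧ eval ![a, b] q ≠ 0 := by
  by_contra hcon
  push Not at hcon
  have h1 : X 0 * q = 0 := by
    apply MvPolynomial.funext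
    intro v
    rw [map_mul, map_zero, eval_X]
    by_cases h0 : v 0 = 0
    · rw [h0, zero_mul]
    · have hv : v = ![v 0, v 1] := by
        funext i
        fin_cases i <;> simp
      rw [hv, hcon (v 0) (v 1) (by positivity), mul_zero]
  rcases mul_eq_zero.1 h1 with h | h
  · exact X_ne_zero 0 h
  · exact hq h

/-- **Main theorem**: the heat flow of a non-negative bivariate polynomial is a sum of squares
after finite time. -/
theorem heat_sos (f : P) (hf : ∀ x : Fin 2 → ℝ, 0 ≤ eval x f) :
    ∃ T : ℝ, 0 < T ∧ ∀ t ≥ T, IsSumSq (heat t f) := by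
  by_cases hf0 : f = 0
  · refine ⟨1, one_pos, fun t ht => ?_⟩
    rw [hf0]
    exact isSumSq_heat (by linarith) IsSumSq.zero
  obtain ⟨a, b, hab, hne⟩ := exists_dir (homogeneousComponent_top_ne_zero hf0)
  set n := f.totalDegree with hn
  set c := eval ![a, b] (homogeneousComponent n f) with hc
  set p := line a b f with hp
  have hpc : p.coeff n = c := line_coeff a b f n
  have hpn : p.natDegree = n := by
    refine le_antisymm ?_ (Polynomial.le_natDegree_of_ne_zero (by rw [hpc]; exact hne))
    rw [Polynomial.natDegree_le_iff_coeff_eq_zero]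
    intro j hj
    rw [hp, line_coeff, homogeneousComponent_eq_zero _ _ hj, map_zero]
  have hp0 : p ≠ 0 := by
    intro h
    rw [h, Polynomial.coeff_zero] at hpc
    exact hne hpc.symm
  have hpsd := psd_even (p := p) (fun x => by rw [hp, line_eval]; exact hf _) hp0
  rw [Polynomial.leadingCoeff, hpn, hpc] at hpsd
  obtain ⟨hcpos, d, hd⟩ := hpsd
  set g := rot a b f with hg
  have hgd : g.totalDegree ≤ 2 * d := (totalDegree_rot a b f).trans (by omega)
  have hgc : (LocData.toPP g).coeff (2 * d) = Polynomial.C c := by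
    have h1 := toPP_natDegree_le hgd (2 * d) le_rfl
    rw [Nat.sub_self] at h1
    rw [Polynomial.eq_C_of_natDegree_le_zero h1]
    congr 1
    have h2 : p.coeff (2 * d) = ((LocData.toPP g).map (Polynomial.evalRingHom 0)).coeff (2 * d) := by
      rw [hp, line_eq]
    rw [Polynomial.coeff_map, Polynomial.coe_evalRingHom, ← Polynomial.coeff_zero_eq_eval_zero,
      show 2 * d = n by omega, hpc] at h2
    rw [show 2 * d = n by omega, ← h2]
  obtain ⟨t0, ht0, h⟩ := monic_case (d := d) (f := c⁻¹ • g)
    ((totalDegree_smul_le _ _).trans hgd) (by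
      rw [LocData.φ_smul, Polynomial.coeff_C_mul, LocData.φ_coeff', hgc, ← map_mul,
        ← Polynomial.C_mul, inv_mul_cancel₀ hcpos.ne', Polynomial.C_1, map_one]) (fun x => by
      rw [smul_eval, eval_rot]
      exact mul_nonneg (inv_nonneg.2 hcpos.le) (hf _))
  have hρ : 0 < a ^ 2 + b ^ 2 := lt_of_le_of_ne (by positivity) (Ne.symm hab)
  refine ⟨max 1 ((a ^ 2 + b ^ 2) * t0), lt_max_of_lt_left one_pos, fun t ht => ?_⟩
  have h1 : t0 ≤ t / (a ^ 2 + b ^ 2) := by
    rw [le_div_iff₀ hρ, mul_comm]
    exact (le_max_right _ _).trans ht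
  have h2 := h _ h1
  rw [heat_smul, hg, heat_rot, mul_div_cancel₀ _ hρ.ne'] at h2
  have h3 := isSumSq_algHom (rot (a / (a ^ 2 + b ^ 2)) (-b / (a ^ 2 + b ^ 2))) h2
  rw [map_smul, rot_inv hab] at h3
  have h4 : heat t f = C c * (c⁻¹ • heat t f) := by
    rw [← smul_eq_C_mul, smul_smul, mul_inv_cancel₀ hcpos.ne', one_smul]
  rw [h4]
  have h5 : IsSumSq (C c : P) := by
    have := isSumSq_C_mul hcpos.le (1 : P)
    simpa using this
  exact h5.mul h3

end HF
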